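import Pool.Agent.H356R3.NS.Basic

open MeasureTheory Set Filter Topology
open scoped ENNReal NNReal

namespace Pool.Agent.H356R3.NS

/-- Absolutely summable sequences. -/
def SN (x : K → C3) : Prop := Summable fun k => ‖x k‖

lemma SN.add {x y : K → C3} (hx : SN x) (hy : SN y) : SN (x + y) :=
  (Summable.add hx hy).of_nonneg_of_le (fun _ => norm_nonneg _) fun _ => norm_add_le _ _

lemma SN.neg {x : K → C3} (hx : SN x) : SN (-x) := by
  unfold SN at *; simpa using hx

lemma SN.sub {x y : K → C3} (hx : SN x) (hy : SN y) : SN (x - y) := by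
  rw [sub_eq_add_neg]; exact hx.add hy.neg

lemma summ_cv {x y : K → C3} (hx : SN x) (hy : SN y) (k : K) (i j : Fin 3) :
    Summable fun l => x l i * y (k - l) j := by
  refine Summable.of_norm_bounded (g := fun l => ‖x l‖ * ∑' l', ‖y l'‖) (hx.mul_right _) fun l => ?_
  rw [norm_mul]
  apply mul_le_mul (norm_le_pi_norm (x l) i) _ (norm_nonneg _) (norm_nonneg _)
  exact (norm_le_pi_norm (y (k - l)) j).trans (hy.le_tsum (k - l) fun _ _ => norm_nonneg _)

lemma cv_add_left {x x' y : K → C3} (hx : SN x) (hx' : SN x') (hy : SN y) (k : K) (i j : Fin 3) :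
    cv (x + x') y k i j = cv x y k i j + cv x' y k i j := by
  unfold cv
  rw [← (summ_cv hx hy k i j).tsum_add (summ_cv hx' hy k i j)]
  refine tsum_congr fun l => ?_
  simp only [Pi.add_apply]; ring

lemma cv_add_right {x y y' : K → C3} (hx : SN x) (hy : SN y) (hy' : SN y') (k : K) (i j : Fin 3) :
    cv x (y + y') k i j = cv x y k i j + cv x y' k i j := by
  unfold cv
  rw [← (summ_cv hx hy k i j).tsum_add (summ_cv hx hy' k i j)]
  refine tsum_congr fun l => ?_
  simp only [Pi.add_apply]; ring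

lemma Bf_add_left {x x' y : K → C3} (hx : SN x) (hx' : SN x') (hy : SN y) :
    Bf (x + x') y = Bf x y + Bf x' y := by
  funext k i
  simp only [Bf, Pi.add_apply, cv_add_left hx hx' hy, mul_add, Finset.sum_add_distrib]

lemma Bf_add_right {x y y' : K → C3} (hx : SN x) (hy : SN y) (hy' : SN y') :
    Bf x (y + y') = Bf x y + Bf x y' := by
  funext k i
  simp only [Bf, Pi.add_apply, cv_add_right hx hy hy', mul_add, Finset.sum_add_distrib]

lemma Bf_sub_left {x x' y : K → C3} (hx : SN x) (hx' : SN x') (hy : SN y) :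
    Bf (x - x') y = Bf x y - Bf x' y := by
  have := Bf_add_left (hx.sub hx') hx' hy
  rw [sub_add_cancel] at this
  rw [this, add_sub_cancel_right]

lemma Bf_sub_right {x y y' : K → C3} (hx : SN x) (hy : SN y) (hy' : SN y') :
    Bf x (y - y') = Bf x y - Bf x y' := by
  have := Bf_add_right hx (hy.sub hy') hy'
  rw [sub_add_cancel] at this
  rw [this, add_sub_cancel_right]

/-- Difference of squares. -/
lemma Bf_diff {x y : K → C3} (hx : SN x) (hy : SN y) :
    Bf x x - Bf y y = Bf (x - y) x + Bf y (x - y) := by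
  rw [Bf_sub_left hx hy hx, Bf_sub_right hy hx hy]
  abel

/-- Reality condition. -/
def Sym (x : K → C3) : Prop := ∀ k i, x (-k) i = star (x k i)

lemma Sym.add {x y : K → C3} (hx : Sym x) (hy : Sym y) : Sym (x + y) := by
  intro k i; simp [hx k i, hy k i]

lemma Sym.sub {x y : K → C3} (hx : Sym x) (hy : Sym y) : Sym (x - y) := by
  intro k i; simp [hx k i, hy k i]

lemma cv_sym {x y : K → C3} (hx : Sym x) (hy : Sym y) (k : K) (i j : Fin 3) :
    cv x y (-k) i j = star (cv x y k i j) := by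
  unfold cv
  rw [show star (∑' l, x l i * y (k - l) j) = ∑' l, star (x l i * y (k - l) j) from tsum_star]
  rw [← (Equiv.neg K).tsum_eq]
  refine tsum_congr fun l => ?_
  simp only [Equiv.neg_apply, star_mul']
  rw [← hx, ← hy]
  congr 2
  abel

lemma coef_neg (k : K) (i j m : Fin 3) : coef (-k) i j m = star (coef k i j m) := by
  unfold coef
  simp only [sq_neg, Pi.neg_apply, Int.cast_neg, Complex.star_def, map_mul, map_neg, map_sub,
    map_div₀, Complex.conj_ofReal, Complex.conj_I, map_ofNat]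
  have h1 : ∀ n : ℤ, (starRingEnd ℂ) (n : ℂ) = n := fun n => by simp
  have h2 : (starRingEnd ℂ) (if m = i then (1 : ℂ) else 0) = if m = i then 1 else 0 := by
    split_ifs <;> simp
  rw [h1, h1, h1, h2]
  ring

lemma Bf_sym {x y : K → C3} (hx : Sym x) (hy : Sym y) : Sym (Bf x y) := by
  intro k i
  unfold Bf
  simp only [star_sum, star_mul', ← coef_neg, ← cv_sym hx hy]

/-- A single mode. -/
noncomputable def Sg (κ : K) (v : C3) : K → C3 := fun k => if k = κ then v else 0

lemma SN_Sg (κ : K) (v : C3) : SN (Sg κ v) := by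
  unfold SN
  refine summable_of_ne_finset_zero (s := {κ}) fun k hk => ?_
  simp only [Finset.mem_singleton] at hk
  simp [Sg, hk]

lemma cv_Sg (κ κ' : K) (v v' : C3) (k : K) (i j : Fin 3) :
    cv (Sg κ v) (Sg κ' v') k i j = if k = κ + κ' then v i * v' j else 0 := by
  unfold cv
  rw [tsum_eq_single κ]
  · simp only [Sg, if_true]
    have : (k - κ = κ') ↔ (k = κ + κ') := by
      rw [sub_eq_iff_eq_add, add_comm]
    by_cases h : k = κ + κ'
    · rw [if_pos (this.2 h), if_pos h]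
    · rw [if_neg (fun h' => h (this.1 h')), if_neg h]; simp
  · intro l hl
    simp [Sg, hl]

/-- The interaction of two modes. -/
noncomputable def bt (k : K) (v v' : C3) : C3 := fun i => ∑ j, ∑ m, coef k i j m * (v j * v' m)

lemma Bf_Sg (κ κ' : K) (v v' : C3) : Bf (Sg κ v) (Sg κ' v') = Sg (κ + κ') (bt (κ + κ') v v') := by
  funext k i
  unfold Bf
  simp only [cv_Sg]
  by_cases h : k = κ + κ'
  · subst h
    simp [Sg, bt]
  · simp [Sg, h]

/-- `k · v` -/
noncomputable def dt (k : K) (v : C3) : ℂ := ∑ j, (k j : ℂ) * v j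

lemma bt_eq (k : K) (v v' : C3) (i : Fin 3) :
    bt k v v' i = -(2 * Real.pi * Complex.I) * dt k v *
      (v' i - (k i : ℂ) * dt k v' / ((sq k : ℝ) : ℂ)) := by
  unfold bt coef dt
  have h1 : ∀ j, ∑ m, -(2 * Real.pi * Complex.I) * (k j : ℂ) *
      ((if m = i then 1 else 0) - (k i : ℂ) * (k m : ℂ) / ((sq k : ℝ) : ℂ)) * (v j * v' m)
      = ((k j : ℂ) * v j) * (-(2 * Real.pi * Complex.I) *
        (v' i - (k i : ℂ) * (∑ m, (k m : ℂ) * v' m) / ((sq k : ℝ) : ℂ))) := by
    intro j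
    have h2 : v' i = ∑ m, (if m = i then 1 else 0) * v' m := by simp
    rw [h2, Finset.mul_sum, Finset.sum_div, ← Finset.sum_sub_distrib, Finset.mul_sum,
      Finset.mul_sum]
    refine Finset.sum_congr rfl fun m _ => ?_
    ring
  simp only [h1]
  rw [← Finset.sum_mul]
  ring

lemma bt_zero_left {k : K} {v v' : C3} (h : dt k v = 0) : bt k v v' = 0 := by
  funext i
  rw [bt_eq, h]; simp

lemma bt_perp {k : K} {v v' : C3} (h : dt k v' = 0) :
    bt k v v' = (-(2 * Real.pi * Complex.I) * dt k v) • v' := by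
  funext i
  rw [bt_eq, h]; simp

lemma bt_freq_zero (v v' : C3) : bt 0 v v' = 0 := by
  apply bt_zero_left
  simp [dt]

lemma Sg_zero (κ : K) : Sg κ 0 = 0 := by
  funext k; simp [Sg]

lemma Sg_add (κ : K) (v v' : C3) : Sg κ (v + v') = Sg κ v + Sg κ v' := by
  funext k; simp only [Sg, Pi.add_apply]; split_ifs <;> simp

/-! ### Weighted norms -/

/-- Weighted `ℓ¹` norm. -/
noncomputable def NW (W : K → ℝ≥0∞) (x : K → C3) : ℝ≥0∞ := ∑' k, W k * ‖x k‖ₑ

/-- weight `e^{a|k|}/|k|` -/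
noncomputable def Wm (a : ℝ) (k : K) : ℝ≥0∞ := ENNReal.ofReal (om a k / nk k)

/-- weight `e^{a|k|}` -/
noncomputable def Wa (a : ℝ) (k : K) : ℝ≥0∞ := ENNReal.ofReal (om a k)

/-- weight `e^{a|k|}|k|` -/
noncomputable def Wp (a : ℝ) (k : K) : ℝ≥0∞ := ENNReal.ofReal (om a k * nk k)

lemma NW_add_le (W : K → ℝ≥0∞) (x y : K → C3) : NW W (x + y) ≤ NW W x + NW W y := by
  unfold NW
  rw [← ENNReal.tsum_add]
  refine ENNReal.tsum_le_tsum fun k => ?_
  rw [← mul_add]
  exact mul_le_mul' le_rfl (enorm_add_le _ _)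

lemma NW_neg (W : K → ℝ≥0∞) (x : K → C3) : NW W (-x) = NW W x := by
  unfold NW; simp

lemma NW_sub_le (W : K → ℝ≥0∞) (x y : K → C3) : NW W (x - y) ≤ NW W x + NW W y := by
  rw [sub_eq_add_neg, ← NW_neg W y]
  exact NW_add_le _ _ _

lemma NW_zero (W : K → ℝ≥0∞) : NW W 0 = 0 := by simp [NW]

lemma NW_mono {W W' : K → ℝ≥0∞} (h : ∀ k, W k ≤ W' k) (x : K → C3) : NW W x ≤ NW W' x :=
  ENNReal.tsum_le_tsum fun k => mul_le_mul' (h k) le_rfl

lemma NW_Sg (W : K → ℝ≥0∞) (κ : K) (v : C3) : NW W (Sg κ v) = W κ * ‖v‖ₑ := by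
  unfold NW
  rw [tsum_eq_single κ]
  · simp [Sg]
  · intro k hk; simp [Sg, hk]

lemma Wa_mono {a b : ℝ} (h : a ≤ b) (k : K) : Wa a k ≤ Wa b k :=
  ENNReal.ofReal_le_ofReal (om_mono h k)

/-- The bilinear estimate. -/
lemma NW_Bf_le {a : ℝ} (ha : 0 ≤ a) (x y : K → C3) :
    NW (Wm a) (Bf x y) ≤ ENNReal.ofReal C0 * (NW (Wa a) x * NW (Wa a) y) := by
  have h1 : ∀ k, Wm a k * ‖Bf x y k‖ₑ ≤ ENNReal.ofReal C0 *
      ∑' l, (Wa a l * ‖x l‖ₑ) * (Wa a (k - l) * ‖y (k - l)‖ₑ) := by
    intro k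
    by_cases hk : k = 0
    · subst hk; rw [Bf_zero]; simp
    have hn := nk_pos hk
    calc Wm a k * ‖Bf x y k‖ₑ
        ≤ Wm a k * (ENNReal.ofReal (C0 * nk k) * ∑' l, ‖x l‖ₑ * ‖y (k - l)‖ₑ) :=
          mul_le_mul' le_rfl (enorm_Bf_le x y k)
      _ = ENNReal.ofReal C0 * (ENNReal.ofReal (om a k) * ∑' l, ‖x l‖ₑ * ‖y (k - l)‖ₑ) := by
          rw [← mul_assoc, ← mul_assoc]
          congr 1
          unfold Wm
          rw [← ENNReal.ofReal_mul (div_nonneg (om_pos a k).le hn.le), ← ENNReal.ofReal_mul C0_pos.le]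
          congr 1
          field_simp
      _ ≤ _ := by
          apply mul_le_mul' le_rfl
          rw [← ENNReal.tsum_mul_left]
          refine ENNReal.tsum_le_tsum fun l => ?_
          calc ENNReal.ofReal (om a k) * (‖x l‖ₑ * ‖y (k - l)‖ₑ)
              ≤ (ENNReal.ofReal (om a l) * ENNReal.ofReal (om a (k - l)))
                * (‖x l‖ₑ * ‖y (k - l)‖ₑ) := by
                apply mul_le_mul' _ le_rfl
                rw [← ENNReal.ofReal_mul (om_pos a l).le]
                exact ENNReal.ofReal_le_ofReal (om_sub ha k l)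
            _ = _ := by unfold Wa; ring
  calc NW (Wm a) (Bf x y) ≤ ∑' k, ENNReal.ofReal C0 *
      ∑' l, (Wa a l * ‖x l‖ₑ) * (Wa a (k - l) * ‖y (k - l)‖ₑ) := ENNReal.tsum_le_tsum h1
    _ = ENNReal.ofReal C0 * ∑' l, ∑' k, (Wa a l * ‖x l‖ₑ) * (Wa a (k - l) * ‖y (k - l)‖ₑ) := by
        rw [ENNReal.tsum_mul_left, ENNReal.tsum_comm]
    _ = _ := by
        congr 1
        unfold NW
        rw [← ENNReal.tsum_mul_right]
        refine tsum_congr fun l => ?_
        rw [ENNReal.tsum_mul_left]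
        congr 1
        exact (Equiv.subRight l).tsum_eq fun k => Wa a k * ‖y k‖ₑ

/-- Interpolation. -/
lemma NW_interp {a : ℝ} {x : K → C3} (h0 : x 0 = 0) :
    NW (Wa a) x * NW (Wa a) x ≤ NW (Wm a) x * NW (Wp a) x := by
  have key : ∀ k l, (Wa a k * ‖x k‖ₑ) * (Wa a l * ‖x l‖ₑ) + (Wa a k * ‖x k‖ₑ) * (Wa a l * ‖x l‖ₑ)
      ≤ (Wm a k * ‖x k‖ₑ) * (Wp a l * ‖x l‖ₑ) + (Wp a k * ‖x k‖ₑ) * (Wm a l * ‖x l‖ₑ) := by
    intro k l
    by_cases hk : k = 0
    · subst hk; simp [h0]
    by_cases hl : l = 0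
    · subst hl; simp [h0]
    have hk' := nk_pos hk
    have hl' := nk_pos hl
    have e1 : (Wa a k * ‖x k‖ₑ) * (Wa a l * ‖x l‖ₑ) + (Wa a k * ‖x k‖ₑ) * (Wa a l * ‖x l‖ₑ)
        = ENNReal.ofReal (om a k * om a l + om a k * om a l) * (‖x k‖ₑ * ‖x l‖ₑ) := by
      unfold Wa
      rw [ENNReal.ofReal_add (by have := om_pos a k; have := om_pos a l; positivity)
        (by have := om_pos a k; have := om_pos a l; positivity), ENNReal.ofReal_mul (om_pos a k).le]
      ring
    have e2 : (Wm a k * ‖x k‖ₑ) * (Wp a l * ‖x l‖ₑ) + (Wp a k * ‖x k‖ₑ) * (Wm a l * ‖x l‖ₑ)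
        = ENNReal.ofReal ((om a k / nk k) * (om a l * nk l) + (om a k * nk k) * (om a l / nk l))
          * (‖x k‖ₑ * ‖x l‖ₑ) := by
      unfold Wm Wp
      have p1 := om_pos a k
      have p2 := om_pos a l
      rw [ENNReal.ofReal_add (by positivity) (by positivity),
        ENNReal.ofReal_mul (p := om a k / nk k) (by positivity),
        ENNReal.ofReal_mul (p := om a k * nk k) (by positivity)]
      ring
    rw [e1, e2]
    apply mul_le_mul' _ le_rfl
    apply ENNReal.ofReal_le_ofReal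
    have p1 := om_pos a k
    have p2 := om_pos a l
    have h3 : (om a k / nk k) * (om a l * nk l) + (om a k * nk k) * (om a l / nk l)
        = om a k * om a l * ((nk l ^ 2 + nk k ^ 2) / (nk k * nk l)) := by
      field_simp
    rw [h3, ← two_mul, mul_comm (2 : ℝ)]
    apply mul_le_mul_of_nonneg_left _ (by positivity)
    rw [le_div_iff₀ (by positivity)]
    nlinarith [sq_nonneg (nk k - nk l)]
  have h2 : NW (Wa a) x * NW (Wa a) x + NW (Wa a) x * NW (Wa a) x
      ≤ NW (Wm a) x * NW (Wp a) x + NW (Wp a) x * NW (Wm a) x := by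
    have e : ∀ f g : K → ℝ≥0∞, (∑' k, f k) * (∑' l, g l) = ∑' k, ∑' l, f k * g l := by
      intro f g
      rw [← ENNReal.tsum_mul_right]
      exact tsum_congr fun k => ENNReal.tsum_mul_left.symm
    unfold NW
    rw [e, e, e, ← ENNReal.tsum_add, ← ENNReal.tsum_add]
    refine ENNReal.tsum_le_tsum fun k => ?_
    rw [← ENNReal.tsum_add, ← ENNReal.tsum_add]
    exact ENNReal.tsum_le_tsum fun l => key k l
  rw [mul_comm (NW (Wp a) x), ← two_mul, ← two_mul] at h2
  exact (ENNReal.mul_le_mul_iff_right (by norm_num) (by norm_num)).1 h2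

end Pool.Agent.H356R3.NS
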