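import Pool.Agent.H356R3.NS.Key

open MeasureTheory Set Filter Topology
open scoped ENNReal NNReal

namespace Pool.Agent.H356R3.NS

/-- The parameters of the contraction argument. -/
structure Par (c D Lam ρ : ℝ) : Prop where
  hc : 0 < c
  hD : 0 < D
  hL : 0 < Lam
  hρ : 0 < ρ
  h1 : 36 * C0 ^ 2 * Real.sqrt (1 / (2 * Lam)) * D ≤ c
  h2 : Real.exp (2 * (Lam * D ^ 2)) * (2 * ρ) ≤ Real.sqrt (1 / (2 * Lam))
  h3 : Real.exp (2 * (Lam * D ^ 2)) * (2 * ρ) ≤ D

lemma exists_par {c D : ℝ} (hc : 0 < c) (hD : 0 < D) : ∃ Lam ρ, Par c D Lam ρ := by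
  have hC := C0_pos
  set κ := c / (36 * C0 ^ 2 * D)
  have hκ : 0 < κ := by positivity
  refine ⟨1 / (2 * κ ^ 2), Real.exp (-(2 * (1 / (2 * κ ^ 2) * D ^ 2))) * (min κ D) / 2, ?_⟩
  have hs : Real.sqrt (1 / (2 * (1 / (2 * κ ^ 2)))) = κ := by
    have : 1 / (2 * (1 / (2 * κ ^ 2))) = κ ^ 2 := by field_simp
    rw [this, Real.sqrt_sq hκ.le]
  have hm : 0 < min κ D := lt_min hκ hD
  have he : Real.exp (2 * (1 / (2 * κ ^ 2) * D ^ 2)) *
      (2 * (Real.exp (-(2 * (1 / (2 * κ ^ 2) * D ^ 2))) * (min κ D) / 2)) = min κ D := by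
    have : Real.exp (2 * (1 / (2 * κ ^ 2) * D ^ 2)) * Real.exp (-(2 * (1 / (2 * κ ^ 2) * D ^ 2))) = 1 := by
      rw [← Real.exp_add]; simp
    calc _ = (Real.exp (2 * (1 / (2 * κ ^ 2) * D ^ 2)) * Real.exp (-(2 * (1 / (2 * κ ^ 2) * D ^ 2)))) * min κ D := by ring
      _ = _ := by rw [this, one_mul]
  refine ⟨hc, hD, by positivity, by positivity, ?_, ?_, ?_⟩
  · rw [hs]
    apply le_of_eq
    simp only [κ]
    field_simp
  · rw [hs, he]; exact min_le_left _ _
  · rw [he]; exact min_le_right _ _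

variable {c D Lam ρ : ℝ}

lemma gw_le (hL : 0 ≤ Lam) {A : ℝ → ℝ} (hA : Continuous A) (hA0 : ∀ t, 0 ≤ A t) (hD : 0 ≤ D)
    (hAi : LN (fun t => ENNReal.ofReal (A t)) ≤ ENNReal.ofReal D) {t : ℝ} (ht : 0 ≤ t) :
    gw Lam A t ≤ Lam * D ^ 2 := by
  unfold gw
  apply mul_le_mul_of_nonneg_left _ hL
  have h1 : ENNReal.ofReal (∫ s in (0 : ℝ)..t, A s ^ 2) ≤ ENNReal.ofReal (D ^ 2) := by
    rw [intervalIntegral.integral_of_le ht, ofReal_integral_eq_lintegral_ofReal]
    · calc ∫⁻ s in Ioc 0 t, ENNReal.ofReal (A s ^ 2)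
          = ∫⁻ s in Ioc 0 t, ENNReal.ofReal (A s) ^ (2 : ℝ) := by
            refine lintegral_congr fun s => ?_
            rw [ENNReal.rpow_two, ENNReal.ofReal_pow (hA0 s)]
        _ ≤ ∫⁻ s in Ioi 0, ENNReal.ofReal (A s) ^ (2 : ℝ) := lintegral_mono_set fun s hs => hs.1
        _ = LN (fun t => ENNReal.ofReal (A t)) ^ (2 : ℝ) := by
            unfold LN
            rw [← ENNReal.rpow_mul]; norm_num
        _ ≤ ENNReal.ofReal D ^ (2 : ℝ) := ENNReal.rpow_le_rpow hAi (by norm_num)
        _ = _ := by rw [ENNReal.rpow_two, ENNReal.ofReal_pow hD]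
    · exact ((hA.pow 2).integrableOn_Icc (a := 0) (b := t)).mono_set Ioc_subset_Icc_self
    · exact Filter.Eventually.of_forall fun s => sq_nonneg _
  exact (ENNReal.ofReal_le_ofReal_iff (by positivity)).1 h1

/-- The main contraction estimate. -/
lemma contr (hp : Par c D Lam ρ) {a : ℝ} {A : ℝ → ℝ} (hA : Continuous A) (hA0 : ∀ t, 0 ≤ A t)
    (hAi : LN (fun t => ENNReal.ofReal (A t)) ≤ ENNReal.ofReal D)
    {F d : Fam} (hF : CF F) (h0 : ∀ t, F 0 t = 0) (hd : CF d) {Y : ℝ → ℝ≥0∞} (hY : Measurable Y)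
    (hYi : LN (fun s => ENNReal.ofReal (Real.exp (-gw Lam A s)) * Y s) ≤ ENNReal.ofReal (2 * ρ))
    (hb : ∀ s, 0 < s → NW (Wm a) (at' F s) ≤
      ENNReal.ofReal C0 * (NW (Wa a) (at' d s) * (2 * ENNReal.ofReal (A s) + Y s))) :
    LF (gw Lam A) a (Duh c F) ≤ (1 / 2) * LF (gw Lam A) a d ∧
    ∀ t, 0 ≤ t → NW (Wm a) (at' (Duh c F) t) ≤
      ENNReal.ofReal (Real.exp (Lam * D ^ 2) * (3 * C0 * D)) * LF (gw Lam A) a d := by
  obtain ⟨hc, hD, hL, hρ, h1, h2, h3⟩ := hp
  have hC := C0_pos
  set g := gw Lam A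
  set G := Lam * D ^ 2
  set κ := Real.sqrt (1 / (2 * Lam))
  have hκ : 0 < κ := Real.sqrt_pos.2 (by positivity)
  have hg : Monotone g := gw_mono hL.le hA
  have hgc : Continuous g := continuous_iff_continuousAt.2 fun s => (gw_deriv Lam hA s).continuousAt
  have hgG : ∀ t, 0 ≤ t → g t ≤ G := fun t ht => gw_le hL.le hA hA0 hD.le hAi ht
  have hg0 : ∀ t, 0 ≤ t → 0 ≤ g t := fun t ht => gw_nonneg hL.le hA ht
  have hgm : Measurable fun t => ENNReal.ofReal (Real.exp (-g t)) := by fun_prop
  set δ : ℝ → ℝ≥0∞ := fun s => ENNReal.ofReal (Real.exp (-g s)) * NW (Wa a) (at' d s)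
  set Z : ℝ → ℝ≥0∞ := fun s => ENNReal.ofReal (Real.exp (-g s)) * Y s
  have hδm : Measurable δ := hgm.mul (NW_meas _ hd)
  have hZm : Measurable Z := hgm.mul hY
  have hx : LF g a d = LN δ := rfl
  set x := LF g a d
  -- the product term
  have hYd : ∀ s, 0 < s → ∀ w : ℝ≥0∞, w ≤ 1 → w * (NW (Wa a) (at' d s) * Y s)
      ≤ ENNReal.ofReal (Real.exp (2 * G)) * (Z s * δ s) := by
    intro s hs w hw
    have e : ENNReal.ofReal (Real.exp (2 * G)) * (Z s * δ s)
        = ENNReal.ofReal (Real.exp (2 * G) * (Real.exp (-g s) * Real.exp (-g s))) *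
          (NW (Wa a) (at' d s) * Y s) := by
      simp only [Z, δ]
      rw [ENNReal.ofReal_mul (Real.exp_pos _).le, ENNReal.ofReal_mul (Real.exp_pos _).le]
      ring
    rw [e]
    apply mul_le_mul' _ le_rfl
    refine hw.trans ?_
    rw [← Real.exp_add, ← Real.exp_add, ENNReal.one_le_ofReal]
    apply Real.one_le_exp
    have := hgG s hs.le
    linarith
  have hsum : ENNReal.ofReal (Real.exp (2 * G)) * ∫⁻ s in Ioi 0, Z s * δ s
      ≤ ENNReal.ofReal (Real.exp (2 * G) * (2 * ρ)) * x := by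
    calc _ ≤ ENNReal.ofReal (Real.exp (2 * G)) * (LN Z * LN δ) :=
          mul_le_mul' le_rfl (LN_cs hZm hδm)
      _ ≤ ENNReal.ofReal (Real.exp (2 * G)) * (ENNReal.ofReal (2 * ρ) * x) :=
          mul_le_mul' le_rfl (mul_le_mul' hYi le_rfl)
      _ = _ := by rw [← mul_assoc, ← ENNReal.ofReal_mul (Real.exp_pos _).le]
  -- P
  have hP : ∀ t, 0 < t → ENNReal.ofReal (Real.exp (-g t)) * ∫⁻ s in Ioc 0 t, NW (Wm a) (at' F s)
      ≤ ENNReal.ofReal (3 * C0 * κ) * x := by
    intro t ht
    have m1 : Measurable fun s => ENNReal.ofReal (Real.exp (-(g t - g s)) * |A s|) := by fun_prop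
    have hcs : ∫⁻ s in Ioc 0 t, ENNReal.ofReal (Real.exp (-(g t - g s)) * |A s|) * δ s
        ≤ ENNReal.ofReal κ * x := by
      have := ENNReal.lintegral_mul_le_Lp_mul_Lq (volume.restrict (Ioc (0 : ℝ) t))
        Real.HolderConjugate.two_two m1.aemeasurable hδm.aemeasurable
      refine this.trans ?_
      apply mul_le_mul'
      · calc _ ≤ (ENNReal.ofReal (1 / (2 * Lam))) ^ (1 / 2 : ℝ) :=
              ENNReal.rpow_le_rpow (kernel_le hL hA ht.le) (by norm_num)
          _ = ENNReal.ofReal κ := by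
              rw [ENNReal.ofReal_rpow_of_nonneg (by positivity) (by norm_num), ← Real.sqrt_eq_rpow]
      · rw [hx]; unfold LN
        apply ENNReal.rpow_le_rpow _ (by norm_num)
        exact lintegral_mono_set fun s hs => hs.1
    calc ENNReal.ofReal (Real.exp (-g t)) * ∫⁻ s in Ioc 0 t, NW (Wm a) (at' F s)
        = ∫⁻ s in Ioc 0 t, ENNReal.ofReal (Real.exp (-g t)) * NW (Wm a) (at' F s) := by
          rw [lintegral_const_mul _ (NW_meas _ hF)]
      _ ≤ ∫⁻ s in Ioc 0 t, ENNReal.ofReal C0 * (2 * (ENNReal.ofReal (Real.exp (-(g t - g s)) * |A s|) * δ s)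
          + ENNReal.ofReal (Real.exp (2 * G)) * (Z s * δ s)) := by
          refine setLIntegral_mono' measurableSet_Ioc fun s hs => ?_
          have hs0 : 0 < s := hs.1
          calc ENNReal.ofReal (Real.exp (-g t)) * NW (Wm a) (at' F s)
              ≤ ENNReal.ofReal (Real.exp (-g t)) * (ENNReal.ofReal C0 *
                (NW (Wa a) (at' d s) * (2 * ENNReal.ofReal (A s) + Y s))) :=
                mul_le_mul' le_rfl (hb s hs0)
            _ = ENNReal.ofReal C0 * (2 * (ENNReal.ofReal (Real.exp (-g t)) *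
                (ENNReal.ofReal (A s) * NW (Wa a) (at' d s)))
                + ENNReal.ofReal (Real.exp (-g t)) * (NW (Wa a) (at' d s) * Y s)) := by ring
            _ ≤ _ := by
                apply mul_le_mul' le_rfl
                apply add_le_add
                · apply mul_le_mul' le_rfl
                  apply le_of_eq
                  simp only [δ]
                  rw [abs_of_nonneg (hA0 s), ENNReal.ofReal_mul (Real.exp_pos _).le]
                  have e : Real.exp (-g t) = Real.exp (-(g t - g s)) * Real.exp (-g s) := by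
                    rw [← Real.exp_add]; congr 1; ring
                  rw [e, ENNReal.ofReal_mul (Real.exp_pos _).le]
                  ring
                · apply hYd s hs0
                  rw [ENNReal.ofReal_le_one, Real.exp_le_one_iff]
                  have := hg0 t ht.le
                  linarith
      _ = ENNReal.ofReal C0 * (2 * ∫⁻ s in Ioc 0 t, ENNReal.ofReal (Real.exp (-(g t - g s)) * |A s|) * δ s)
          + ENNReal.ofReal C0 * (ENNReal.ofReal (Real.exp (2 * G)) * ∫⁻ s in Ioc 0 t, Z s * δ s) := by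
          rw [lintegral_const_mul _ (by fun_prop), lintegral_add_left (by fun_prop),
            lintegral_const_mul _ (by fun_prop), lintegral_const_mul _ (by fun_prop)]
          ring
      _ ≤ ENNReal.ofReal C0 * (2 * (ENNReal.ofReal κ * x)) +
          ENNReal.ofReal C0 * (ENNReal.ofReal (Real.exp (2 * G) * (2 * ρ)) * x) := by
          apply add_le_add
          · exact mul_le_mul' le_rfl (mul_le_mul' le_rfl hcs)
          · apply mul_le_mul' le_rfl
            refine le_trans ?_ hsum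
            exact mul_le_mul' le_rfl (lintegral_mono_set fun s hs => hs.1)
      _ ≤ ENNReal.ofReal C0 * (2 * (ENNReal.ofReal κ * x)) +
          ENNReal.ofReal C0 * (ENNReal.ofReal κ * x) := by
          gcongr
      _ = ENNReal.ofReal (3 * C0 * κ) * x := by
          rw [ENNReal.ofReal_mul (by positivity), ENNReal.ofReal_mul (by positivity)]
          simp only [ENNReal.ofReal_ofNat]
          ring
  have hQ : ∫⁻ s in Ioi 0, ENNReal.ofReal (Real.exp (-g s)) * NW (Wm a) (at' F s)
      ≤ ENNReal.ofReal (3 * C0 * D) * x := by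
    have m1 : Measurable fun s => ENNReal.ofReal (A s) := by fun_prop
    have hcs : ∫⁻ s in Ioi 0, ENNReal.ofReal (A s) * δ s ≤ ENNReal.ofReal D * x :=
      (LN_cs m1 hδm).trans (mul_le_mul' hAi le_rfl)
    calc ∫⁻ s in Ioi 0, ENNReal.ofReal (Real.exp (-g s)) * NW (Wm a) (at' F s)
        ≤ ∫⁻ s in Ioi 0, ENNReal.ofReal C0 * (2 * (ENNReal.ofReal (A s) * δ s)
          + ENNReal.ofReal (Real.exp (2 * G)) * (Z s * δ s)) := by
          refine setLIntegral_mono' measurableSet_Ioi fun s hs => ?_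
          have hs0 : 0 < s := hs
          calc ENNReal.ofReal (Real.exp (-g s)) * NW (Wm a) (at' F s)
              ≤ ENNReal.ofReal (Real.exp (-g s)) * (ENNReal.ofReal C0 *
                (NW (Wa a) (at' d s) * (2 * ENNReal.ofReal (A s) + Y s))) :=
                mul_le_mul' le_rfl (hb s hs0)
            _ = ENNReal.ofReal C0 * (2 * (ENNReal.ofReal (A s) * δ s)
                + ENNReal.ofReal (Real.exp (-g s)) * (NW (Wa a) (at' d s) * Y s)) := by
                simp only [δ]; ring
            _ ≤ _ := by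
                apply mul_le_mul' le_rfl
                apply add_le_add le_rfl
                apply hYd s hs0
                rw [ENNReal.ofReal_le_one, Real.exp_le_one_iff]
                have := hg0 s hs0.le
                linarith
      _ = ENNReal.ofReal C0 * (2 * ∫⁻ s in Ioi 0, ENNReal.ofReal (A s) * δ s)
          + ENNReal.ofReal C0 * (ENNReal.ofReal (Real.exp (2 * G)) * ∫⁻ s in Ioi 0, Z s * δ s) := by
          rw [lintegral_const_mul _ (by fun_prop), lintegral_add_left (by fun_prop),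
            lintegral_const_mul _ (by fun_prop), lintegral_const_mul _ (by fun_prop)]
          ring
      _ ≤ ENNReal.ofReal C0 * (2 * (ENNReal.ofReal D * x)) +
          ENNReal.ofReal C0 * (ENNReal.ofReal (Real.exp (2 * G) * (2 * ρ)) * x) := by
          apply add_le_add
          · exact mul_le_mul' le_rfl (mul_le_mul' le_rfl hcs)
          · exact mul_le_mul' le_rfl hsum
      _ ≤ ENNReal.ofReal C0 * (2 * (ENNReal.ofReal D * x)) +
          ENNReal.ofReal C0 * (ENNReal.ofReal D * x) := by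
          gcongr
      _ = ENNReal.ofReal (3 * C0 * D) * x := by
          rw [ENNReal.ofReal_mul (by positivity), ENNReal.ofReal_mul (by positivity)]
          simp only [ENNReal.ofReal_ofNat]
          ring
  constructor
  · have hk := key_le hc hF h0 hg hP hQ
    have h5 : ENNReal.ofReal (3 * C0 * κ) * x * (ENNReal.ofReal (3 * C0 * D) * x)
        ≤ ENNReal.ofReal c * ((1 / 2) * x) ^ 2 := by
      have e1 : ENNReal.ofReal (3 * C0 * κ) * x * (ENNReal.ofReal (3 * C0 * D) * x)
          = ENNReal.ofReal (3 * C0 * κ * (3 * C0 * D)) * x ^ 2 := by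
        rw [ENNReal.ofReal_mul (p := 3 * C0 * κ) (by positivity)]; ring
      have e2 : ENNReal.ofReal c * ((1 / 2) * x) ^ 2 = ENNReal.ofReal (c * (1 / 4)) * x ^ 2 := by
        rw [ENNReal.ofReal_mul hc.le]
        have : ENNReal.ofReal (1 / 4) = (1 / 2) ^ 2 := by
          rw [ENNReal.ofReal_div_of_pos (by norm_num)]
          simp only [ENNReal.ofReal_one, ENNReal.ofReal_ofNat, one_div]
          rw [← ENNReal.inv_pow]
          norm_num
        rw [this]; ring
      rw [e1, e2]
      apply mul_le_mul' _ le_rfl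
      apply ENNReal.ofReal_le_ofReal
      nlinarith
    have h6 : ENNReal.ofReal c * LF g a (Duh c F) ^ 2 ≤ ENNReal.ofReal c * ((1 / 2) * x) ^ 2 :=
      hk.trans h5
    have h7 : LF g a (Duh c F) ^ 2 ≤ ((1 / 2) * x) ^ 2 :=
      (ENNReal.mul_le_mul_iff_right (by simpa using hc) ENNReal.ofReal_ne_top).1 h6
    rw [← ENNReal.rpow_two, ← ENNReal.rpow_two] at h7
    exact (ENNReal.rpow_le_rpow_iff (by norm_num : (0 : ℝ) < 2)).1 h7
  · intro t ht
    calc NW (Wm a) (at' (Duh c F) t) ≤ ∫⁻ s in Ioc 0 t, NW (Wm a) (at' F s) :=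
          NW_Duh_le hc.le (Wm a) hF ht
      _ ≤ ∫⁻ s in Ioi 0, NW (Wm a) (at' F s) := lintegral_mono_set fun s hs => hs.1
      _ ≤ ∫⁻ s in Ioi 0, ENNReal.ofReal (Real.exp G) *
          (ENNReal.ofReal (Real.exp (-g s)) * NW (Wm a) (at' F s)) := by
          refine setLIntegral_mono' measurableSet_Ioi fun s hs => ?_
          have hs0 : 0 < s := hs
          rw [← mul_assoc, ← ENNReal.ofReal_mul (Real.exp_pos _).le, ← Real.exp_add]
          calc NW (Wm a) (at' F s) = 1 * NW (Wm a) (at' F s) := (one_mul _).symm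
            _ ≤ _ := by
                apply mul_le_mul' _ le_rfl
                rw [ENNReal.one_le_ofReal]
                apply Real.one_le_exp
                have := hgG s hs0.le
                linarith
      _ = ENNReal.ofReal (Real.exp G) * ∫⁻ s in Ioi 0,
          (ENNReal.ofReal (Real.exp (-g s)) * NW (Wm a) (at' F s)) := by
          have mm : Measurable fun s => ENNReal.ofReal (Real.exp (-g s)) * NW (Wm a) (at' F s) :=
            hgm.mul (NW_meas _ hF)
          rw [lintegral_const_mul _ mm]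
      _ ≤ ENNReal.ofReal (Real.exp G) * (ENNReal.ofReal (3 * C0 * D) * x) :=
          mul_le_mul' le_rfl hQ
      _ = _ := by rw [← mul_assoc, ← ENNReal.ofReal_mul (Real.exp_pos _).le]

end Pool.Agent.H356R3.NS
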