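import Pool.Agent.H356R3.NS.Dens

open MeasureTheory Set Filter Topology
open scoped ENNReal NNReal

namespace Pool.Agent.H356R3.NS

theorem near_target {c r dl : ℝ} (hc : 0 < c) (hr : 2 < r) (hdl : 0 < dl) (K0 : ℕ) {V0 : K → C3}
    (hfin : (Function.support V0).Finite) (h0 : V0 0 = 0) (hdiv : ∀ k, dt k (V0 k) = 0)
    (hsym : Sym V0) : ∀ ε : ℝ, 0 < ε → ∃ W, NearW c r dl K0 ε V0 W := by
  classical
  have hP : ∀ q : K, ∃ (d : K) (γ1 γ2 : ℂ), q ≠ 0 → d ≠ 0 ∧ ip q d = 0 ∧
      (1 / 2 : ℂ) • V0 q = γ1 • cK d + γ2 • cK (crs q d) := by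
    intro q
    by_cases hq : q = 0
    · exact ⟨0, 0, 0, fun h => absurd hq h⟩
    · obtain ⟨d, hd, hqd⟩ := exists_perp hq
      have hv : dt q ((1 / 2 : ℂ) • V0 q) = 0 := by
        have := hdiv q
        unfold dt at this ⊢
        simp only [Pi.smul_apply, smul_eq_mul]
        rw [show ∑ j, (q j : ℂ) * (1 / 2 * V0 q j) = 1 / 2 * ∑ j, (q j : ℂ) * V0 q j by
          rw [Finset.mul_sum]; exact Finset.sum_congr rfl fun i _ => by ring, this, mul_zero]
      obtain ⟨γ1, γ2, h⟩ := decomp hq hd hqd hv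
      exact ⟨d, γ1, γ2, fun _ => ⟨hd, hqd, h⟩⟩
  choose d γ1 γ2 hP using hP
  set P : K → K → C3 := fun q => E0 q (d q) (γ1 q) + E0 q (crs q (d q)) (γ2 q)
  have hnear : ∀ T : Finset K, (∀ q ∈ T, q ≠ 0) → ∀ ε : ℝ, 0 < ε → ∃ W, NearW c r dl K0 ε (∑ q ∈ T, P q) W := by
    intro T
    induction T using Finset.induction_on with
    | empty => intro _ ε _; rw [Finset.sum_empty]; exact near_zero (by linarith) K0
    | insert q T hqT ih =>
      intro hT
      have hq := hT q (Finset.mem_insert_self _ _)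
      have ih' := ih fun q' h' => hT q' (Finset.mem_insert_of_mem h')
      obtain ⟨hd, hqd, -⟩ := hP q hq
      have g1 := geo_crs hq hd hqd
      have hqc : ip q (crs q (d q)) = 0 := by rw [ip_comm]; exact g1.ηq
      have g2 := geo_crs hq g1.hη hqc
      rw [Finset.sum_insert hqT]
      have h1 := near_add hc hr hdl ih' g1 (γ1 q)
      have h2 := near_add hc hr hdl h1 g2 (γ2 q)
      have e : P q + ∑ x ∈ T, P x = ∑ x ∈ T, P x + E0 q (d q) (γ1 q) + E0 q (crs q (d q)) (γ2 q) := by
        simp only [P]; abel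
      rw [e]
      exact h2
  set S := hfin.toFinset
  have hS0 : ∀ q ∈ S, q ≠ 0 := by
    intro q hq h
    rw [Set.Finite.mem_toFinset, Function.mem_support, h] at hq
    exact hq h0
  have hPq : ∀ q, q ≠ 0 → P q = Sg q ((1 / 2 : ℂ) • V0 q) + Sg (-q) ((1 / 2 : ℂ) • V0 (-q)) := by
    intro q hq
    obtain ⟨-, -, h⟩ := hP q hq
    have h' : (1 / 2 : ℂ) • V0 (-q) = star (γ1 q) • cK (d q) + star (γ2 q) • cK (crs q (d q)) := by
      funext i
      have h1 := congrFun h i
      simp only [Pi.smul_apply, Pi.add_apply, smul_eq_mul] at h1 ⊢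
      rw [hsym q i]
      have h2 := congrArg star h1
      simp only [star_mul', star_add] at h2
      have h3 : star (1 / 2 : ℂ) = 1 / 2 := by simp
      have h4 : ∀ l : K, star (cK l i) = cK l i := by intro l; simp [cK]
      rw [h3, h4, h4] at h2
      exact h2
    simp only [P]
    rw [h, h', Sg_add, Sg_add]
    unfold E0
    abel
  have hsum : ∑ q ∈ S, P q = V0 := by
    rw [Finset.sum_congr rfl fun q hq => hPq q (hS0 q hq), Finset.sum_add_distrib]
    funext k
    rw [Pi.add_apply, Finset.sum_apply, Finset.sum_apply]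
    have mem : ∀ k, k ∉ S → V0 k = 0 := by
      intro k hk
      by_contra h
      exact hk (by rw [Set.Finite.mem_toFinset]; exact h)
    have h1 : ∑ q ∈ S, Sg q ((1 / 2 : ℂ) • V0 q) k = (1 / 2 : ℂ) • V0 k := by
      unfold Sg
      rw [Finset.sum_ite_eq]
      split_ifs with h
      · rfl
      · rw [mem k h, smul_zero]
    have h2 : ∑ q ∈ S, Sg (-q) ((1 / 2 : ℂ) • V0 (-q)) k = (1 / 2 : ℂ) • V0 k := by
      unfold Sg
      have e : ∀ q, (if k = -q then (1 / 2 : ℂ) • V0 (-q) else 0)
          = if -k = q then (1 / 2 : ℂ) • V0 k else 0 := by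
        intro q
        by_cases h : k = -q
        · rw [if_pos h, if_pos (by rw [h, neg_neg]), h]
        · rw [if_neg h, if_neg (fun h' => h (by rw [← h', neg_neg]))]
      simp only [e]
      rw [Finset.sum_ite_eq]
      split_ifs with h
      · rfl
      · have h3 := mem _ h
        have h4 : V0 k = 0 := by
          funext i
          have := hsym k i
          rw [h3] at this
          simp only [Pi.zero_apply] at this ⊢
          exact (star_eq_zero.1 this.symm)
        rw [h4, smul_zero]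
    rw [h1, h2, ← add_smul]
    norm_num
  intro ε hε
  have := hnear S hS0 ε hε
  rwa [hsum] at this

end Pool.Agent.H356R3.NS
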