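import Mathlib

/-!
# Admissible periodic solutions of the Navier-Stokes equations, and the critical Fourier-Besov norms
-/

open Set MeasureTheory
open scoped ContDiff ENNReal

namespace Pool.Agent.H356R3.NS

/-- `ℝ³`. -/
abbrev R3 := Fin 3 → ℝ

/-- The partial derivative `∂f/∂x_j` at `x`. -/
noncomputable def pd (j : Fin 3) (f : R3 → ℝ) (x : R3) : ℝ := fderiv ℝ f x (Pi.single j 1)

/-- `(u, p)` is an admissible periodic solution of the Navier-Stokes equations with viscosity `ν`, zero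
force and initial velocity `v`: `u` and `p` are `C^∞` on `ℝ³ × [0,∞)` (with one-sided time derivatives at
`t = 0`), `ℤ³`-periodic in `x`, satisfy `∂_t u_i + ∑_j u_j ∂_j u_i = ν Δ u_i - ∂_i p` and `div u = 0` for
all `t ≥ 0` and `x`, and `u(·,0) = v`. -/
structure AdmissiblePeriodic (ν : ℝ) (v : R3 → R3) (u : ℝ → R3 → R3) (p : ℝ → R3 → ℝ) : Prop where
  smooth_u : ContDiffOn ℝ ∞ (fun z : ℝ × R3 => u z.1 z.2) (Ici 0 ×ˢ univ)
  smooth_p : ContDiffOn ℝ ∞ (fun z : ℝ × R3 => p z.1 z.2) (Ici 0 ×ˢ univ)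
  periodic_u : ∀ t, 0 ≤ t → ∀ x j, u t (x + Pi.single j 1) = u t x
  periodic_p : ∀ t, 0 ≤ t → ∀ x j, p t (x + Pi.single j 1) = p t x
  momentum : ∀ t, 0 ≤ t → ∀ x i,
    derivWithin (fun s => u s x i) (Ici 0) t + ∑ j, u t x j * pd j (fun y => u t y i) x
      = ν * ∑ j, pd j (pd j fun y => u t y i) x - pd i (p t) x
  divFree : ∀ t, 0 ≤ t → ∀ x, ∑ i, pd i (fun y => u t y i) x = 0
  initial : u 0 = v

/-- The Fourier coefficients `∫_{[0,1]³} v_i(x) exp(-2πi k·x) dx`. -/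
noncomputable def fc (v : R3 → R3) (k : Fin 3 → ℤ) (i : Fin 3) : ℂ :=
  ∫ x in Icc (0 : R3) 1,
    (v x i : ℂ) * Complex.exp (-(2 * Real.pi * Complex.I * ∑ j, (k j : ℂ) * (x j : ℂ)))

/-- The dyadic sum `∑_{2^j ≤ |k| < 2^(j+1)} |a(k)|`, with `|k|` the Euclidean norm of `k` and `|a(k)|` the
maximum norm on `ℂ³`. -/
noncomputable def shellSum (a : (Fin 3 → ℤ) → Fin 3 → ℂ) (j : ℕ) : ℝ≥0∞ :=
  ∑' k : Fin 3 → ℤ, if (4 : ℤ) ^ j ≤ ∑ i, k i ^ 2 ∧ ∑ i, k i ^ 2 < (4 : ℤ) ^ (j + 1) then ‖a k‖ₑ else 0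

/-- The norm of the critical Fourier-Besov space `FB^{-1}_{1,r}` (on mean-free fields):
`(∑_j (2^{-j} ∑_{2^j ≤ |k| < 2^(j+1)} |a(k)|)^r)^(1/r)`. -/
noncomputable def critNorm (r : ℝ) (a : (Fin 3 → ℤ) → Fin 3 → ℂ) : ℝ≥0∞ :=
  (∑' j : ℕ, (shellSum a j / 2 ^ j) ^ r) ^ (1 / r)

/-- The trigonometric polynomial with real part of `∑_{k ∈ F} b(k) exp(2πi k·x)`. -/
noncomputable def trig (b : (Fin 3 → ℤ) → Fin 3 → ℂ) (F : Finset (Fin 3 → ℤ)) (x : R3) (i : Fin 3) : ℝ :=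
  (∑ k ∈ F, b k i * Complex.exp (2 * Real.pi * Complex.I * ∑ j, (k j : ℂ) * (x j : ℂ))).re

end Pool.Agent.H356R3.NS
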