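import Pool.Agent.H356R3.NS.Reg3
import Pool.Agent.H356R3.NS.Defs

open MeasureTheory Set Filter Topology
open scoped ENNReal NNReal ContDiff

namespace Pool.Agent.H356R3.NS

/-- Galilean shift of a Fourier series. -/
noncomputable def GS (m : E3) (c : SFam) (t : ℝ) (x : E3) : ℂ := SF c (t, x - t • m)

lemma GS_smooth (m : E3) {c : SFam} (hc : ∀ n, TT n c) :
    ContDiffOn ℝ ∞ (fun z : ℝ × E3 => GS m c z.1 z.2) (Ici 0 ×ˢ univ) := by
  have hA : ContDiff ℝ ∞ fun z : ℝ × E3 => ((z.1, z.2 - z.1 • m) : ℝ × E3) :=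
    contDiff_fst.prodMk (contDiff_snd.sub (contDiff_fst.smul contDiff_const))
  exact (SF_contDiffOn hc).comp hA.contDiffOn fun z hz => ⟨hz.1, mem_univ _⟩

lemma GS_smooth_re (m : E3) {c : SFam} (hc : ∀ n, TT n c) :
    ContDiffOn ℝ ∞ (fun z : ℝ × E3 => (GS m c z.1 z.2).re) (Ici 0 ×ˢ univ) :=
  Complex.reCLM.contDiff.comp_contDiffOn (GS_smooth m hc)

lemma GS_dt (m : E3) {c : SFam} (hc : TT 1 c) {c' : SFam}
    (h1 : ∀ k t, 0 < t → HasDerivAt (c k) (c' k t) t) (hc' : TT 0 c') {t : ℝ} (ht : 0 ≤ t) (x : E3) :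
    HasDerivWithinAt (fun s => GS m c s x) (GS m c' t x + ∑ j, GS m (dS j c) t x * (-(m j) : ℝ)) (Ici 0) t := by
  have hF := SF_hasFDerivWithinAt hc h1 hc' (t, x - t • m)
  have hg : HasDerivWithinAt (fun s : ℝ => ((s, x - s • m) : ℝ × E3)) (1, -m) (Ici 0) t := by
    have h2 : HasDerivAt (fun s : ℝ => x - s • m) (-m) t := by
      have := ((hasDerivAt_id' t).smul_const m).const_sub x
      simpa using this
    exact ((hasDerivAt_id' t).prodMk h2).hasDerivWithinAt
  have hm : MapsTo (fun s : ℝ => ((s, x - s • m) : ℝ × E3)) (Ici 0) Dm := fun s hs => ⟨hs, mem_univ _⟩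
  have h3 := hF.comp_hasDerivWithinAt t hg hm
  refine h3.congr_deriv ?_
  rw [Ph_apply]
  simp only [Complex.ofReal_one, mul_one, Pi.neg_apply]
  rfl

lemma GS_dx (m : E3) {c : SFam} (hc : TT 1 c) {t : ℝ} (ht : 0 ≤ t) (x : E3) :
    HasFDerivAt (fun y => GS m c t y)
      ((Ph 0 fun j => GS m (dS j c) t x).comp (ContinuousLinearMap.inr ℝ ℝ E3)) x := by
  obtain ⟨c', h1, hc'⟩ := hc.2.2
  have hF := SF_hasFDerivWithinAt hc h1 hc' (t, x - t • m)
  have hg : HasFDerivWithinAt (fun y : E3 => ((t, y - t • m) : ℝ × E3)) (ContinuousLinearMap.inr ℝ ℝ E3) univ x := by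
    have h2 : HasFDerivAt (fun y : E3 => y - t • m) (ContinuousLinearMap.id ℝ E3) x :=
      (hasFDerivAt_id x).sub_const _
    exact ((hasFDerivAt_const t x).prodMk h2).hasFDerivWithinAt
  have hm : MapsTo (fun y : E3 => ((t, y - t • m) : ℝ × E3)) univ Dm := fun y _ => ⟨ht, mem_univ _⟩
  have h3 := hF.comp x hg hm
  rw [hasFDerivWithinAt_univ] at h3
  refine h3.congr_fderiv (ContinuousLinearMap.ext fun q => ?_)
  rw [ContinuousLinearMap.comp_apply, ContinuousLinearMap.comp_apply, Ph_apply, Ph_apply]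
  simp
  rfl

lemma pd_GS (m : E3) {c : SFam} (hc : TT 1 c) {t : ℝ} (ht : 0 ≤ t) (a : ℝ) (j : Fin 3) (x : E3) :
    pd j (fun y => a + (GS m c t y).re) x = (GS m (dS j c) t x).re := by
  unfold pd
  have h1 := Complex.reCLM.hasFDerivAt.comp x (GS_dx m hc ht x)
  have h2 : HasFDerivAt (fun y => a + (GS m c t y).re) _ x := h1.const_add a
  rw [h2.fderiv, ContinuousLinearMap.comp_apply, ContinuousLinearMap.comp_apply, Ph_apply]
  simp [Pi.single_apply]

lemma pd_GS' (m : E3) {c : SFam} (hc : TT 1 c) {t : ℝ} (ht : 0 ≤ t) (j : Fin 3) (x : E3) :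
    pd j (fun y => (GS m c t y).re) x = (GS m (dS j c) t x).re := by
  have := pd_GS m hc ht 0 j x
  simpa using this

lemma ex_periodic (k : K) (x : E3) (j : Fin 3) : ex k (x + Pi.single j 1) = ex k x := by
  unfold ex
  have : (2 * Real.pi * Complex.I * ∑ i, (k i : ℂ) * ((x + Pi.single j 1 : E3) i : ℂ))
      = (2 * Real.pi * Complex.I * ∑ i, (k i : ℂ) * (x i : ℂ)) + (k j : ℂ) * (2 * Real.pi * Complex.I) := by
    have h : ∑ i, (k i : ℂ) * ((x + Pi.single j 1 : E3) i : ℂ) = ∑ i, (k i : ℂ) * (x i : ℂ) + (k j : ℂ) := by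
      simp only [Pi.add_apply, Complex.ofReal_add, mul_add, Finset.sum_add_distrib]
      congr 1
      rw [Finset.sum_eq_single j]
      · simp
      · intro b _ hb; simp [hb]
      · simp
    rw [h]; ring
  rw [this, Complex.exp_add, Complex.exp_int_mul_two_pi_mul_I, mul_one]

lemma GS_periodic (m : E3) (c : SFam) (t : ℝ) (x : E3) (j : Fin 3) :
    GS m c t (x + Pi.single j 1) = GS m c t x := by
  unfold GS SF
  refine tsum_congr fun k => ?_
  show c k t * ex k (x + Pi.single j 1 - t • m) = _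
  rw [show x + Pi.single j 1 - t • m = (x - t • m) + Pi.single j 1 by abel, ex_periodic]

theorem sol_physical {ν a : ℝ} (ha : 0 < a) {V : K → C3} (hV : ∀ k, dt k (V k) = 0) {u : Fam}
    (h : Sol (4 * Real.pi ^ 2 * ν) a V u) (m : E3) :
    AdmissiblePeriodic ν (fun x i => m i + (∑' k, V k i * ex k x).re)
      (fun t x i => m i + (GS m (cf' u i) t x).re) (fun t x => (GS m (PF u) t x).re) := by
  have hT : ∀ n i, TT n (cf' u i) := fun n i => sol_TT ha h n i
  have hP : ∀ n, TT n (PF u) := fun n => TT_PF (hT n)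
  have hdT : ∀ n i, TT n (dU (4 * Real.pi ^ 2 * ν) u i) := fun n i => TT_dU (hT n) i
  have hsym : ∀ i k t, cf' u i (-k) t = star (cf' u i k t) := fun i k t => h.sym t k i
  have hdiv := sol_div ha hV h
  have hre : ∀ i t x, (GS m (cf' u i) t x).im = 0 := fun i t x => SF_real (hsym i) _
  refine ⟨?_, ?_, ?_, ?_, ?_, ?_, ?_⟩
  · rw [contDiffOn_pi]
    intro i
    exact contDiffOn_const.add (GS_smooth_re m fun n => hT n i)
  · exact GS_smooth_re m hP
  · intro t _ x j
    funext i
    simp only [GS_periodic]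
  · intro t _ x j
    simp only [GS_periodic]
  · intro t ht x i
    have hd0 : HasDerivWithinAt (fun s => m i + (GS m (cf' u i) s x).re)
        (GS m (dU (4 * Real.pi ^ 2 * ν) u i) t x
          + ∑ j, GS m (dS j (cf' u i)) t x * (-(m j) : ℝ)).re (Ici 0) t := by
      have h1 := GS_dt m (hT 1 i) (fun k t ht => sol_deriv ha h i k ht) (hdT 0 i) ht x
      have h2 := (Complex.reCLM.hasFDerivAt.comp_hasDerivWithinAt t h1).const_add (m i)
      exact h2
    have hd := hd0.derivWithin (uniqueDiffOn_Ici (0 : ℝ) t ht)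
    have e1 : ∀ j, pd j (fun y => m i + (GS m (cf' u i) t y).re) = fun x => (GS m (dS j (cf' u i)) t x).re :=
      fun j => funext fun x => pd_GS m (hT 1 i) ht (m i) j x
    have e2 : ∀ j, pd j (fun x => (GS m (dS j (cf' u i)) t x).re) x = (GS m (dS j (dS j (cf' u i))) t x).re :=
      fun j => pd_GS' m ((hT 1 i).dS j) ht j x
    have e3 : pd i (fun x => (GS m (PF u) t x).re) x = (GS m (dS i (PF u)) t x).re := pd_GS' m (hP 1) ht i x
    rw [hd]
    simp only [e1, e2, e3]
    have key : GS m (dU (4 * Real.pi ^ 2 * ν) u i) t x + ∑ j, GS m (cf' u j) t x * GS m (dS j (cf' u i)) t x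
        = (ν : ℂ) * ∑ j, GS m (dS j (dS j (cf' u i))) t x + (-1) * GS m (dS i (PF u)) t x := by
      have hU : ∀ i, RD (cf' u i) := fun i => (hT 0 i).rd
      have hdS : ∀ j, RD (dS j (cf' u i)) := fun j => ((hT 0 i).dS j).rd
      have hdd : ∀ j, RD (dS j (dS j (cf' u i))) := fun j => (((hT 0 i).dS j).dS j).rd
      have hdP : RD (dS i (PF u)) := ((hP 0).dS i).rd
      have hcv : ∀ j, RD (cvv (cf' u j) (dS j (cf' u i))) := fun j => (hU j).conv (hdS j)
      have hsum1 : RD fun k t => ∑ j, cvv (cf' u j) (dS j (cf' u i)) k t :=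
        (TT.sum (n := 0) Finset.univ fun j _ => (hT 0 j).conv ((hT 0 i).dS j)).rd
      have hsum2 : RD fun k t => ∑ j, dS j (dS j (cf' u i)) k t :=
        (TT.sum (n := 0) Finset.univ fun j _ => ((hT 0 i).dS j).dS j).rd
      have hone : ∀ (z : ℂ) {c : SFam}, RD c → RD fun k t => z * c k t := fun z c hc =>
        hc.mul (C := ‖z‖) (r := 0) (p := fun _ => z) fun k => by simp
      unfold GS
      have m1 : ∀ j, SF (cf' u j) (t, x - t • m) * SF (dS j (cf' u i)) (t, x - t • m)
          = SF (cvv (cf' u j) (dS j (cf' u i))) (t, x - t • m) := fun j => SF_mul (hU j) (hdS j) _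
      simp only [m1]
      rw [← SF_sum hcv, ← SF_sum hdd, ← SF_const_mul, ← SF_const_mul, ← SF_add (hdT 0 i).rd hsum1,
        ← SF_add (hone _ hsum2) (hone _ hdP)]
      congr 1
      funext k t
      exact fourier_eq hU hdiv i k t
    have keyre := congrArg Complex.re key
    simp only [Complex.add_re, Complex.re_sum, Complex.mul_re, hre, Complex.ofReal_re, Complex.ofReal_im,
      Complex.neg_re, Complex.one_re, Complex.neg_im, Complex.one_im] at keyre ⊢
    have e4 : ∑ j, (m j + (GS m (cf' u j) t x).re) * (GS m (dS j (cf' u i)) t x).re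
        = ∑ j, m j * (GS m (dS j (cf' u i)) t x).re
          + ∑ j, (GS m (cf' u j) t x).re * (GS m (dS j (cf' u i)) t x).re := by
      rw [← Finset.sum_add_distrib]; exact Finset.sum_congr rfl fun j _ => by ring
    have e5 : ∑ j, ((GS m (dS j (cf' u i)) t x).re * -m j - (GS m (dS j (cf' u i)) t x).im * 0)
        = -∑ j, m j * (GS m (dS j (cf' u i)) t x).re := by
      rw [← Finset.sum_neg_distrib]; exact Finset.sum_congr rfl fun j _ => by ring
    rw [e4, e5]
    simp only [zero_mul, sub_zero, neg_zero] at keyre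
    linarith
  · intro t ht x
    have e1 : ∀ i, pd i (fun y => m i + (GS m (cf' u i) t y).re) x = (GS m (dS i (cf' u i)) t x).re :=
      fun i => pd_GS m (hT 1 i) ht (m i) i x
    simp only [e1]
    rw [← Complex.re_sum]
    have : ∑ i, GS m (dS i (cf' u i)) t x = 0 := by
      unfold GS
      rw [← SF_sum fun i => ((hT 0 i).dS i).rd]
      have h0 : (fun k t => ∑ j, dS j (cf' u j) k t) = fun _ _ => (0 : ℂ) := by
        funext k t
        have := hdiv k t
        unfold dt at this
        unfold dS fj cf'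
        calc ∑ j, 2 * Real.pi * Complex.I * (k j : ℂ) * u k t j
            = 2 * Real.pi * Complex.I * ∑ j, (k j : ℂ) * u k t j := by
              rw [Finset.mul_sum]; exact Finset.sum_congr rfl fun j _ => by ring
          _ = 0 := by rw [this, mul_zero]
      rw [h0]
      simp [SF]
    rw [this]; rfl
  · funext x i
    have h0 : ∀ k, u k 0 = V k := by
      intro k
      rw [h.eq k 0, Duh_at_zero]
      simp
    show m i + (GS m (cf' u i) 0 x).re = m i + (∑' k, V k i * ex k x).re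
    unfold GS SF
    simp only [zero_smul, sub_zero, cf', h0]

end Pool.Agent.H356R3.NS
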