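import Pool.Agent.H356R3.NS.Small
import Pool.Agent.H356R3.NS.Reg4

open MeasureTheory Set Filter Topology
open scoped ENNReal NNReal

namespace Pool.Agent.H356R3.NS

lemma NW_Wa_zero (x : K → C3) : NW (Wa 0) x = ∑' k, ‖x k‖ₑ := by
  unfold NW Wa om
  refine tsum_congr fun k => ?_
  simp

lemma Sol.dom' {c a : ℝ} (ha : 0 < a) {V : K → C3} {u : Fam} (h : Sol c a V u) : Dom u := by
  obtain ⟨b, hb, hb'⟩ := h.dom
  have hb0 : ∀ k, 0 ≤ b k := fun k => (norm_nonneg _).trans (hb' k 0)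
  refine ⟨b, hb.of_nonneg_of_le hb0 fun k => ?_, hb'⟩
  calc b k = 1 * b k := (one_mul _).symm
    _ ≤ _ := mul_le_mul_of_nonneg_right (one_le_om ha.le k) (hb0 k)

/-- Solutions which are small in `L²((dl, ∞); ℓ¹)` are small for `t ≥ 2 dl`. -/
lemma late {c : ℝ} (hc : 0 < c) {dl : ℝ} (hdl : 0 < dl) {ε : ℝ} (hε : 0 < ε) :
    ∃ ε' : ℝ, 0 < ε' ∧ ∀ (a : ℝ), 0 < a → ∀ (V : K → C3) (u : Fam), Sol c a V u →
      LNd dl u ≤ ENNReal.ofReal ε' → ∀ t, 2 * dl ≤ t → An u t ≤ ε := by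
  have hC := C0_pos
  set Kc := ∫ τ in Ioi 0, kap c τ
  have hKc : 0 ≤ Kc := setIntegral_nonneg measurableSet_Ioi fun τ hτ => kap_nonneg hc (le_of_lt hτ)
  set α := min (ε / 2) (1 / (8 * (C0 * Kc + 1)))
  have hα : 0 < α := lt_min (by positivity) (by positivity)
  have hα1 : α ≤ ε / 2 := min_le_left _ _
  have hα2 : 4 * (C0 * Kc) * α < 1 := by
    have h1 : α ≤ 1 / (8 * (C0 * Kc + 1)) := min_le_right _ _
    rw [le_div_iff₀ (by positivity)] at h1
    nlinarith [mul_nonneg hC.le hKc]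
  have hsd : 0 < Real.sqrt dl := Real.sqrt_pos.2 hdl
  refine ⟨α * Real.sqrt dl / 2, by positivity, fun a ha V u hu hL t ht => ?_⟩
  have hd : Dom u := hu.dom' ha
  obtain ⟨t0, ht0, hA⟩ : ∃ t0 ∈ Ioo dl (2 * dl), An u t0 ≤ α := by
    by_contra hcon
    push Not at hcon
    have h1 : ENNReal.ofReal (α * Real.sqrt dl) ≤ LNd dl u := by
      unfold LNd LN
      have h2 : ENNReal.ofReal (α ^ 2 * dl) ≤
          ∫⁻ t in Ioi 0, ((Ioi dl).indicator (fun t => NW (Wa 0) (at' u t)) t) ^ (2 : ℝ) := by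
        calc ENNReal.ofReal (α ^ 2 * dl) = ∫⁻ t in Ioo dl (2 * dl), ENNReal.ofReal (α ^ 2) := by
              rw [setLIntegral_const, Real.volume_Ioo, ← ENNReal.ofReal_mul (by positivity)]
              congr 1; ring
          _ ≤ ∫⁻ t in Ioo dl (2 * dl), ((Ioi dl).indicator (fun t => NW (Wa 0) (at' u t)) t) ^ (2 : ℝ) := by
              refine setLIntegral_mono' measurableSet_Ioo fun t ht => ?_
              rw [indicator_of_mem (show t ∈ Ioi dl from ht.1), NW_Wa_zero]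
              show _ ≤ (∑' k, ‖u k t‖ₑ) ^ (2 : ℝ)
              rw [An_eq hd, ENNReal.rpow_two, ← ENNReal.ofReal_pow (An_nonneg u t)]
              apply ENNReal.ofReal_le_ofReal
              exact pow_le_pow_left₀ hα.le (hcon t ht).le 2
          _ ≤ _ := lintegral_mono_set fun t ht => by
              have := ht.1
              simp only [mem_Ioi]; linarith
      calc ENNReal.ofReal (α * Real.sqrt dl) = (ENNReal.ofReal (α ^ 2 * dl)) ^ (1 / 2 : ℝ) := by
            rw [ENNReal.ofReal_rpow_of_nonneg (by positivity) (by norm_num), ← Real.sqrt_eq_rpow,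
              Real.sqrt_mul (by positivity), Real.sqrt_sq hα.le]
        _ ≤ _ := ENNReal.rpow_le_rpow h2 (by norm_num)
    have h3 := h1.trans hL
    rw [ENNReal.ofReal_le_ofReal_iff (by positivity)] at h3
    have : 0 < α * Real.sqrt dl := by positivity
    linarith
  have := An_stays hc hu.cf hd hu (by linarith [ht0.1]) hα hA hα2 (by linarith [ht0.2] : t0 ≤ t)
  linarith

lemma GS_le {u : Fam} (hd : Dom u) (m : E3) (i : Fin 3) (t : ℝ) (x : E3) :
    |(GS m (cf' u i) t x).re| ≤ An u t := by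
  have hs : Summable fun k => ‖u k t‖ := hd.sn t
  refine (Complex.abs_re_le_norm _).trans ?_
  unfold GS SF An
  have h1 : ∀ k, ‖cf' u i k t * ex k (x - t • m)‖ ≤ ‖u k t‖ := by
    intro k
    rw [norm_mul, norm_ex, mul_one]
    exact norm_le_pi_norm _ i
  exact tsum_of_norm_bounded hs.hasSum h1

end Pool.Agent.H356R3.NS
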