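import Pool.Agent.H356R3.NS.Dens3

open MeasureTheory Set Filter Topology
open scoped ENNReal NNReal

namespace Pool.Agent.H356R3.NS

lemma dt_smul' (k : K) (s : ℂ) (v : C3) : dt k (s • v) = s * dt k v := by
  unfold dt
  rw [Finset.mul_sum]
  exact Finset.sum_congr rfl fun i _ => by simp; ring

theorem nearE_target {c r dl : ℝ} (hc : 0 < c) (hr : 2 < r) (hdl : 0 < dl) (K0 : ℕ) {V0 : K → C3}
    (hfin : (Function.support V0).Finite) (h0 : V0 0 = 0) (hdiv : ∀ k, dt k (V0 k) = 0)
    (hsym : Sym V0) : ∀ ε : ℝ, 0 < ε → ∃ W, NearM c r dl K0 ε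
      (∑ q ∈ hfin.toFinset, 128 * c / Real.pi * (1 / nk q * ‖V0 q‖)) V0 W := by
  classical
  have hpi := Real.pi_pos
  have hP : ∀ q : K, ∃ (d : K) (γ1 γ2 : ℂ), q ≠ 0 → d ≠ 0 ∧ ip q d = 0 ∧
      (1 / 2 : ℂ) • V0 q = γ1 • cK d + γ2 • cK (crs q d) := by
    intro q
    by_cases hq : q = 0
    · exact ⟨0, 0, 0, fun h => absurd hq h⟩
    · obtain ⟨d, hd, hqd⟩ := exists_perp hq
      have hv : dt q ((1 / 2 : ℂ) • V0 q) = 0 := by rw [dt_smul', hdiv, mul_zero]
      obtain ⟨γ1, γ2, h⟩ := decomp hq hd hqd hv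
      exact ⟨d, γ1, γ2, fun _ => ⟨hd, hqd, h⟩⟩
  choose d γ1 γ2 hP using hP
  set P : K → K → C3 := fun q => E0 q (d q) (γ1 q) + E0 q (crs q (d q)) (γ2 q)
  have hnear : ∀ T : Finset K, (∀ q ∈ T, q ≠ 0) → ∀ ε : ℝ, 0 < ε → ∃ W, NearM c r dl K0 ε
      (∑ q ∈ T, 128 * c / Real.pi * (1 / nk q * ‖V0 q‖)) (∑ q ∈ T, P q) W := by
    intro T
    induction T using Finset.induction_on with
    | empty =>
      intro _ ε _
      rw [Finset.sum_empty, Finset.sum_empty]
      exact ⟨0, ⟨⟨by simp, fun _ _ => rfl, by rw [crit_zero (by linarith)]; exact zero_le,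
        fun k => by simp [dt], fun k i => by simp, by rw [add_zero]; exact good_zero c dl ε⟩,
        by rw [crit_zero (by norm_num)]; exact zero_le⟩⟩
    | insert q T hqT ih =>
      intro hT
      have hq := hT q (Finset.mem_insert_self _ _)
      have hnq := nk_pos' hq
      have ih' := ih fun q' h' => hT q' (Finset.mem_insert_of_mem h')
      obtain ⟨hd, hqd, hdec⟩ := hP q hq
      have g1 := geo_crs hq hd hqd
      have hqc : ip q (crs q (d q)) = 0 := by rw [ip_comm]; exact g1.ηq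
      have g2 := geo_crs hq g1.hη hqc
      have hM0 : 0 ≤ ∑ q ∈ T, 128 * c / Real.pi * (1 / nk q * ‖V0 q‖) :=
        Finset.sum_nonneg fun q _ => by
          have := nk_nonneg q
          positivity
      -- the sizes of the coefficients
      have hn : ‖(1 / 2 : ℂ) • V0 q‖ = ‖V0 q‖ / 2 := by
        rw [norm_smul]; norm_num; ring
      have c1 : ‖γ1 q‖ * ‖cK (d q)‖ ≤ 2 * (‖V0 q‖ / 2) := by
        rw [← hn]
        apply coef_le hd
        rw [hdec, dt_add, dt_smul, dt_smul, ip_comm (d q) (crs q (d q)), g1.ηc]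
        simp
      have c2 : ‖γ2 q‖ * ‖cK (crs q (d q))‖ ≤ 2 * (‖V0 q‖ / 2) := by
        rw [← hn]
        apply coef_le g1.hη
        rw [hdec, dt_add, dt_smul, dt_smul, g1.ηc]
        simp
      rw [Finset.sum_insert hqT, Finset.sum_insert hqT]
      have b : ∀ {x : ℝ}, x ≤ 2 * (‖V0 q‖ / 2) →
          64 * c / (Real.pi * nk q) * x ≤ 64 * c / (Real.pi * nk q) * ‖V0 q‖ := by
        intro x hx
        apply mul_le_mul_of_nonneg_left _ (by positivity)
        linarith
      have h1 := nearE_add hc hr hdl hM0 ih' g1 (γ1 q) (b c1)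
      have h2 := nearE_add hc hr hdl (by positivity) h1 g2 (γ2 q) (b c2)
      have e : P q + ∑ x ∈ T, P x = ∑ x ∈ T, P x + E0 q (d q) (γ1 q) + E0 q (crs q (d q)) (γ2 q) := by
        simp only [P]; abel
      have e' : 128 * c / Real.pi * (1 / nk q * ‖V0 q‖) + ∑ q ∈ T, 128 * c / Real.pi * (1 / nk q * ‖V0 q‖)
          = ∑ q ∈ T, 128 * c / Real.pi * (1 / nk q * ‖V0 q‖) + 64 * c / (Real.pi * nk q) * ‖V0 q‖
            + 64 * c / (Real.pi * nk q) * ‖V0 q‖ := by
        generalize ∑ q ∈ T, 128 * c / Real.pi * (1 / nk q * ‖V0 q‖) = S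
        field_simp
        ring
      rw [e, e']
      exact h2
  set S := hfin.toFinset
  have hS0 : ∀ q ∈ S, q ≠ 0 := by
    intro q hq h
    rw [Set.Finite.mem_toFinset, Function.mem_support, h] at hq
    exact hq h0
  have hPq : ∀ q, q ≠ 0 → P q = Sg q ((1 / 2 : ℂ) • V0 q) + Sg (-q) ((1 / 2 : ℂ) • V0 (-q)) := by
    intro q hq
    obtain ⟨-, -, h⟩ := hP q hq
    have h' : (1 / 2 : ℂ) • V0 (-q) = star (γ1 q) • cK (d q) + star (γ2 q) • cK (crs q (d q)) := by
      funext i
      have h1 := congrFun h i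
      simp only [Pi.smul_apply, Pi.add_apply, smul_eq_mul] at h1 ⊢
      rw [hsym q i]
      have h2 := congrArg star h1
      simp only [star_mul', star_add] at h2
      have h3 : star (1 / 2 : ℂ) = 1 / 2 := by simp
      have h4 : ∀ l : K, star (cK l i) = cK l i := by intro l; simp [cK]
      rw [h3, h4, h4] at h2
      exact h2
    simp only [P]
    rw [h, h', Sg_add, Sg_add]
    unfold E0
    abel
  have hsum : ∑ q ∈ S, P q = V0 := by
    rw [Finset.sum_congr rfl fun q hq => hPq q (hS0 q hq), Finset.sum_add_distrib]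
    funext k
    rw [Pi.add_apply, Finset.sum_apply, Finset.sum_apply]
    have mem : ∀ k, k ∉ S → V0 k = 0 := by
      intro k hk
      by_contra h
      exact hk (by rw [Set.Finite.mem_toFinset]; exact h)
    have h1 : ∑ q ∈ S, Sg q ((1 / 2 : ℂ) • V0 q) k = (1 / 2 : ℂ) • V0 k := by
      unfold Sg
      rw [Finset.sum_ite_eq]
      split_ifs with h
      · rfl
      · rw [mem k h, smul_zero]
    have h2 : ∑ q ∈ S, Sg (-q) ((1 / 2 : ℂ) • V0 (-q)) k = (1 / 2 : ℂ) • V0 k := by
      unfold Sg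
      have e : ∀ q, (if k = -q then (1 / 2 : ℂ) • V0 (-q) else 0)
          = if -k = q then (1 / 2 : ℂ) • V0 k else 0 := by
        intro q
        by_cases h : k = -q
        · rw [if_pos h, if_pos (by rw [h, neg_neg]), h]
        · rw [if_neg h, if_neg (fun h' => h (by rw [← h', neg_neg]))]
      simp only [e]
      rw [Finset.sum_ite_eq]
      split_ifs with h
      · rfl
      · have h3 := mem _ h
        have h4 : V0 k = 0 := by
          funext i
          have := hsym k i
          rw [h3] at this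
          simp only [Pi.zero_apply] at this ⊢
          exact (star_eq_zero.1 this.symm)
        rw [h4, smul_zero]
    rw [h1, h2, ← add_smul]
    norm_num
  intro ε hε
  have := hnear S hS0 ε hε
  rwa [hsum] at this

end Pool.Agent.H356R3.NS
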