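import Pool.Agent.H356R3.NS.Core
import Pool.Agent.H356R3.NS.Dens4

open MeasureTheory Set Filter Topology
open scoped ENNReal NNReal ContDiff

namespace Pool.Agent.H356R3.NS

theorem core2 {ν r : ℝ} (hν : 0 < ν) (hr : 2 < r) {a : K → C3} (hsym : Sym a)
    (hdiv : ∀ k, dt k (a k) = 0) (hfin : crit r a ≠ ⊤) (hfin2 : crit 2 a ≠ ⊤) (K0 : ℕ) {ε δ : ℝ} (hε : 0 < ε) (hδ1 : 0 < δ) :
    ∃ b : K → C3, (Function.support b).Finite ∧ Sym b ∧ (∀ k, dt k (b k) = 0) ∧
      (∀ k : K, (∀ i, |k i| ≤ K0) → b k = a k) ∧ crit r (fun k => b k - a k) ≤ ENNReal.ofReal ε ∧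
      crit 2 (fun k => b k - a k) ≤ ENNReal.ofReal (1024 * Real.pi * ν) *
        ∑' k, ENNReal.ofReal (1 / nk k) * ‖a k‖ₑ + ENNReal.ofReal ε ∧
      ∃ u p, AdmissiblePeriodic ν (fun x i => (∑' k, b k i * ex k x).re) u p ∧
        ∀ t, δ ≤ t → ∀ x i, |u t x i - (a 0 i).re| ≤ δ := by
  classical
  have hc : 0 < 4 * Real.pi ^ 2 * ν := by positivity
  obtain ⟨ε', hε', hlate⟩ := late hc (half_pos hδ1) hδ1
  -- choose the cut-off
  have hδ : 0 < ε / 2 ^ r := by positivity
  have hδ2 : 0 < ε / 2 := half_pos hε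
  obtain ⟨J1, hJ1⟩ := crit_tail (by linarith : 0 < r) hfin (ENNReal.ofReal_pos.2 hδ)
  obtain ⟨J2, hJ2⟩ := crit_tail (by norm_num : (0 : ℝ) < 2) hfin2 (ENNReal.ofReal_pos.2 hδ2)
  set J := max J1 J2
  have p1 : (4 : ℝ) ^ J1 ≤ 4 ^ J := pow_le_pow_right₀ (by norm_num) (le_max_left _ _)
  have p2 : (4 : ℝ) ^ J2 ≤ 4 ^ J := pow_le_pow_right₀ (by norm_num) (le_max_right _ _)
  obtain ⟨M, hM, hMJ⟩ : ∃ M : ℕ, K0 ≤ M ∧ 2 ^ J ≤ M := ⟨max K0 (2 ^ J), le_max_left _ _, le_max_right _ _⟩
  have hMJ' : ((2 : ℝ) ^ J) ≤ M := by exact_mod_cast hMJ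
  have hsmall : ∀ k : K, sq k < 4 ^ J → k ∈ bx M := by
    intro k hk
    rw [mem_bx]
    intro i
    by_contra h
    push Not at h
    have h1 : (M : ℝ) < |(k i : ℝ)| := by exact_mod_cast h
    have h2 : (k i : ℝ) ^ 2 ≤ sq k := Finset.single_le_sum (f := fun i => (k i : ℝ) ^ 2)
      (fun i _ => sq_nonneg _) (Finset.mem_univ i)
    have h3 : (4 : ℝ) ^ J ≤ (k i : ℝ) ^ 2 := by
      rw [← sq_abs (k i : ℝ)]
      calc (4 : ℝ) ^ J = (2 ^ J) ^ 2 := by rw [← pow_mul, mul_comm, pow_mul]; norm_num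
        _ ≤ _ := pow_le_pow_left₀ (by positivity) (hMJ'.trans h1.le) 2
    linarith
  -- the low modes
  set V0 : K → C3 := fun k => if k ≠ 0 ∧ k ∈ bx M then a k else 0 with hV0
  have hV0fin : (Function.support V0).Finite := by
    refine (bx M).finite_toSet.subset fun k hk => ?_
    by_contra h
    apply hk
    have : k ∉ bx M := h
    simp only [hV0]
    rw [if_neg (fun h' => this h'.2)]
  have hV00 : V0 0 = 0 := by simp [hV0]
  have hV0div : ∀ k, dt k (V0 k) = 0 := by
    intro k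
    simp only [hV0]
    split_ifs
    · exact hdiv k
    · simp [dt]
  have hbneg : ∀ k : K, -k ∈ bx M ↔ k ∈ bx M := by
    intro k; simp only [mem_bx, Pi.neg_apply, abs_neg]
  have hV0sym : Sym V0 := by
    intro k i
    simp only [hV0]
    by_cases h : k ≠ 0 ∧ k ∈ bx M
    · rw [if_pos h, if_pos ⟨neg_ne_zero.2 h.1, (hbneg k).2 h.2⟩]
      exact hsym k i
    · rw [if_neg h, if_neg (fun h' => h ⟨neg_ne_zero.1 h'.1, (hbneg k).1 h'.2⟩)]
      simp
  obtain ⟨W, ⟨hW, hW2⟩⟩ := nearE_target hc hr (half_pos hδ1) M hV0fin hV00 hV0div hV0sym (min (ε / 2 ^ r) ε')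
    (lt_min hδ hε')
  have hWsmall : crit r W ≤ ENNReal.ofReal (ε / 2 ^ r) :=
    hW.small.trans (ENNReal.ofReal_le_ofReal (min_le_left _ _))
  obtain ⟨ρ, hρ, u, hu, hLd⟩ := hW.good
  have hAn := hlate ρ hρ _ u hu (hLd.trans (ENNReal.ofReal_le_ofReal (min_le_right _ _)))
  set b : K → C3 := fun k => if k = 0 then a 0 else V0 k + W k with hb
  have hW0 : ∀ k ∈ bx M, W k = 0 := fun k hk => hW.cut k (mem_bx.1 hk)
  have h0M : (0 : K) ∈ bx M := by rw [mem_bx]; intro i; simp
  have hbM : ∀ k ∈ bx M, b k = a k := by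
    intro k hk
    simp only [hb]
    split_ifs with h
    · rw [h]
    · rw [hW0 k hk, add_zero]
      simp only [hV0]
      rw [if_pos ⟨h, hk⟩]
  have hbM' : ∀ k, k ∉ bx M → b k = W k := by
    intro k hk
    simp only [hb]
    rw [if_neg (fun h => hk (by rw [h]; exact h0M))]
    simp only [hV0]
    rw [if_neg (fun h => hk h.2), zero_add]
  have hreal : ∀ i, (((a 0 i).re : ℝ) : ℂ) = a 0 i := by
    intro i
    have := hsym 0 i
    rw [neg_zero, Complex.star_def] at this
    exact Complex.conj_eq_iff_re.1 this.symm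
  set T : K → C3 := fun k => if k ∈ bx M then 0 else a k with hT
  have hT0 : ∀ k, T k = a k ∨ T k = 0 := by
    intro k
    simp only [hT]
    split_ifs
    · exact Or.inr rfl
    · exact Or.inl rfl
  have hT00 : ∀ k, sq k < 4 ^ J → T k = 0 := by
    intro k hk
    simp only [hT]
    rw [if_pos (hsmall k hk)]
  have hT1 : crit r T < ENNReal.ofReal (ε / 2 ^ r) := hJ1 T hT0 fun k hk => hT00 k (hk.trans_le p1)
  have hT2 : crit 2 T < ENNReal.ofReal (ε / 2) := hJ2 T hT0 fun k hk => hT00 k (hk.trans_le p2)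
  have eWT : (fun k => b k - a k) = fun k => W k - T k := by
    funext k
    by_cases h : k ∈ bx M
    · rw [hbM k h, hW0 k h]; simp only [hT]; rw [if_pos h]; simp
    · rw [hbM' k h]; simp only [hT]; rw [if_neg h]
  refine ⟨b, ?_, ?_, ?_, ?_, ?_, ?_, ?_⟩
  · refine ((bx M).finite_toSet.union hW.fin).subset fun k hk => ?_
    by_cases h : k ∈ bx M
    · exact Or.inl h
    · refine Or.inr ?_
      rw [Function.mem_support, hbM' k h] at hk
      exact hk
  · intro k i
    by_cases h : k ∈ bx M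
    · rw [hbM k h, hbM _ ((hbneg k).2 h)]
      exact hsym k i
    · rw [hbM' k h, hbM' _ (fun h' => h ((hbneg k).1 h'))]
      exact hW.sym k i
  · intro k
    by_cases h : k ∈ bx M
    · rw [hbM k h]; exact hdiv k
    · rw [hbM' k h]; exact hW.div k
  · intro k hk
    exact hbM k (mem_bx.2 fun i => (hk i).trans (by exact_mod_cast hM))
  · -- the distance
    rw [eWT]
    refine (crit_sub_le (by linarith : (1 : ℝ) ≤ r) W T).trans ?_
    calc (2 : ℝ≥0∞) ^ (r - 1) * (crit r W + crit r T)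
        ≤ 2 ^ (r - 1) * (ENNReal.ofReal (ε / 2 ^ r) + ENNReal.ofReal (ε / 2 ^ r)) :=
          mul_le_mul' le_rfl (add_le_add hWsmall hT1.le)
      _ = ENNReal.ofReal (2 ^ (r - 1) * (ε / 2 ^ r + ε / 2 ^ r)) := by
          rw [ENNReal.ofReal_mul (by positivity), ENNReal.ofReal_add hδ.le hδ.le,
            ← ENNReal.ofReal_rpow_of_nonneg (by norm_num) (by linarith)]
          simp
      _ ≤ _ := by
          apply ENNReal.ofReal_le_ofReal
          have : (2 : ℝ) ^ r = 2 ^ (r - 1) * 2 := by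
            rw [← Real.rpow_add_one (by norm_num)]; congr 1; ring
          rw [this]
          have h2 : (0 : ℝ) < 2 ^ (r - 1) := by positivity
          apply le_of_eq
          field_simp
          norm_num
  · rw [eWT]
    refine (crit_sub_le (by norm_num : (1 : ℝ) ≤ 2) W T).trans ?_
    have hL : ENNReal.ofReal (∑ q ∈ hV0fin.toFinset, 128 * (4 * Real.pi ^ 2 * ν) / Real.pi * (1 / nk q * ‖V0 q‖))
        ≤ ENNReal.ofReal (512 * Real.pi * ν) * ∑' k, ENNReal.ofReal (1 / nk k) * ‖a k‖ₑ := by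
      have hpi := Real.pi_pos
      rw [← Finset.mul_sum, show 128 * (4 * Real.pi ^ 2 * ν) / Real.pi = 512 * Real.pi * ν by
        field_simp; ring, ENNReal.ofReal_mul (by positivity)]
      apply mul_le_mul' le_rfl
      rw [ENNReal.ofReal_sum_of_nonneg fun q _ => mul_nonneg (one_div_nonneg.2 (nk_nonneg q)) (norm_nonneg _)]
      refine le_trans (Finset.sum_le_sum fun q _ => ?_) (ENNReal.sum_le_tsum hV0fin.toFinset)
      rw [ENNReal.ofReal_mul (one_div_nonneg.2 (nk_nonneg q))]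
      apply mul_le_mul' le_rfl
      rw [ofReal_norm]
      simp only [hV0]
      split_ifs
      · exact le_rfl
      · simp
    have hexp : (2 : ℝ≥0∞) ^ ((2 : ℝ) - 1) = 2 := by norm_num
    rw [hexp]
    calc (2 : ℝ≥0∞) * (crit 2 W + crit 2 T)
        ≤ 2 * (ENNReal.ofReal (512 * Real.pi * ν) * ∑' k, ENNReal.ofReal (1 / nk k) * ‖a k‖ₑ
          + ENNReal.ofReal (ε / 2)) := mul_le_mul' le_rfl (add_le_add (hW2.trans hL) hT2.le)
      _ = _ := by
          rw [mul_add, ← mul_assoc, show (2 : ℝ≥0∞) = ENNReal.ofReal 2 by simp,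
            ← ENNReal.ofReal_mul (by norm_num), ← ENNReal.ofReal_mul (by norm_num)]
          congr 3
          · ring
          · ring
  · have hVdiv : ∀ k, dt k ((V0 + W) k) = 0 := by
      intro k; rw [Pi.add_apply, dt_add, hV0div, hW.div, add_zero]
    have hphys := sol_physical hρ hVdiv hu (fun i => (a 0 i).re)
    suffices hv : (fun (x : E3) i => (∑' k, b k i * ex k x).re)
        = fun x i => (a 0 i).re + (∑' k, (V0 + W) k i * ex k x).re by
      rw [hv]
      refine ⟨_, _, hphys, fun t ht x i => ?_⟩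
      have h1 := GS_le (hu.dom' hρ) (fun i => (a 0 i).re) i t x
      have h2 := hAn t (by linarith)
      rw [add_sub_cancel_left]
      exact h1.trans h2
    funext x i
    have hVfin : (Function.support (V0 + W)).Finite :=
      (hV0fin.union hW.fin).subset (Function.support_add V0 W)
    have hs1 : Summable fun k => (V0 + W) k i * ex k x := by
      refine summable_of_ne_finset_zero (s := hVfin.toFinset) fun k hk => ?_
      have : (V0 + W) k = 0 := by
        by_contra h
        exact hk (by rw [Set.Finite.mem_toFinset]; exact h)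
      rw [this]; simp
    have hs2 : Summable fun k : K => (if k = 0 then a 0 i else 0) := by
      refine summable_of_ne_finset_zero (s := {0}) fun k hk => ?_
      rw [if_neg (by simpa using hk)]
    have e3 : ∀ k, b k i * ex k x = (if k = 0 then a 0 i else 0) + (V0 + W) k i * ex k x := by
      intro k
      by_cases h : k = 0
      · subst h
        have e0 : (V0 + W) 0 = 0 := by rw [Pi.add_apply, hV00, hW0 0 h0M, add_zero]
        rw [e0]
        simp [hb, ex]
      · simp [hb, h]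
    simp only [e3]
    rw [hs2.tsum_add hs1, Complex.add_re]
    congr 1
    rw [tsum_ite_eq]

end Pool.Agent.H356R3.NS
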