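import Pool.Agent.H356R3.NS.Basic2

open MeasureTheory Set Filter Topology
open scoped ENNReal NNReal

namespace Pool.Agent.H356R3.NS

/-- sum over the dyadic shell `2^j ≤ |k| < 2^{j+1}` -/
noncomputable def shell (j : ℕ) (f : K → ℝ≥0∞) : ℝ≥0∞ :=
  ∑' k, if (4 : ℝ) ^ j ≤ sq k ∧ sq k < 4 ^ (j + 1) then f k else 0

/-- `r`-th power of the norm of `FB^{-1}_{1,r}` -/
noncomputable def crit (r : ℝ) (a : K → C3) : ℝ≥0∞ :=
  ∑' j : ℕ, (shell j (fun k => ‖a k‖ₑ) / 2 ^ j) ^ r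

lemma shell_mono (j : ℕ) {f g : K → ℝ≥0∞} (h : ∀ k, (4 : ℝ) ^ j ≤ sq k → sq k < 4 ^ (j + 1) → f k ≤ g k) :
    shell j f ≤ shell j g := by
  unfold shell
  refine ENNReal.tsum_le_tsum fun k => ?_
  split_ifs with h1
  · exact h k h1.1 h1.2
  · exact le_rfl

lemma shell_zero (j : ℕ) {f : K → ℝ≥0∞} (h : ∀ k, (4 : ℝ) ^ j ≤ sq k → sq k < 4 ^ (j + 1) → f k = 0) :
    shell j f = 0 := by
  unfold shell
  rw [ENNReal.tsum_eq_zero]
  intro k
  split_ifs with h1
  · exact h k h1.1 h1.2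
  · rfl

lemma shell_add (j : ℕ) (f g : K → ℝ≥0∞) : shell j (fun k => f k + g k) = shell j f + shell j g := by
  unfold shell
  rw [← ENNReal.tsum_add]
  refine tsum_congr fun k => ?_
  split_ifs <;> simp

lemma tsum_shell_le (f : K → ℝ≥0∞) : ∑' j, shell j f ≤ ∑' k, f k := by
  unfold shell
  rw [ENNReal.tsum_comm]
  refine ENNReal.tsum_le_tsum fun k => ?_
  by_cases h : ∃ j : ℕ, (4 : ℝ) ^ j ≤ sq k ∧ sq k < 4 ^ (j + 1)
  · obtain ⟨j, hj⟩ := h
    have : ∀ j' : ℕ, j' ≠ j → (if (4 : ℝ) ^ j' ≤ sq k ∧ sq k < 4 ^ (j' + 1) then f k else 0) = 0 := by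
      intro j' hj'
      rw [if_neg]
      rintro ⟨h1, h2⟩
      rcases lt_or_gt_of_ne hj' with h | h
      · have : (4 : ℝ) ^ (j' + 1) ≤ 4 ^ j := pow_le_pow_right₀ (by norm_num) h
        linarith [hj.1]
      · have : (4 : ℝ) ^ (j + 1) ≤ 4 ^ j' := pow_le_pow_right₀ (by norm_num) h
        linarith [hj.2]
    rw [tsum_eq_single j this]
    split_ifs <;> simp
  · have : ∀ j : ℕ, (if (4 : ℝ) ^ j ≤ sq k ∧ sq k < 4 ^ (j + 1) then f k else 0) = 0 :=
      fun j => if_neg fun h' => h ⟨j, h'⟩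
    simp [this]

lemma tsum_rpow_le {ι : Type*} {r : ℝ} (hr : 1 ≤ r) (f : ι → ℝ≥0∞) : ∑' j, f j ^ r ≤ (∑' j, f j) ^ r := by
  classical
  rw [ENNReal.tsum_eq_iSup_sum]
  refine iSup_le fun s => ?_
  refine le_trans ?_ (ENNReal.rpow_le_rpow (ENNReal.sum_le_tsum s) (by linarith))
  induction s using Finset.induction_on with
  | empty => simp
  | insert a s ha ih =>
    rw [Finset.sum_insert ha, Finset.sum_insert ha]
    exact (add_le_add le_rfl ih).trans (ENNReal.add_rpow_le_rpow_add _ _ hr)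

/-- the critical norm is controlled by the Lei-Lin norm -/
lemma crit_le {r : ℝ} (hr : 1 ≤ r) (a : K → C3) :
    crit r a ≤ (2 * ∑' k, ENNReal.ofReal (1 / nk k) * ‖a k‖ₑ) ^ r := by
  unfold crit
  refine (tsum_rpow_le hr _).trans (ENNReal.rpow_le_rpow ?_ (by linarith))
  rw [← ENNReal.tsum_mul_left]
  refine le_trans (ENNReal.tsum_le_tsum fun j => ?_)
    (tsum_shell_le fun k => 2 * (ENNReal.ofReal (1 / nk k) * ‖a k‖ₑ))
  unfold shell
  rw [div_eq_mul_inv, ← ENNReal.tsum_mul_right]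
  refine ENNReal.tsum_le_tsum fun k => ?_
  split_ifs with h
  · show ‖a k‖ₑ * (2 ^ j)⁻¹ ≤ 2 * (ENNReal.ofReal (1 / nk k) * ‖a k‖ₑ)
    rw [← mul_assoc, mul_comm ‖a k‖ₑ]
    apply mul_le_mul' _ le_rfl
    have hk : nk k < 2 ^ (j + 1) := by
      unfold nk
      rw [Real.sqrt_lt' (by positivity)]
      calc sq k < 4 ^ (j + 1) := h.2
        _ = (2 ^ (j + 1)) ^ 2 := by rw [← pow_mul, mul_comm, pow_mul]; norm_num
    have hk0 : 0 < nk k := by
      unfold nk
      apply Real.sqrt_pos.2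
      have : (0 : ℝ) < 4 ^ j := by positivity
      linarith [h.1]
    have e : ((2 : ℝ≥0∞) ^ j)⁻¹ = ENNReal.ofReal (1 / 2 ^ j) := by
      rw [one_div, ENNReal.ofReal_inv_of_pos (by positivity), ENNReal.ofReal_pow (by norm_num)]
      simp
    rw [e, show (2 : ℝ≥0∞) = ENNReal.ofReal 2 by simp, ← ENNReal.ofReal_mul (by norm_num)]
    apply ENNReal.ofReal_le_ofReal
    rw [mul_one_div, div_le_div_iff₀ (by positivity) hk0, one_mul, ← pow_succ']
    exact hk.le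
  · simp

lemma crit_zero {r : ℝ} (hr : 0 < r) : crit r 0 = 0 := by
  unfold crit shell
  simp [ENNReal.zero_rpow_of_pos hr]

/-- additivity for separated frequencies -/
lemma crit_add {r : ℝ} (hr : 0 < r) {a b : K → C3} {J : ℕ} (ha : ∀ k, (4 : ℝ) ^ J ≤ sq k → a k = 0)
    (hb : ∀ k, sq k < 4 ^ J → b k = 0) : crit r (a + b) = crit r a + crit r b := by
  unfold crit
  rw [← ENNReal.tsum_add]
  refine tsum_congr fun j => ?_
  by_cases hj : j < J
  · have h1 : shell j (fun k => ‖b k‖ₑ) = 0 := shell_zero j fun k _ h2 => by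
      rw [hb k (h2.trans_le (pow_le_pow_right₀ (by norm_num) hj)), enorm_zero]
    have h2 : shell j (fun k => ‖(a + b) k‖ₑ) = shell j (fun k => ‖a k‖ₑ) := by
      unfold shell
      refine tsum_congr fun k => ?_
      split_ifs with h
      · show ‖(a + b) k‖ₑ = ‖a k‖ₑ
        rw [Pi.add_apply, hb k (h.2.trans_le (pow_le_pow_right₀ (by norm_num) hj)), add_zero]
      · rfl
    rw [h1, h2]
    simp [ENNReal.zero_rpow_of_pos hr]
  · push Not at hj
    have h1 : shell j (fun k => ‖a k‖ₑ) = 0 := shell_zero j fun k h2 _ => by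
      rw [ha k ((pow_le_pow_right₀ (by norm_num) hj).trans h2), enorm_zero]
    have h2 : shell j (fun k => ‖(a + b) k‖ₑ) = shell j (fun k => ‖b k‖ₑ) := by
      unfold shell
      refine tsum_congr fun k => ?_
      split_ifs with h
      · show ‖(a + b) k‖ₑ = ‖b k‖ₑ
        rw [Pi.add_apply, ha k ((pow_le_pow_right₀ (by norm_num) hj).trans h.1), zero_add]
      · rfl
    rw [h1, h2]
    simp [ENNReal.zero_rpow_of_pos hr]

/-- quasi triangle inequality -/
lemma crit_sub_le {r : ℝ} (hr : 1 ≤ r) (a b : K → C3) :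
    crit r (fun k => a k - b k) ≤ 2 ^ (r - 1) * (crit r a + crit r b) := by
  unfold crit
  rw [← ENNReal.tsum_add, ← ENNReal.tsum_mul_left]
  refine ENNReal.tsum_le_tsum fun j => ?_
  have h1 : shell j (fun k => ‖a k - b k‖ₑ) / 2 ^ j ≤ shell j (fun k => ‖a k‖ₑ) / 2 ^ j
      + shell j (fun k => ‖b k‖ₑ) / 2 ^ j := by
    rw [← ENNReal.add_div, ← shell_add]
    exact ENNReal.div_le_div_right (shell_mono j fun k _ _ => enorm_sub_le) _
  exact (ENNReal.rpow_le_rpow h1 (by linarith)).trans (ENNReal.rpow_add_le_mul_rpow_add_rpow _ _ hr)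

/-- tails of the critical norm -/
lemma crit_tail {r : ℝ} (hr : 0 < r) {a : K → C3} (h : crit r a ≠ ⊤) {δ : ℝ≥0∞} (hδ : 0 < δ) :
    ∃ J : ℕ, ∀ b : K → C3, (∀ k, b k = a k ∨ b k = 0) → (∀ k, sq k < 4 ^ J → b k = 0) → crit r b < δ := by
  have h1 := ENNReal.tendsto_sum_nat_add (fun j => (shell j (fun k => ‖a k‖ₑ) / 2 ^ j) ^ r) h
  obtain ⟨J, hJ⟩ := (h1.eventually (gt_mem_nhds hδ)).exists
  refine ⟨J, fun b hb hb0 => lt_of_le_of_lt ?_ hJ⟩
  unfold crit
  rw [← Summable.sum_add_tsum_nat_add' (k := J) ENNReal.summable]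
  have h2 : ∑ j ∈ Finset.range J, (shell j (fun k => ‖b k‖ₑ) / 2 ^ j) ^ r = 0 := by
    refine Finset.sum_eq_zero fun j hj => ?_
    rw [Finset.mem_range] at hj
    rw [shell_zero j fun k _ h2 => by
      rw [hb0 k (h2.trans_le (pow_le_pow_right₀ (by norm_num) hj)), enorm_zero]]
    simp [ENNReal.zero_rpow_of_pos hr]
  rw [h2, zero_add]
  refine ENNReal.tsum_le_tsum fun j => ?_
  refine ENNReal.rpow_le_rpow (ENNReal.div_le_div_right (shell_mono _ fun k _ _ => ?_) _) hr.le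
  rcases hb k with h | h
  · rw [h]
  · rw [h, enorm_zero]; exact zero_le

end Pool.Agent.H356R3.NS
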