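import Pool.Agent.H356R3.NS.Defs

/-!
# The Lei-Lin norm
-/

open scoped ENNReal

namespace Pool.Agent.H356R3.NS

/-- The Lei-Lin norm `∑_{k ≠ 0} |a(k)| / |k|`, with `|k|` the Euclidean norm of `k` and `|a(k)|` the
maximum norm on `ℂ³`. -/
noncomputable def leiLin (a : (Fin 3 → ℤ) → Fin 3 → ℂ) : ℝ≥0∞ :=
  ∑' k : Fin 3 → ℤ, if k = 0 then 0 else ‖a k‖ₑ / ENNReal.ofReal (Real.sqrt (∑ i, (k i : ℝ) ^ 2))

end Pool.Agent.H356R3.NS
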