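import Pool.Agent.H356R3.NS.Step3
import Pool.Agent.H356R3.NS.Crit

open MeasureTheory Set Filter Topology
open scoped ENNReal NNReal

namespace Pool.Agent.H356R3.NS

/-- Initial data with a global solution, small after time `dl`. -/
def GoodV (c dl ε : ℝ) (V : K → C3) : Prop :=
  ∃ a : ℝ, 0 < a ∧ ∃ u : Fam, Sol c a V u ∧ LNd dl u ≤ ENNReal.ofReal ε

lemma good_zero (c dl ε : ℝ) : GoodV c dl ε 0 := by
  have hB : Bt 0 = 0 := by
    funext k t i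
    show Bf (at' 0 t) (at' 0 t) k i = 0
    simp [Bf, cv, at']
  refine ⟨1, one_pos, 0, ⟨fun k => continuous_const, fun t => rfl, fun t k i => by simp [at'],
    ⟨fun _ => 0, by simp, fun k t => by simp⟩, ?_, ?_⟩, ?_⟩
  · have h0 : ∀ t, NW (Wa 1) (at' (0 : Fam) t) = 0 := fun t => NW_zero _
    simp [LN, h0]
  · intro k t
    rw [hB]
    simp [Duh]
  · have h0 : ∀ t, NW (Wa 0) (at' (0 : Fam) t) = 0 := fun t => NW_zero _
    have : LNd dl 0 = 0 := by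
      unfold LNd LN
      simp [h0]
    rw [this]; exact zero_le

structure NearW (c r dl : ℝ) (K0 : ℕ) (ε : ℝ) (X W : K → C3) : Prop where
  fin : (Function.support W).Finite
  cut : ∀ k : K, (∀ i, |k i| ≤ K0) → W k = 0
  small : crit r W ≤ ENNReal.ofReal ε
  div : ∀ k, dt k (W k) = 0
  sym : Sym W
  good : GoodV c dl ε (X + W)

lemma Sym_pair (κ : K) (s : ℂ) (l : K) : Sym (Sg κ (s • cK l) + Sg (-κ) (star s • cK l)) := by
  have h := sym_pair κ 0 s l 0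
  have e : at' (Mo κ 0 (s • cK l) + Mo (-κ) 0 (star s • cK l)) 0
      = Sg κ (s • cK l) + Sg (-κ) (star s • cK l) := by
    have : at' (Mo κ 0 (s • cK l) + Mo (-κ) 0 (star s • cK l)) 0
      = at' (Mo κ 0 (s • cK l)) 0 + at' (Mo (-κ) 0 (star s • cK l)) 0 := rfl
    rw [this, at'_Mo, at'_Mo]; simp
  rwa [e] at h

lemma dt_Sg {κ : K} {v : C3} (h : dt κ v = 0) (k : K) : dt k (Sg κ v k) = 0 := by
  by_cases hk : k = κ
  · subst hk; simpa [Sg] using h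
  · simp [Sg, hk, dt]

lemma dt_add (k : K) (v v' : C3) : dt k (v + v') = dt k v + dt k v' := by
  unfold dt; rw [← Finset.sum_add_distrib]
  exact Finset.sum_congr rfl fun i _ => by simp; ring

variable {q cc η : K}

lemma W0_sym (c : ℝ) (q cc η : K) (γ : ℂ) (lm : ℝ) (N : ℕ) : Sym (W0 c q cc η γ lm N) := by
  have h1 := Sym_pair ((N : ℤ) • η) (am lm N) q
  have h2 := Sym_pair ((N : ℤ) • η + q) (be c q η γ lm N) cc
  have e3 : star (am lm N) = am lm N := star_am lm N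
  rw [e3] at h1
  have := h1.add h2
  rw [← add_assoc] at this
  exact this

lemma E0_sym (q cc : K) (γ : ℂ) : Sym (E0 q cc γ) := Sym_pair q γ cc

lemma E0_div (h : ip q cc = 0) (γ : ℂ) (k : K) : dt k (E0 q cc γ k) = 0 := by
  unfold E0
  rw [Pi.add_apply, dt_add, dt_Sg, dt_Sg, add_zero]
  · rw [dt_smul, ip_neg, h]; simp
  · rw [dt_smul, h]; simp

lemma W0_div (hG : Geo q cc η) (c : ℝ) (γ : ℂ) (lm : ℝ) (N : ℕ) (k : K) : dt k (W0 c q cc η γ lm N k) = 0 := by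
  unfold W0
  have h1 : ip ((N : ℤ) • η) q = 0 := by rw [ip_smul, hG.ηq, mul_zero]
  have h2 : ip ((N : ℤ) • η + q) cc = 0 := by rw [ip_add, ip_smul, hG.ηc, hG.qc, mul_zero, zero_add]
  simp only [Pi.add_apply, dt_add]
  rw [dt_Sg, dt_Sg, dt_Sg, dt_Sg]
  · simp
  · rw [dt_smul, ip_neg, h2]; simp
  · rw [dt_smul, h2]; simp
  · rw [dt_smul, ip_neg, h1]; simp
  · rw [dt_smul, h1]; simp

lemma supp_Sg (κ : K) (v : C3) : (Function.support (Sg κ v)).Finite := by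
  refine (Set.finite_singleton κ).subset fun k hk => ?_
  rw [Function.mem_support] at hk
  by_contra h
  exact hk (by simp only [mem_singleton_iff] at h; simp [Sg, h])

lemma supp_add {x y : K → C3} (hx : (Function.support x).Finite) (hy : (Function.support y).Finite) :
    (Function.support (x + y)).Finite := (hx.union hy).subset (Function.support_add _ _)

lemma W0_fin (c : ℝ) (γ : ℂ) (lm : ℝ) (N : ℕ) : (Function.support (W0 c q cc η γ lm N)).Finite :=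
  supp_add (supp_add (supp_add (supp_Sg _ _) (supp_Sg _ _)) (supp_Sg _ _)) (supp_Sg _ _)

lemma sq_le_of_box {k : K} {K0 : ℕ} (h : ∀ i, |k i| ≤ K0) : sq k ≤ 3 * (K0 : ℝ) ^ 2 := by
  unfold sq
  have h1 : ∀ i, (k i : ℝ) ^ 2 ≤ (K0 : ℝ) ^ 2 := by
    intro i
    rw [← sq_abs (k i : ℝ)]
    have h2 : |(k i : ℝ)| ≤ K0 := by exact_mod_cast h i
    exact pow_le_pow_left₀ (abs_nonneg _) h2 2
  calc ∑ i, (k i : ℝ) ^ 2 ≤ ∑ _i : Fin 3, (K0 : ℝ) ^ 2 := Finset.sum_le_sum fun i _ => h1 i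
    _ = _ := by simp

lemma W0_cut' (hG : Geo q cc η) (c : ℝ) (γ : ℂ) (lm : ℝ) {N : ℕ} {k : K}
    (h2 : sq k < (N : ℝ) ^ 2) : W0 c q cc η γ lm N k = 0 := by
  have hη := one_le_sq hG.hη
  have hq := sq_nonneg' q
  have hN2 : (0 : ℝ) ≤ (N : ℝ) ^ 2 := by positivity
  have s1 : (N : ℝ) ^ 2 ≤ sq ((N : ℤ) • η) := by rw [sq_k1]; nlinarith
  have s2 : (N : ℝ) ^ 2 ≤ sq ((N : ℤ) • η + q) := by rw [sq_k2 hG]; nlinarith
  have ne : ∀ {κ : K}, (N : ℝ) ^ 2 ≤ sq κ → ∀ v : C3, Sg κ v k = 0 := by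
    intro κ hκ v
    unfold Sg
    rw [if_neg]
    rintro rfl; linarith
  unfold W0
  simp only [Pi.add_apply]
  rw [ne s1, ne (by rw [sq_neg]; exact s1), ne s2, ne (by rw [sq_neg]; exact s2)]
  simp

lemma W0_cut (hG : Geo q cc η) (c : ℝ) (γ : ℂ) (lm : ℝ) {N K0 : ℕ} (hN : 2 * K0 < N) {k : K}
    (h : ∀ i, |k i| ≤ K0) : W0 c q cc η γ lm N k = 0 := by
  have h1 := sq_le_of_box h
  have hN' : 2 * (K0 : ℝ) < N := by exact_mod_cast hN
  have hK : (0 : ℝ) ≤ K0 := by positivity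
  exact W0_cut' hG c γ lm (by nlinarith)

lemma W0_crit {c lm : ℝ} (hc : 0 < c) (hlm : 0 < lm) (hG : Geo q cc η) (γ : ℂ) {r : ℝ} (hr : 1 ≤ r)
    {N : ℕ} (hN : 1 ≤ N) : crit r (W0 c q cc η γ lm N) ≤
      ENNReal.ofReal ((4 * (lm * ‖cK q‖ + c * sq η * ‖γ‖ / (Real.pi * sq q * lm) * ‖cK cc‖)) ^ r) := by
  set B0 := c * sq η * ‖γ‖ / (Real.pi * sq q * lm)
  have hQ := sq_pos hG.hq
  have hsη := sq_pos hG.hη
  have hsη1 := one_le_sq hG.hη
  have hpi := Real.pi_pos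
  have hB0 : 0 ≤ B0 := by positivity
  have hNr : (1 : ℝ) ≤ N := by exact_mod_cast hN
  have hNp : (0 : ℝ) < N := by linarith
  have hN2 : (0 : ℝ) ≤ (N : ℝ) ^ 2 := by positivity
  have s1 : (N : ℝ) ^ 2 ≤ sq ((N : ℤ) • η) := by rw [sq_k1]; nlinarith
  have s2 : (N : ℝ) ^ 2 ≤ sq ((N : ℤ) • η + q) := by rw [sq_k2 hG]; nlinarith
  have hw : ∀ {κ : K}, (N : ℝ) ^ 2 ≤ sq κ → ENNReal.ofReal (1 / nk κ) ≤ ENNReal.ofReal (1 / N) := by
    intro κ hκ
    apply ENNReal.ofReal_le_ofReal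
    apply one_div_le_one_div_of_le hNp
    unfold nk
    exact Real.le_sqrt_of_sq_le hκ
  have hterm : ∀ {κ : K} {v : C3} {X : ℝ}, (N : ℝ) ^ 2 ≤ sq κ → ‖v‖ ≤ X →
      NW (fun k => ENNReal.ofReal (1 / nk k)) (Sg κ v) ≤ ENNReal.ofReal (1 / N * X) := by
    intro κ v X h1 h2
    rw [NW_Sg, ENNReal.ofReal_mul (by positivity)]
    apply mul_le_mul' (hw h1)
    rw [← ofReal_norm]; exact ENNReal.ofReal_le_ofReal h2
  have hbe : ‖be c q η γ lm N‖ = N * B0 := norm_be hc hlm hG γ hN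
  have nv : ‖am lm N • cK q‖ ≤ N * (lm * ‖cK q‖) := by rw [norm_smul, norm_am hlm, mul_assoc]
  have nb : ‖be c q η γ lm N • cK cc‖ ≤ N * (B0 * ‖cK cc‖) := by rw [norm_smul, hbe, mul_assoc]
  have nb' : ‖star (be c q η γ lm N) • cK cc‖ ≤ N * (B0 * ‖cK cc‖) := by
    rw [norm_smul, norm_star, hbe, mul_assoc]
  have key : NW (fun k => ENNReal.ofReal (1 / nk k)) (W0 c q cc η γ lm N)
      ≤ ENNReal.ofReal (2 * (lm * ‖cK q‖ + B0 * ‖cK cc‖)) := by
    unfold W0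
    calc _ ≤ ENNReal.ofReal (1 / N * (N * (lm * ‖cK q‖))) + ENNReal.ofReal (1 / N * (N * (lm * ‖cK q‖)))
          + ENNReal.ofReal (1 / N * (N * (B0 * ‖cK cc‖)))
          + ENNReal.ofReal (1 / N * (N * (B0 * ‖cK cc‖))) := by
          refine (NW_add_le _ _ _).trans (add_le_add ((NW_add_le _ _ _).trans (add_le_add
            ((NW_add_le _ _ _).trans (add_le_add ?_ ?_)) ?_)) ?_)
          · exact hterm s1 nv
          · exact hterm (by rw [sq_neg]; exact s1) nv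
          · exact hterm s2 nb
          · exact hterm (by rw [sq_neg]; exact s2) nb'
      _ = _ := by
          rw [← ENNReal.ofReal_add (by positivity) (by positivity),
            ← ENNReal.ofReal_add (by positivity) (by positivity),
            ← ENNReal.ofReal_add (by positivity) (by positivity)]
          congr 1
          field_simp
          ring
  refine (crit_le hr _).trans ?_
  rw [← ENNReal.ofReal_rpow_of_nonneg (by positivity) (by linarith)]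
  refine ENNReal.rpow_le_rpow ?_ (by linarith)
  calc 2 * ∑' k, ENNReal.ofReal (1 / nk k) * ‖W0 c q cc η γ lm N k‖ₑ
      ≤ 2 * ENNReal.ofReal (2 * (lm * ‖cK q‖ + B0 * ‖cK cc‖)) := mul_le_mul' le_rfl key
    _ = _ := by
        rw [show (2 : ℝ≥0∞) = ENNReal.ofReal 2 by simp, ← ENNReal.ofReal_mul (by norm_num)]
        congr 1; ring

lemma near_zero {c r dl : ℝ} (hr : 0 < r) (K0 : ℕ) {ε : ℝ} : ∃ W, NearW c r dl K0 ε 0 W :=
  ⟨0, by simp, fun _ _ => rfl, by rw [crit_zero hr]; exact zero_le, fun k => by simp [dt],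
    fun k i => by simp, by rw [add_zero]; exact good_zero c dl ε⟩

lemma near_add1 {c r dl δ : ℝ} (hc : 0 < c) (hr : 1 ≤ r) (hdl : 0 < dl) (hδ : 0 ≤ δ) {K0 : ℕ} {X : K → C3}
    (h : ∃ W, NearW c r dl K0 δ X W) (hG : Geo q cc η) (γ : ℂ) {lm : ℝ} (hlm : 0 < lm) :
    ∃ W, NearW c r dl K0 (δ + (4 * (lm * ‖cK q‖ + c * sq η * ‖γ‖ / (Real.pi * sq q * lm) * ‖cK cc‖)) ^ r)
      (X + E0 q cc γ) W := by
  have hQ := sq_pos hG.hq
  have hsη := sq_pos hG.hη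
  have hpi := Real.pi_pos
  have hqn : 0 < ‖cK q‖ := by
    rw [norm_pos_iff]
    intro h0
    apply hG.hq
    funext i
    have := congrFun h0 i
    simpa [cK] using this
  set κ := (4 * (lm * ‖cK q‖ + c * sq η * ‖γ‖ / (Real.pi * sq q * lm) * ‖cK cc‖)) ^ r
  have hκ : 0 < κ := by positivity
  obtain ⟨W, hW⟩ := h
  obtain ⟨a, ha, u, hu, hLd⟩ := hW.good
  obtain ⟨N0, hN0⟩ := step hc ha hlm hdl hκ hG γ hu
  -- the support of `W`
  obtain ⟨J, hJ⟩ : ∃ J : ℕ, ∀ k, (4 : ℝ) ^ J ≤ sq k → W k = 0 := by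
    obtain ⟨B, hB⟩ := (hW.fin.image sq).bddAbove
    obtain ⟨J, hJ⟩ := pow_unbounded_of_one_lt B (by norm_num : (1 : ℝ) < 4)
    refine ⟨J, fun k hk => ?_⟩
    by_contra hne
    have := hB (mem_image_of_mem sq (show k ∈ Function.support W from hne))
    linarith
  set N := max (max N0 (2 ^ J)) (2 * K0 + 1)
  have h0 : N0 ≤ N := (le_max_left _ _).trans (le_max_left _ _)
  have h1 : 2 ^ J ≤ N := (le_max_right _ _).trans (le_max_left _ _)
  have h2 : 2 * K0 < N := lt_of_lt_of_le (by omega) (le_max_right _ _)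
  have hN1 : 1 ≤ N := by omega
  have hNJ : (4 : ℝ) ^ J ≤ (N : ℝ) ^ 2 := by
    have h3 : ((2 : ℝ) ^ J) ≤ N := by exact_mod_cast h1
    calc (4 : ℝ) ^ J = (2 ^ J) ^ 2 := by rw [← pow_mul, mul_comm, pow_mul]; norm_num
      _ ≤ _ := pow_le_pow_left₀ (by positivity) h3 2
  obtain ⟨a', ha', u', hu', hLd'⟩ := hN0 N h0
  refine ⟨W + W0 c q cc η γ lm N, supp_add hW.fin (W0_fin c γ lm N), fun k hk => ?_, ?_, fun k => ?_,
    hW.sym.add (W0_sym c q cc η γ lm N), a', ha', u', ?_, ?_⟩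
  · rw [Pi.add_apply, hW.cut k hk, W0_cut hG c γ lm h2 hk, add_zero]
  · rw [crit_add (by linarith) hJ fun k hk => W0_cut' hG c γ lm (hk.trans_le hNJ),
      ENNReal.ofReal_add hδ hκ.le]
    exact add_le_add hW.small (W0_crit hc hlm hG γ hr hN1)
  · rw [Pi.add_apply, dt_add, hW.div, W0_div hG, add_zero]
  · have : X + E0 q cc γ + (W + W0 c q cc η γ lm N) = X + W + (E0 q cc γ + W0 c q cc η γ lm N) := by abel
    rw [this]; exact hu'
  · rw [ENNReal.ofReal_add hδ hκ.le]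
    exact hLd'.trans (add_le_add hLd le_rfl)

lemma E0_add (q cc : K) (γ γ' : ℂ) : E0 q cc (γ + γ') = E0 q cc γ + E0 q cc γ' := by
  unfold E0
  rw [star_add, add_smul, add_smul, Sg_add, Sg_add]
  abel

lemma E0_zero (q cc : K) : E0 q cc 0 = 0 := by
  funext k
  simp [E0, Sg]

lemma near_iter {c r dl δ : ℝ} (hc : 0 < c) (hr : 1 ≤ r) (hdl : 0 < dl) (hδ : 0 ≤ δ) {K0 : ℕ} {X : K → C3}
    (h : ∃ W, NearW c r dl K0 δ X W) (hG : Geo q cc η) (γ : ℂ) {lm : ℝ} (hlm : 0 < lm) (n : ℕ) :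
    ∃ W, NearW c r dl K0 (δ + n * (4 * (lm * ‖cK q‖ + c * sq η * ‖γ‖ / (Real.pi * sq q * lm) * ‖cK cc‖)) ^ r)
      (X + E0 q cc (n * γ)) W := by
  have hQ := sq_pos hG.hq
  have hsη := sq_pos hG.hη
  have hpi := Real.pi_pos
  induction n with
  | zero => simpa [E0_zero] using h
  | succ n ih =>
    have h1 := near_add1 hc hr hdl (by positivity) ih hG γ hlm
    have e1 : E0 q cc ((n + 1 : ℕ) * γ) = E0 q cc (n * γ) + E0 q cc γ := by
      rw [← E0_add]; congr 1; push_cast; ring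
    rw [e1, ← add_assoc X]
    push_cast
    rw [add_mul, one_mul, ← add_assoc]
    exact h1

lemma near_add {c r dl : ℝ} (hc : 0 < c) (hr : 2 < r) (hdl : 0 < dl) {K0 : ℕ} {X : K → C3}
    (h : ∀ ε : ℝ, 0 < ε → ∃ W, NearW c r dl K0 ε X W) (hG : Geo q cc η) (γ : ℂ) (ε : ℝ) (hε : 0 < ε) :
    ∃ W, NearW c r dl K0 ε (X + E0 q cc γ) W := by
  have hQ := sq_pos hG.hq
  have hsη := sq_pos hG.hη
  have hpi := Real.pi_pos
  set C := 4 * (‖cK q‖ + c * sq η * ‖γ‖ / (Real.pi * sq q) * ‖cK cc‖)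
  have hC : 0 ≤ C := by positivity
  have hlim : Tendsto (fun n : ℕ => C ^ r * (n : ℝ) ^ (-(r / 2 - 1))) atTop (𝓝 0) := by
    have h1 := (tendsto_rpow_neg_atTop (by linarith : 0 < r / 2 - 1)).comp tendsto_natCast_atTop_atTop
    simpa using h1.const_mul (C ^ r)
  obtain ⟨n0, hn0⟩ := (Filter.eventually_atTop.1 ((hlim.eventually (gt_mem_nhds (half_pos hε)))))
  set n := max 1 n0
  have hn1 : 1 ≤ n := le_max_left _ _
  have hnp : (0 : ℝ) < n := by exact_mod_cast hn1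
  have hlt := (hn0 n (le_max_right _ _)).le
  set lm := 1 / Real.sqrt n
  have hsn : 0 < Real.sqrt n := Real.sqrt_pos.2 hnp
  have hlm : 0 < lm := by positivity
  have h1 := near_iter hc (by linarith : (1 : ℝ) ≤ r) hdl (half_pos hε).le (h (ε / 2) (half_pos hε)) hG (γ / n) hlm n
  have e1 : (n : ℂ) * (γ / n) = γ := by
    have : (n : ℂ) ≠ 0 := by exact_mod_cast hnp.ne'
    field_simp
  rw [e1] at h1
  obtain ⟨W, hW⟩ := h1
  suffices hle : ε / 2 + n * (4 * (lm * ‖cK q‖ + c * sq η * ‖γ / (n : ℂ)‖ / (Real.pi * sq q * lm) * ‖cK cc‖)) ^ r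
      ≤ ε by
    refine ⟨W, hW.fin, hW.cut, hW.small.trans (ENNReal.ofReal_le_ofReal hle), hW.div, hW.sym, ?_⟩
    obtain ⟨a, ha, u, hu, hLd⟩ := hW.good
    exact ⟨a, ha, u, hu, hLd.trans (ENNReal.ofReal_le_ofReal hle)⟩
  have e2 : 4 * (lm * ‖cK q‖ + c * sq η * ‖γ / (n : ℂ)‖ / (Real.pi * sq q * lm) * ‖cK cc‖)
      = C * (n : ℝ) ^ (-(1 / 2 : ℝ)) := by
    rw [Real.rpow_neg hnp.le, ← Real.sqrt_eq_rpow, norm_div, Complex.norm_natCast]
    have e3 : (n : ℝ) = Real.sqrt n * Real.sqrt n := (Real.mul_self_sqrt hnp.le).symm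
    have e4 : c * sq η * (‖γ‖ / (n : ℝ)) / (Real.pi * sq q * lm) * ‖cK cc‖
        = c * sq η * ‖γ‖ / (Real.pi * sq q) * ‖cK cc‖ * (Real.sqrt n)⁻¹ := by
      simp only [lm]
      field_simp
      rw [Real.sq_sqrt hnp.le]
    rw [e4]
    simp only [C, lm]
    ring
  rw [e2, Real.mul_rpow hC (Real.rpow_nonneg hnp.le _), ← Real.rpow_mul hnp.le]
  have e5 : (n : ℝ) * (C ^ r * (n : ℝ) ^ (-(1 / 2 : ℝ) * r)) = C ^ r * (n : ℝ) ^ (-(r / 2 - 1)) := by
    rw [show -(r / 2 - 1) = 1 + (-(1 / 2 : ℝ) * r) by ring, Real.rpow_add hnp, Real.rpow_one]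
    ring
  rw [e5]
  linarith

/-- cross product -/
def crs (q c : K) : K := ![q 1 * c 2 - q 2 * c 1, q 2 * c 0 - q 0 * c 2, q 0 * c 1 - q 1 * c 0]

lemma ip3 (k l : K) : ip k l = k 0 * l 0 + k 1 * l 1 + k 2 * l 2 := by
  unfold ip; rw [Fin.sum_univ_three]

lemma ip_self_pos {k : K} (h : k ≠ 0) : 0 < ip k k := by
  have := sq_pos h
  rw [sq_eq_ip] at this
  exact_mod_cast this

lemma geo_crs {q c : K} (hq : q ≠ 0) (hc : c ≠ 0) (h : ip q c = 0) : Geo q c (crs q c) := by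
  refine ⟨hq, hc, ?_, h, ?_, ?_⟩
  · intro h0
    have h1 : ip (crs q c) (crs q c) = ip q q * ip c c - ip q c ^ 2 := by
      simp only [ip3, crs, Matrix.cons_val_zero, Matrix.cons_val_one, Matrix.cons_val]; ring
    rw [h0, h] at h1
    have h2 : ip (0 : K) 0 = 0 := by simp [ip]
    rw [h2] at h1
    have := mul_pos (ip_self_pos hq) (ip_self_pos hc)
    nlinarith
  · simp only [ip3, crs, Matrix.cons_val_zero, Matrix.cons_val_one, Matrix.cons_val]; ring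
  · simp only [ip3, crs, Matrix.cons_val_zero, Matrix.cons_val_one, Matrix.cons_val]; ring

lemma exists_perp {q : K} (hq : q ≠ 0) : ∃ c : K, c ≠ 0 ∧ ip q c = 0 := by
  by_cases h : q 0 = 0 ∧ q 1 = 0
  · refine ⟨![1, 0, 0], fun h0 => ?_, ?_⟩
    · have := congrFun h0 0; simp at this
    · rw [ip3]; simp [h.1]
  · refine ⟨![q 1, -q 0, 0], fun h0 => h ?_, ?_⟩
    · have h1 := congrFun h0 0
      have h2 := congrFun h0 1
      simp at h1 h2
      exact ⟨h2, h1⟩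
    · rw [ip3]; simp; ring

lemma decomp {q c : K} (hq : q ≠ 0) (hc : c ≠ 0) (h : ip q c = 0) {v : C3} (hv : dt q v = 0) :
    ∃ γ1 γ2 : ℂ, v = γ1 • cK c + γ2 • cK (crs q c) := by
  have hqq : ((ip q q : ℤ) : ℂ) ≠ 0 := by exact_mod_cast (ip_self_pos hq).ne'
  have hcc : ((ip c c : ℤ) : ℂ) ≠ 0 := by exact_mod_cast (ip_self_pos hc).ne'
  have h' : (q 0 : ℂ) * c 0 + q 1 * c 1 + q 2 * c 2 = 0 := by
    rw [ip3] at h; exact_mod_cast h
  have hv' : (q 0 : ℂ) * v 0 + q 1 * v 1 + q 2 * v 2 = 0 := by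
    unfold dt at hv; rw [Fin.sum_univ_three] at hv; exact hv
  refine ⟨dt c v / (ip c c : ℤ), dt (crs q c) v / ((ip q q : ℤ) * (ip c c : ℤ)), ?_⟩
  have e1 : dt c v = (c 0 : ℂ) * v 0 + c 1 * v 1 + c 2 * v 2 := by unfold dt; rw [Fin.sum_univ_three]
  have e2 : dt (crs q c) v = ((q 1 : ℂ) * c 2 - q 2 * c 1) * v 0 + ((q 2 : ℂ) * c 0 - q 0 * c 2) * v 1
      + ((q 0 : ℂ) * c 1 - q 1 * c 0) * v 2 := by
    unfold dt; rw [Fin.sum_univ_three]; simp [crs]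
  have e3 : ((ip q q : ℤ) : ℂ) = (q 0 : ℂ) * q 0 + q 1 * q 1 + q 2 * q 2 := by rw [ip3]; push_cast; ring
  have e4 : ((ip c c : ℤ) : ℂ) = (c 0 : ℂ) * c 0 + c 1 * c 1 + c 2 * c 2 := by rw [ip3]; push_cast; ring
  have e5 : ∀ i, cK (crs q c) i = (![(q 1 : ℂ) * c 2 - q 2 * c 1, (q 2 : ℂ) * c 0 - q 0 * c 2,
      (q 0 : ℂ) * c 1 - q 1 * c 0] : C3) i := by
    intro i; fin_cases i <;> simp [cK, crs]
  have key : ∀ i, ((ip q q : ℤ) : ℂ) * (ip c c : ℤ) * v i = dt c v * (ip q q : ℤ) * c i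
      + dt (crs q c) v * cK (crs q c) i := by
    intro i
    rw [e5, e1, e2, e3, e4]
    fin_cases i <;>
    simp only [Fin.zero_eta, Fin.mk_one, Fin.reduceFinMk, Matrix.cons_val_zero, Matrix.cons_val_one,
      Matrix.cons_val]
    · linear_combination (((q 0 : ℂ) * c 0 + q 1 * c 1 + q 2 * c 2) * v 0
        - (q 0 * ((c 0 : ℂ) * v 0 + c 1 * v 1 + c 2 * v 2) + c 0 * ((q 0 : ℂ) * v 0 + q 1 * v 1 + q 2 * v 2))) * h'
        + ((c 0 : ℂ) * c 0 + c 1 * c 1 + c 2 * c 2) * q 0 * hv'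
    · linear_combination (((q 0 : ℂ) * c 0 + q 1 * c 1 + q 2 * c 2) * v 1
        - (q 1 * ((c 0 : ℂ) * v 0 + c 1 * v 1 + c 2 * v 2) + c 1 * ((q 0 : ℂ) * v 0 + q 1 * v 1 + q 2 * v 2))) * h'
        + ((c 0 : ℂ) * c 0 + c 1 * c 1 + c 2 * c 2) * q 1 * hv'
    · linear_combination (((q 0 : ℂ) * c 0 + q 1 * c 1 + q 2 * c 2) * v 2
        - (q 2 * ((c 0 : ℂ) * v 0 + c 1 * v 1 + c 2 * v 2) + c 2 * ((q 0 : ℂ) * v 0 + q 1 * v 1 + q 2 * v 2))) * h'
        + ((c 0 : ℂ) * c 0 + c 1 * c 1 + c 2 * c 2) * q 2 * hv'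
  funext i
  simp only [Pi.add_apply, Pi.smul_apply, smul_eq_mul]
  have h6 := key i
  rw [show cK c i = (c i : ℂ) from rfl]
  field_simp
  linear_combination h6

end Pool.Agent.H356R3.NS
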