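import Pool.Agent.H356R3.NS.Dens2

open MeasureTheory Set Filter Topology
open scoped ENNReal NNReal

namespace Pool.Agent.H356R3.NS

/-- as `NearW`, with control of the norm of `FB^{-1}_{1,2}` -/
structure NearM (c r dl : ℝ) (K0 : ℕ) (ε M : ℝ) (X W : K → C3) : Prop where
  near : NearW c r dl K0 ε X W
  sm2 : crit 2 W ≤ ENNReal.ofReal M

variable {q cc η : K}

lemma nk_pos' {k : K} (h : k ≠ 0) : 0 < nk k := by
  unfold nk; exact Real.sqrt_pos.2 (sq_pos h)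

lemma nk_sq' (k : K) : nk k ^ 2 = sq k := by
  unfold nk; exact Real.sq_sqrt (sq_nonneg' k)

lemma norm_cK_le (k : K) : ‖cK k‖ ≤ nk k := by
  unfold nk
  rw [pi_norm_le_iff_of_nonneg (Real.sqrt_nonneg _)]
  intro i
  apply Real.le_sqrt_of_sq_le
  unfold cK
  rw [Complex.norm_intCast, sq_abs]
  exact Finset.single_le_sum (f := fun i => (k i : ℝ) ^ 2) (fun i _ => sq_nonneg _) (Finset.mem_univ i)

lemma W0_critE {c t : ℝ} (hc : 0 < c) (ht : 0 < t) (hG : Geo q cc η) (γ : ℂ) {r : ℝ} (hr : 1 ≤ r)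
    {N : ℕ} (hN : 1 ≤ N) : crit r (W0 c q cc η γ (nk η * t) N) ≤
      ENNReal.ofReal ((4 * (t * ‖cK q‖ + c * ‖γ‖ / (Real.pi * sq q * t) * ‖cK cc‖)) ^ r) := by
  have hnη : 0 < nk η := nk_pos' hG.hη
  set lm := nk η * t
  have hlm : 0 < lm := mul_pos hnη ht
  set B0 := c * sq η * ‖γ‖ / (Real.pi * sq q * lm)
  have hQ := sq_pos hG.hq
  have hsη := sq_pos hG.hη
  have hpi := Real.pi_pos
  have hB0 : 0 ≤ B0 := by positivity
  have hNr : (1 : ℝ) ≤ N := by exact_mod_cast hN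
  have hNp : (0 : ℝ) < N := by linarith
  have hB0' : B0 / nk η = c * ‖γ‖ / (Real.pi * sq q * t) := by
    simp only [B0, lm]
    rw [← nk_sq' η]
    field_simp
  have s1 : (N * nk η : ℝ) ^ 2 ≤ sq ((N : ℤ) • η) := by rw [sq_k1, mul_pow, nk_sq']
  have s2 : (N * nk η : ℝ) ^ 2 ≤ sq ((N : ℤ) • η + q) := by
    rw [sq_k2 hG, mul_pow, nk_sq']; linarith
  have hw : ∀ {κ : K}, (N * nk η : ℝ) ^ 2 ≤ sq κ →
      ENNReal.ofReal (1 / nk κ) ≤ ENNReal.ofReal (1 / (N * nk η)) := by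
    intro κ hκ
    apply ENNReal.ofReal_le_ofReal
    apply one_div_le_one_div_of_le (by positivity)
    exact Real.le_sqrt_of_sq_le hκ
  have hterm : ∀ {κ : K} {v : C3} {X : ℝ}, (N * nk η : ℝ) ^ 2 ≤ sq κ → ‖v‖ ≤ X →
      NW (fun k => ENNReal.ofReal (1 / nk k)) (Sg κ v) ≤ ENNReal.ofReal (1 / (N * nk η) * X) := by
    intro κ v X h1 h2
    rw [NW_Sg, ENNReal.ofReal_mul (by positivity)]
    apply mul_le_mul' (hw h1)
    rw [← ofReal_norm]; exact ENNReal.ofReal_le_ofReal h2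
  have hbe : ‖be c q η γ lm N‖ = N * B0 := norm_be hc hlm hG γ hN
  have nv : ‖am lm N • cK q‖ ≤ N * (lm * ‖cK q‖) := by rw [norm_smul, norm_am hlm, mul_assoc]
  have nb : ‖be c q η γ lm N • cK cc‖ ≤ N * (B0 * ‖cK cc‖) := by rw [norm_smul, hbe, mul_assoc]
  have nb' : ‖star (be c q η γ lm N) • cK cc‖ ≤ N * (B0 * ‖cK cc‖) := by
    rw [norm_smul, norm_star, hbe, mul_assoc]
  have key : NW (fun k => ENNReal.ofReal (1 / nk k)) (W0 c q cc η γ lm N)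
      ≤ ENNReal.ofReal (2 * (t * ‖cK q‖ + B0 / nk η * ‖cK cc‖)) := by
    unfold W0
    calc _ ≤ ENNReal.ofReal (1 / (N * nk η) * (N * (lm * ‖cK q‖)))
          + ENNReal.ofReal (1 / (N * nk η) * (N * (lm * ‖cK q‖)))
          + ENNReal.ofReal (1 / (N * nk η) * (N * (B0 * ‖cK cc‖)))
          + ENNReal.ofReal (1 / (N * nk η) * (N * (B0 * ‖cK cc‖))) := by
          refine (NW_add_le _ _ _).trans (add_le_add ((NW_add_le _ _ _).trans (add_le_add
            ((NW_add_le _ _ _).trans (add_le_add ?_ ?_)) ?_)) ?_)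
          · exact hterm s1 nv
          · exact hterm (by rw [sq_neg]; exact s1) nv
          · exact hterm s2 nb
          · exact hterm (by rw [sq_neg]; exact s2) nb'
      _ = _ := by
          rw [← ENNReal.ofReal_add (by positivity) (by positivity),
            ← ENNReal.ofReal_add (by positivity) (by positivity),
            ← ENNReal.ofReal_add (by positivity) (by positivity)]
          congr 1
          simp only [lm]
          field_simp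
          ring
  rw [hB0'] at key
  refine (crit_le hr _).trans ?_
  rw [← ENNReal.ofReal_rpow_of_nonneg (by positivity) (by linarith)]
  refine ENNReal.rpow_le_rpow ?_ (by linarith)
  calc 2 * ∑' k, ENNReal.ofReal (1 / nk k) * ‖W0 c q cc η γ lm N k‖ₑ
      ≤ 2 * ENNReal.ofReal (2 * (t * ‖cK q‖ + c * ‖γ‖ / (Real.pi * sq q * t) * ‖cK cc‖)) :=
        mul_le_mul' le_rfl key
    _ = _ := by
        rw [show (2 : ℝ≥0∞) = ENNReal.ofReal 2 by simp, ← ENNReal.ofReal_mul (by norm_num)]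
        congr 1; ring

lemma nearE_add1 {c r dl δ M : ℝ} (hc : 0 < c) (hr : 1 ≤ r) (hdl : 0 < dl) (hδ : 0 ≤ δ) (hM : 0 ≤ M)
    {K0 : ℕ} {X : K → C3}
    (h : ∃ W, NearM c r dl K0 δ M X W) (hG : Geo q cc η) (γ : ℂ) {t : ℝ} (ht : 0 < t) :
    ∃ W, NearM c r dl K0 (δ + (4 * (t * ‖cK q‖ + c * ‖γ‖ / (Real.pi * sq q * t) * ‖cK cc‖)) ^ r)
      (M + (4 * (t * ‖cK q‖ + c * ‖γ‖ / (Real.pi * sq q * t) * ‖cK cc‖)) ^ (2 : ℝ))
      (X + E0 q cc γ) W := by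
  have hQ := sq_pos hG.hq
  have hsη := sq_pos hG.hη
  have hnη : 0 < nk η := nk_pos' hG.hη
  have hpi := Real.pi_pos
  have hlm : 0 < nk η * t := mul_pos hnη ht
  have hqn : 0 < ‖cK q‖ := by
    rw [norm_pos_iff]
    intro h0
    apply hG.hq
    funext i
    have := congrFun h0 i
    simpa [cK] using this
  set κ1 := 4 * (t * ‖cK q‖ + c * ‖γ‖ / (Real.pi * sq q * t) * ‖cK cc‖)
  have hκ1 : 0 < κ1 := by positivity
  set κ := κ1 ^ r
  have hκ : 0 < κ := by positivity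
  obtain ⟨W, ⟨hW, hW2⟩⟩ := h
  obtain ⟨a, ha, u, hu, hLd⟩ := hW.good
  obtain ⟨N0, hN0⟩ := step hc ha hlm hdl hκ hG γ hu
  -- the support of `W`
  obtain ⟨J, hJ⟩ : ∃ J : ℕ, ∀ k, (4 : ℝ) ^ J ≤ sq k → W k = 0 := by
    obtain ⟨B, hB⟩ := (hW.fin.image sq).bddAbove
    obtain ⟨J, hJ⟩ := pow_unbounded_of_one_lt B (by norm_num : (1 : ℝ) < 4)
    refine ⟨J, fun k hk => ?_⟩
    by_contra hne
    have := hB (mem_image_of_mem sq (show k ∈ Function.support W from hne))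
    linarith
  set N := max (max N0 (2 ^ J)) (2 * K0 + 1)
  have h0 : N0 ≤ N := (le_max_left _ _).trans (le_max_left _ _)
  have h1 : 2 ^ J ≤ N := (le_max_right _ _).trans (le_max_left _ _)
  have h2 : 2 * K0 < N := lt_of_lt_of_le (by omega) (le_max_right _ _)
  have hN1 : 1 ≤ N := by omega
  have hNJ : (4 : ℝ) ^ J ≤ (N : ℝ) ^ 2 := by
    have h3 : ((2 : ℝ) ^ J) ≤ N := by exact_mod_cast h1
    calc (4 : ℝ) ^ J = (2 ^ J) ^ 2 := by rw [← pow_mul, mul_comm, pow_mul]; norm_num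
      _ ≤ _ := pow_le_pow_left₀ (by positivity) h3 2
  obtain ⟨a', ha', u', hu', hLd'⟩ := hN0 N h0
  refine ⟨W + W0 c q cc η γ (nk η * t) N, ⟨⟨supp_add hW.fin (W0_fin c γ _ N), fun k hk => ?_, ?_,
    fun k => ?_, hW.sym.add (W0_sym c q cc η γ _ N), a', ha', u', ?_, ?_⟩, ?_⟩⟩
  · rw [Pi.add_apply, hW.cut k hk, W0_cut hG c γ _ h2 hk, add_zero]
  · rw [crit_add (by linarith) hJ fun k hk => W0_cut' hG c γ _ (hk.trans_le hNJ),
      ENNReal.ofReal_add hδ hκ.le]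
    exact add_le_add hW.small (W0_critE hc ht hG γ hr hN1)
  · rw [Pi.add_apply, dt_add, hW.div, W0_div hG, add_zero]
  · have : X + E0 q cc γ + (W + W0 c q cc η γ (nk η * t) N)
        = X + W + (E0 q cc γ + W0 c q cc η γ (nk η * t) N) := by abel
    rw [this]; exact hu'
  · rw [ENNReal.ofReal_add hδ hκ.le]
    exact hLd'.trans (add_le_add hLd le_rfl)
  · rw [crit_add (by norm_num) hJ fun k hk => W0_cut' hG c γ _ (hk.trans_le hNJ),
      ENNReal.ofReal_add hM (by positivity)]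
    exact add_le_add hW2 (W0_critE hc ht hG γ (by norm_num) hN1)

lemma nearE_iter {c r dl δ M : ℝ} (hc : 0 < c) (hr : 1 ≤ r) (hdl : 0 < dl) (hδ : 0 ≤ δ) (hM : 0 ≤ M)
    {K0 : ℕ} {X : K → C3}
    (h : ∃ W, NearM c r dl K0 δ M X W) (hG : Geo q cc η) (γ : ℂ) {t : ℝ} (ht : 0 < t) (n : ℕ) :
    ∃ W, NearM c r dl K0
      (δ + n * (4 * (t * ‖cK q‖ + c * ‖γ‖ / (Real.pi * sq q * t) * ‖cK cc‖)) ^ r)
      (M + n * (4 * (t * ‖cK q‖ + c * ‖γ‖ / (Real.pi * sq q * t) * ‖cK cc‖)) ^ (2 : ℝ))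
      (X + E0 q cc (n * γ)) W := by
  have hQ := sq_pos hG.hq
  have hsη := sq_pos hG.hη
  have hpi := Real.pi_pos
  induction n with
  | zero => simpa [E0_zero] using h
  | succ n ih =>
    have h1 := nearE_add1 hc hr hdl (by positivity) (by positivity) ih hG γ ht
    have e1 : E0 q cc ((n + 1 : ℕ) * γ) = E0 q cc (n * γ) + E0 q cc γ := by
      rw [← E0_add]; congr 1; push_cast; ring
    rw [e1, ← add_assoc X]
    push_cast
    rw [add_mul, one_mul, ← add_assoc, add_mul, one_mul, ← add_assoc]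
    exact h1

lemma nearE_add {c r dl M : ℝ} (hc : 0 < c) (hr : 2 < r) (hdl : 0 < dl) (hM : 0 ≤ M) {K0 : ℕ}
    {X : K → C3} (h : ∀ ε : ℝ, 0 < ε → ∃ W, NearM c r dl K0 ε M X W) (hG : Geo q cc η) (γ : ℂ)
    {m : ℝ} (hm : 64 * c / (Real.pi * nk q) * (‖γ‖ * ‖cK cc‖) ≤ m) (ε : ℝ) (hε : 0 < ε) :
    ∃ W, NearM c r dl K0 ε (M + m) (X + E0 q cc γ) W := by
  have hQ := sq_pos hG.hq
  have hnq := nk_pos' hG.hq
  have hsη := sq_pos hG.hη
  have hpi := Real.pi_pos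
  by_cases hγ : γ = 0
  · subst hγ
    obtain ⟨W, ⟨hW, hW2⟩⟩ := h ε hε
    rw [E0_zero, add_zero]
    refine ⟨W, ⟨hW, hW2.trans (ENNReal.ofReal_le_ofReal ?_)⟩⟩
    have : (0 : ℝ) ≤ 64 * c / (Real.pi * nk q) * (‖(0 : ℂ)‖ * ‖cK cc‖) := by positivity
    linarith
  have hγn : 0 < ‖γ‖ := norm_pos_iff.2 hγ
  have hcn : 0 < ‖cK cc‖ := by
    rw [norm_pos_iff]
    intro h0
    apply hG.hc
    funext i
    have := congrFun h0 i
    simpa [cK] using this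
  set R2 := c * ‖γ‖ * ‖cK cc‖ / (Real.pi * nk q)
  have hR2 : 0 < R2 := by positivity
  set R := Real.sqrt R2
  have hR : 0 < R := Real.sqrt_pos.2 hR2
  have hRR : R * R = R2 := Real.mul_self_sqrt hR2.le
  set t0 := R / nk q
  have ht0 : 0 < t0 := by positivity
  set C := 4 * (t0 * ‖cK q‖ + c * ‖γ‖ / (Real.pi * sq q * t0) * ‖cK cc‖)
  have hC : 0 ≤ C := by positivity
  have hCR : C ≤ 8 * R := by
    have h1 : t0 * ‖cK q‖ ≤ R := by
      calc t0 * ‖cK q‖ ≤ t0 * nk q := mul_le_mul_of_nonneg_left (norm_cK_le q) ht0.le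
        _ = R := by simp only [t0]; field_simp
    have h2 : c * ‖γ‖ / (Real.pi * sq q * t0) * ‖cK cc‖ = R := by
      have h3 : c * ‖γ‖ / (Real.pi * sq q * t0) * ‖cK cc‖ = R2 / R := by
        simp only [t0, R2]
        rw [← nk_sq' q]
        field_simp
      rw [h3, ← hRR]; field_simp
    simp only [C]
    rw [h2]; linarith
  have hCm : C ^ (2 : ℝ) ≤ m := by
    rw [Real.rpow_two]
    calc C ^ 2 ≤ (8 * R) ^ 2 := by gcongr
      _ = 64 * R2 := by rw [← hRR]; ring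
      _ = 64 * c / (Real.pi * nk q) * (‖γ‖ * ‖cK cc‖) := by simp only [R2]; ring
      _ ≤ m := hm
  have hlim : Tendsto (fun n : ℕ => C ^ r * (n : ℝ) ^ (-(r / 2 - 1))) atTop (𝓝 0) := by
    have h1 := (tendsto_rpow_neg_atTop (by linarith : 0 < r / 2 - 1)).comp tendsto_natCast_atTop_atTop
    simpa using h1.const_mul (C ^ r)
  obtain ⟨n0, hn0⟩ := (Filter.eventually_atTop.1 ((hlim.eventually (gt_mem_nhds (half_pos hε)))))
  set n := max 1 n0
  have hn1 : 1 ≤ n := le_max_left _ _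
  have hnp : (0 : ℝ) < n := by exact_mod_cast hn1
  have hlt := (hn0 n (le_max_right _ _)).le
  set t := t0 / Real.sqrt n
  have hsn : 0 < Real.sqrt n := Real.sqrt_pos.2 hnp
  have ht : 0 < t := by positivity
  have h1 := nearE_iter hc (by linarith : (1 : ℝ) ≤ r) hdl (half_pos hε).le hM (h (ε / 2) (half_pos hε))
    hG (γ / n) ht n
  have e1 : (n : ℂ) * (γ / n) = γ := by
    have : (n : ℂ) ≠ 0 := by exact_mod_cast hnp.ne'
    field_simp
  rw [e1] at h1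
  obtain ⟨W, ⟨hW, hW2⟩⟩ := h1
  have e2 : 4 * (t * ‖cK q‖ + c * ‖γ / (n : ℂ)‖ / (Real.pi * sq q * t) * ‖cK cc‖)
      = C * (n : ℝ) ^ (-(1 / 2 : ℝ)) := by
    rw [Real.rpow_neg hnp.le, ← Real.sqrt_eq_rpow, norm_div, Complex.norm_natCast]
    have e4 : c * (‖γ‖ / (n : ℝ)) / (Real.pi * sq q * t) * ‖cK cc‖
        = c * ‖γ‖ / (Real.pi * sq q * t0) * ‖cK cc‖ * (Real.sqrt n)⁻¹ := by
      simp only [t]
      field_simp
      rw [Real.sq_sqrt hnp.le]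
    rw [e4]
    simp only [C, t]
    ring
  rw [e2] at hW hW2
  have e5 : (n : ℝ) * (C * (n : ℝ) ^ (-(1 / 2 : ℝ))) ^ r = C ^ r * (n : ℝ) ^ (-(r / 2 - 1)) := by
    rw [Real.mul_rpow hC (Real.rpow_nonneg hnp.le _), ← Real.rpow_mul hnp.le]
    rw [show -(r / 2 - 1) = 1 + (-(1 / 2 : ℝ) * r) by ring, Real.rpow_add hnp, Real.rpow_one]
    ring
  have e6 : (n : ℝ) * (C * (n : ℝ) ^ (-(1 / 2 : ℝ))) ^ (2 : ℝ) = C ^ (2 : ℝ) := by
    rw [Real.mul_rpow hC (Real.rpow_nonneg hnp.le _), ← Real.rpow_mul hnp.le]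
    rw [show (-(1 / 2 : ℝ) * 2) = -1 by norm_num, Real.rpow_neg_one]
    field_simp
  rw [e5] at hW
  rw [e6] at hW2
  have hle : ε / 2 + C ^ r * (n : ℝ) ^ (-(r / 2 - 1)) ≤ ε := by linarith
  refine ⟨W, ⟨⟨hW.fin, hW.cut, hW.small.trans (ENNReal.ofReal_le_ofReal hle), hW.div, hW.sym, ?_⟩,
    hW2.trans (ENNReal.ofReal_le_ofReal (by linarith))⟩⟩
  obtain ⟨a, ha, u, hu, hLd⟩ := hW.good
  exact ⟨a, ha, u, hu, hLd.trans (ENNReal.ofReal_le_ofReal hle)⟩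

lemma coef_le {l : K} (hl : l ≠ 0) {v : C3} {g : ℂ} (h : dt l v = g * (ip l l : ℂ)) :
    ‖g‖ * ‖cK l‖ ≤ 2 * ‖v‖ := by
  have hs := sq_pos hl
  have h1 : ‖dt l v‖ ≤ (∑ i, |(l i : ℝ)|) * ‖v‖ := by
    unfold dt
    refine (norm_sum_le _ _).trans ?_
    rw [Finset.sum_mul]
    refine Finset.sum_le_sum fun i _ => ?_
    rw [norm_mul, Complex.norm_intCast]
    exact mul_le_mul_of_nonneg_left (norm_le_pi_norm v i) (abs_nonneg _)
  have h2 : ‖dt l v‖ = ‖g‖ * sq l := by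
    rw [h, norm_mul, Complex.norm_intCast, ← sq_eq_ip, abs_of_pos hs]
  have hS : 0 ≤ ∑ i, |(l i : ℝ)| := Finset.sum_nonneg fun i _ => abs_nonneg _
  have h3 : ‖cK l‖ * ∑ i, |(l i : ℝ)| ≤ 2 * sq l := by
    rcases hS.eq_or_lt with h0 | h0
    · rw [← h0, mul_zero]; positivity
    rw [← le_div_iff₀ h0, pi_norm_le_iff_of_nonneg (by positivity)]
    intro i
    rw [le_div_iff₀ h0]
    unfold cK sq
    rw [Complex.norm_intCast, Fin.sum_univ_three, Fin.sum_univ_three]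
    have hi : |(l i : ℝ)| = |(l 0 : ℝ)| ∨ |(l i : ℝ)| = |(l 1 : ℝ)| ∨ |(l i : ℝ)| = |(l 2 : ℝ)| := by
      fin_cases i <;> simp
    have q0 := sq_abs (l 0 : ℝ)
    have q1 := sq_abs (l 1 : ℝ)
    have q2 := sq_abs (l 2 : ℝ)
    rw [← q0, ← q1, ← q2]
    generalize |(l 0 : ℝ)| = x at *
    generalize |(l 1 : ℝ)| = y at *
    generalize |(l 2 : ℝ)| = z at *
    generalize |(l i : ℝ)| = w at *
    rcases hi with rfl | rfl | rfl
    · nlinarith [sq_nonneg (w - y), sq_nonneg (w - z), sq_nonneg y, sq_nonneg z]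
    · nlinarith [sq_nonneg (w - x), sq_nonneg (w - z), sq_nonneg x, sq_nonneg z]
    · nlinarith [sq_nonneg (w - y), sq_nonneg (w - x), sq_nonneg y, sq_nonneg x]
  have h4 : ‖g‖ * ‖cK l‖ * sq l ≤ 2 * ‖v‖ * sq l := by
    calc ‖g‖ * ‖cK l‖ * sq l = ‖cK l‖ * ‖dt l v‖ := by rw [h2]; ring
      _ ≤ ‖cK l‖ * ((∑ i, |(l i : ℝ)|) * ‖v‖) := mul_le_mul_of_nonneg_left h1 (norm_nonneg _)
      _ = (‖cK l‖ * ∑ i, |(l i : ℝ)|) * ‖v‖ := by ring
      _ ≤ (2 * sq l) * ‖v‖ := mul_le_mul_of_nonneg_right h3 (norm_nonneg _)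
      _ = _ := by ring
  exact le_of_mul_le_mul_right h4 hs

end Pool.Agent.H356R3.NS
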