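import Pool.Agent.H356R3.NS.Basic2

open MeasureTheory Set Filter Topology
open scoped ENNReal NNReal

namespace Pool.Agent.H356R3.NS

/-- Families of functions of time. -/
abbrev Fam := K → ℝ → C3

/-- The value of a family at time `t`. -/
def at' (x : Fam) (t : ℝ) : K → C3 := fun k => x k t

/-- The Duhamel operator. -/
noncomputable def Duh (c : ℝ) (F : Fam) : Fam := fun k t =>
  ∫ s in (0 : ℝ)..(max t 0), Real.exp (-(c * sq k * (max t 0 - s))) • F k s

/-- continuity of all components -/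
def CF (F : Fam) : Prop := ∀ k, Continuous (F k)

lemma Duh_eq (c : ℝ) (F : Fam) (k : K) (t : ℝ) : Duh c F k t =
    Real.exp (-(c * sq k * max t 0)) • ∫ s in (0 : ℝ)..(max t 0), Real.exp (c * sq k * s) • F k s := by
  unfold Duh
  rw [← intervalIntegral.integral_smul]
  refine intervalIntegral.integral_congr fun s _ => ?_
  simp only [smul_smul, ← Real.exp_add]
  congr 2
  ring

lemma cont_inner {F : Fam} (hF : CF F) (c : ℝ) (k : K) :
    Continuous fun s => Real.exp (c * sq k * s) • F k s := by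
  have := hF k
  fun_prop

lemma Duh_cont {F : Fam} (hF : CF F) (c : ℝ) : CF (Duh c F) := by
  intro k
  have e : Duh c F k = fun t => Real.exp (-(c * sq k * max t 0)) •
      (fun u => ∫ s in (0 : ℝ)..u, Real.exp (c * sq k * s) • F k s) (max t 0) := by
    funext t; exact Duh_eq c F k t
  rw [e]
  have h1 : Continuous (fun u => ∫ s in (0 : ℝ)..u, Real.exp (c * sq k * s) • F k s) :=
    intervalIntegral.continuous_primitive
      (fun a b => (cont_inner hF c k).intervalIntegrable a b) 0
  have h2 : Continuous fun t : ℝ => max t 0 := by fun_prop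
  exact (by fun_prop : Continuous fun t : ℝ => Real.exp (-(c * sq k * max t 0))).smul (h1.comp h2)

lemma Duh_max (c : ℝ) (F : Fam) (k : K) (t : ℝ) : Duh c F k (max t 0) = Duh c F k t := by
  unfold Duh; simp

lemma Duh_at_zero (c : ℝ) (F : Fam) (k : K) : Duh c F k 0 = 0 := by
  unfold Duh; simp

lemma Duh_hasDeriv {F : Fam} (hF : CF F) (c : ℝ) (k : K) {t : ℝ} (ht : 0 < t) :
    HasDerivAt (Duh c F k) (-(c * sq k) • Duh c F k t + F k t) t := by
  have h1 : HasDerivAt (fun u => ∫ s in (0 : ℝ)..u, Real.exp (c * sq k * s) • F k s)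
      (Real.exp (c * sq k * t) • F k t) t :=
    intervalIntegral.integral_hasDerivAt_right
      ((cont_inner hF c k).intervalIntegrable _ _)
      (cont_inner hF c k).aestronglyMeasurable.stronglyMeasurableAtFilter
      (cont_inner hF c k).continuousAt
  have h2 : HasDerivAt (fun u => Real.exp (-(c * sq k * u))) (Real.exp (-(c * sq k * t)) * -(c * sq k)) t := by
    have : HasDerivAt (fun u : ℝ => -(c * sq k * u)) (-(c * sq k)) t := by
      simpa using ((hasDerivAt_id' t).const_mul (c * sq k)).fun_neg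
    exact this.exp
  have h3 := h2.fun_smul h1
  have e : Duh c F k =ᶠ[𝓝 t] fun u => Real.exp (-(c * sq k * u)) •
      ∫ s in (0 : ℝ)..u, Real.exp (c * sq k * s) • F k s := by
    filter_upwards [lt_mem_nhds ht] with u hu
    rw [Duh_eq, max_eq_left hu.le]
  refine HasDerivAt.congr_of_eventuallyEq ?_ e
  convert h3 using 1
  rw [Duh_eq, max_eq_left ht.le, smul_smul, smul_smul, ← Real.exp_add]
  simp only [neg_add_cancel, Real.exp_zero, one_smul]
  rw [add_comm]
  congr 2
  ring

lemma enorm_Duh_le (c : ℝ) (F : Fam) (k : K) {t : ℝ} (ht : 0 ≤ t) :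
    ‖Duh c F k t‖ₑ ≤ ∫⁻ s in Ioc 0 t, ENNReal.ofReal (Real.exp (-(c * sq k * (t - s)))) * ‖F k s‖ₑ := by
  unfold Duh
  rw [max_eq_left ht, intervalIntegral.integral_of_le ht]
  refine (enorm_integral_le_lintegral_enorm _).trans (le_of_eq ?_)
  refine lintegral_congr fun s => ?_
  rw [enorm_smul, Real.enorm_of_nonneg (Real.exp_pos _).le]

lemma enorm_Duh_le' {c : ℝ} (hc : 0 ≤ c) (F : Fam) (k : K) {t : ℝ} (ht : 0 ≤ t) :
    ‖Duh c F k t‖ₑ ≤ ∫⁻ s in Ioc 0 t, ‖F k s‖ₑ := by
  refine (enorm_Duh_le c F k ht).trans ?_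
  refine setLIntegral_mono' measurableSet_Ioc fun s hs => ?_
  calc _ ≤ 1 * ‖F k s‖ₑ := by
        apply mul_le_mul' _ le_rfl
        rw [ENNReal.ofReal_le_one, Real.exp_le_one_iff]
        have := sq_nonneg' k
        have h2 : 0 ≤ t - s := sub_nonneg.2 hs.2
        have : 0 ≤ c * sq k * (t - s) := by positivity
        linarith
    _ = _ := one_mul _

lemma NW_meas (W : K → ℝ≥0∞) {F : Fam} (hF : CF F) : Measurable fun s => NW W (at' F s) := by
  unfold NW at'
  exact Measurable.tsum fun k => ((hF k).enorm.measurable).const_mul _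

/-- sup estimate -/
lemma NW_Duh_le {c : ℝ} (hc : 0 ≤ c) (W : K → ℝ≥0∞) {F : Fam} (hF : CF F) {t : ℝ} (ht : 0 ≤ t) :
    NW W (at' (Duh c F) t) ≤ ∫⁻ s in Ioc 0 t, NW W (at' F s) := by
  unfold NW at'
  rw [lintegral_tsum]
  · refine ENNReal.tsum_le_tsum fun k => ?_
    rw [lintegral_const_mul _ (hF k).enorm.measurable]
    exact mul_le_mul' le_rfl (enorm_Duh_le' hc F k ht)
  · intro k
    exact (((hF k).enorm.measurable).const_mul _).aemeasurable

lemma lint_exp {lam : ℝ} (hl : 0 < lam) (s : ℝ) :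
    ∫⁻ t in Ici s, ENNReal.ofReal (Real.exp (-(lam * (t - s)))) = ENNReal.ofReal (1 / lam) := by
  have h1 : ∀ t, Real.exp (-(lam * (t - s))) = Real.exp (lam * s) * Real.exp (-lam * t) := by
    intro t; rw [← Real.exp_add]; congr 1; ring
  simp only [h1]
  have hi : IntegrableOn (fun t => Real.exp (lam * s) * Real.exp (-lam * t)) (Ioi s) :=
    (exp_neg_integrableOn_Ioi s hl).const_mul _
  rw [setLIntegral_congr (Ioi_ae_eq_Ici).symm]
  rw [← ofReal_integral_eq_lintegral_ofReal hi
    (Filter.Eventually.of_forall fun t => by positivity)]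
  congr 1
  rw [integral_const_mul, integral_exp_mul_Ioi (neg_lt_zero.2 hl)]
  rw [neg_div, div_neg, neg_neg, mul_div_assoc', ← Real.exp_add]
  congr 1
  rw [Real.exp_eq_one_iff]; ring

/-- Weight in time: `g` monotone. -/
lemma L1b {c : ℝ} (hc : 0 < c) {a : ℝ} {F : Fam} (hF : CF F) {g : ℝ → ℝ} (hg : Monotone g) :
    ENNReal.ofReal c * ∫⁻ t in Ioi 0, ENNReal.ofReal (Real.exp (-g t)) * NW (Wp a) (at' (Duh c F) t)
      ≤ ∫⁻ s in Ioi 0, ENNReal.ofReal (Real.exp (-g s)) * NW (Wm a) (at' F s) := by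
  have hgm : Measurable fun t => ENNReal.ofReal (Real.exp (-g t)) :=
    ENNReal.measurable_ofReal.comp (Real.measurable_exp.comp hg.measurable.neg)
  -- one mode
  have hk : ∀ k : K, k ≠ 0 → ENNReal.ofReal (c * sq k) *
      ∫⁻ t in Ioi 0, ENNReal.ofReal (Real.exp (-g t)) * ‖Duh c F k t‖ₑ
      ≤ ∫⁻ s in Ioi 0, ENNReal.ofReal (Real.exp (-g s)) * ‖F k s‖ₑ := by
    intro k hk0
    have hlam : 0 < c * sq k := mul_pos hc (sq_pos hk0)
    set H : ℝ → ℝ → ℝ≥0∞ := fun t s => (Ici s).indicator (fun t =>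
      ENNReal.ofReal (Real.exp (-g s)) * (ENNReal.ofReal (Real.exp (-(c * sq k * (t - s)))) * ‖F k s‖ₑ)) t
    have h1 : ∀ t ∈ Ioi (0 : ℝ), ENNReal.ofReal (Real.exp (-g t)) * ‖Duh c F k t‖ₑ
        ≤ ∫⁻ s in Ioi 0, H t s := by
      intro t ht
      have ht' : 0 < t := ht
      calc ENNReal.ofReal (Real.exp (-g t)) * ‖Duh c F k t‖ₑ
          ≤ ENNReal.ofReal (Real.exp (-g t)) * ∫⁻ s in Ioc 0 t,
            ENNReal.ofReal (Real.exp (-(c * sq k * (t - s)))) * ‖F k s‖ₑ :=
            mul_le_mul' le_rfl (enorm_Duh_le c F k ht'.le)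
        _ = ∫⁻ s in Ioc 0 t, ENNReal.ofReal (Real.exp (-g t)) *
            (ENNReal.ofReal (Real.exp (-(c * sq k * (t - s)))) * ‖F k s‖ₑ) := by
            rw [lintegral_const_mul]
            have := (hF k).enorm.measurable
            fun_prop
        _ ≤ ∫⁻ s in Ioc 0 t, H t s := by
            refine setLIntegral_mono' measurableSet_Ioc fun s hs => ?_
            simp only [H]
            rw [indicator_of_mem (show t ∈ Ici s from hs.2)]
            apply mul_le_mul' _ le_rfl
            apply ENNReal.ofReal_le_ofReal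
            apply Real.exp_le_exp.2
            have := hg hs.2
            linarith
        _ ≤ ∫⁻ s in Ioi 0, H t s := lintegral_mono_set fun s hs => hs.1
    have hH : Measurable (Function.uncurry H) := by
      have e : Function.uncurry H = {p : ℝ × ℝ | p.2 ≤ p.1}.indicator (fun p =>
        ENNReal.ofReal (Real.exp (-g p.2)) *
          (ENNReal.ofReal (Real.exp (-(c * sq k * (p.1 - p.2)))) * ‖F k p.2‖ₑ)) := by
        funext ⟨t, s⟩
        simp only [Function.uncurry, H, indicator, mem_Ici, mem_ofPred_eq]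
      rw [e]
      refine Measurable.indicator ?_ (measurableSet_le measurable_snd measurable_fst)
      have m1 := hgm.comp (measurable_snd : Measurable (Prod.snd : ℝ × ℝ → ℝ))
      have m2 := (hF k).enorm.measurable.comp (measurable_snd : Measurable (Prod.snd : ℝ × ℝ → ℝ))
      refine m1.mul (Measurable.mul ?_ m2)
      fun_prop
    calc ENNReal.ofReal (c * sq k) *
          ∫⁻ t in Ioi 0, ENNReal.ofReal (Real.exp (-g t)) * ‖Duh c F k t‖ₑ
        ≤ ENNReal.ofReal (c * sq k) * ∫⁻ t in Ioi 0, ∫⁻ s in Ioi 0, H t s :=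
          mul_le_mul' le_rfl (setLIntegral_mono' measurableSet_Ioi h1)
      _ = ENNReal.ofReal (c * sq k) * ∫⁻ s in Ioi 0, ∫⁻ t in Ioi 0, H t s := by
          rw [lintegral_lintegral_swap hH.aemeasurable]
      _ = ∫⁻ s in Ioi 0, ENNReal.ofReal (c * sq k) * ∫⁻ t in Ioi 0, H t s := by
          have mH : Measurable fun s => ∫⁻ t in Ioi 0, H t s := Measurable.lintegral_prod_left' hH
          rw [lintegral_const_mul _ mH]
      _ ≤ ∫⁻ s in Ioi 0, ENNReal.ofReal (Real.exp (-g s)) * ‖F k s‖ₑ := by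
          refine lintegral_mono fun s => ?_
          have h3 : ∫⁻ t in Ioi 0, H t s ≤ ENNReal.ofReal (Real.exp (-g s)) * ‖F k s‖ₑ *
              ENNReal.ofReal (1 / (c * sq k)) := by
            calc ∫⁻ t in Ioi 0, H t s ≤ ∫⁻ t, H t s := setLIntegral_le_lintegral _ _
              _ = ∫⁻ t in Ici s, ENNReal.ofReal (Real.exp (-g s)) *
                  (ENNReal.ofReal (Real.exp (-(c * sq k * (t - s)))) * ‖F k s‖ₑ) :=
                  lintegral_indicator measurableSet_Ici _
              _ = ∫⁻ t in Ici s, (ENNReal.ofReal (Real.exp (-g s)) * ‖F k s‖ₑ) *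
                  ENNReal.ofReal (Real.exp (-(c * sq k * (t - s)))) := by
                  refine lintegral_congr fun t => ?_
                  ring
              _ = _ := by
                  rw [lintegral_const_mul _ (by fun_prop), lint_exp hlam]
          calc ENNReal.ofReal (c * sq k) * ∫⁻ t in Ioi 0, H t s
              ≤ ENNReal.ofReal (c * sq k) * (ENNReal.ofReal (Real.exp (-g s)) * ‖F k s‖ₑ *
              ENNReal.ofReal (1 / (c * sq k))) := mul_le_mul' le_rfl h3
            _ = (ENNReal.ofReal (c * sq k) * ENNReal.ofReal (1 / (c * sq k))) *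
                (ENNReal.ofReal (Real.exp (-g s)) * ‖F k s‖ₑ) := by ring
            _ = _ := by
                rw [← ENNReal.ofReal_mul hlam.le, mul_one_div_cancel hlam.ne', ENNReal.ofReal_one,
                  one_mul]
  unfold NW
  simp_rw [← ENNReal.tsum_mul_left]
  rw [lintegral_tsum, lintegral_tsum, ← ENNReal.tsum_mul_left]
  · refine ENNReal.tsum_le_tsum fun k => ?_
    by_cases hk0 : k = 0
    · subst hk0
      simp [Wp, nk_zero]
    have hn := nk_pos hk0
    have m1 : Measurable fun s => ENNReal.ofReal (Real.exp (-g s)) * ‖F k s‖ₑ :=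
      hgm.mul (hF k).enorm.measurable
    have m2 : Measurable fun s => ENNReal.ofReal (Real.exp (-g s)) * ‖Duh c F k s‖ₑ :=
      hgm.mul (Duh_cont hF c k).enorm.measurable
    have e1 : ∫⁻ s in Ioi 0, ENNReal.ofReal (Real.exp (-g s)) * (Wm a k * ‖at' F s k‖ₑ)
        = Wm a k * ∫⁻ s in Ioi 0, ENNReal.ofReal (Real.exp (-g s)) * ‖F k s‖ₑ := by
      rw [← lintegral_const_mul _ m1]
      refine lintegral_congr fun s => ?_
      simp only [at']; ring
    have e2 : ∫⁻ s in Ioi 0, ENNReal.ofReal (Real.exp (-g s)) * (Wp a k * ‖at' (Duh c F) s k‖ₑ)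
        = Wp a k * ∫⁻ s in Ioi 0, ENNReal.ofReal (Real.exp (-g s)) * ‖Duh c F k s‖ₑ := by
      rw [← lintegral_const_mul _ m2]
      refine lintegral_congr fun s => ?_
      simp only [at']; ring
    rw [e1, e2]
    calc ENNReal.ofReal c * (Wp a k * ∫⁻ s in Ioi 0, ENNReal.ofReal (Real.exp (-g s)) * ‖Duh c F k s‖ₑ)
        = Wm a k * (ENNReal.ofReal (c * sq k) *
          ∫⁻ s in Ioi 0, ENNReal.ofReal (Real.exp (-g s)) * ‖Duh c F k s‖ₑ) := by
          rw [← mul_assoc, ← mul_assoc]
          congr 1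
          unfold Wm Wp
          have := om_pos a k
          rw [← ENNReal.ofReal_mul hc.le, ← ENNReal.ofReal_mul (by positivity)]
          congr 1
          rw [← nk_mul_self]
          field_simp
      _ ≤ _ := mul_le_mul' le_rfl (hk k hk0)
  · intro k
    have m1 : Measurable fun s => Wm a k * ‖at' F s k‖ₑ := ((hF k).enorm.measurable).const_mul _
    exact (hgm.mul m1).aemeasurable
  · intro k
    have m1 : Measurable fun s => Wp a k * ‖at' (Duh c F) s k‖ₑ :=
      ((Duh_cont hF c k).enorm.measurable).const_mul _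
    exact (hgm.mul m1).aemeasurable

end Pool.Agent.H356R3.NS
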