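import Pool.Agent.H356R3.NS.Four
import Pool.Agent.H356R3.NS.Defs
import Pool.Agent.H356R3.NS.Crit

open MeasureTheory Set Filter Topology
open scoped ENNReal NNReal ContDiff ComplexConjugate

namespace Pool.Agent.H356R3.NS

lemma ex_neg_eq (k : K) (x : E3) :
    Complex.exp (-(2 * Real.pi * Complex.I * ∑ j, (k j : ℂ) * (x j : ℂ))) = ex (-k) x := by
  unfold ex
  congr 1
  simp only [Pi.neg_apply, Int.cast_neg, neg_mul, Finset.sum_neg_distrib, mul_neg]

lemma fc_eq (v : R3 → R3) (k : K) (i : Fin 3) : fc v k i = ∫ x in Q3, (v x i : ℂ) * ex (-k) x := by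
  unfold fc
  simp only [ex_neg_eq]
  rfl

lemma fc_sym (v : R3 → R3) : Sym (fc v) := by
  intro k i
  rw [fc_eq, fc_eq, Complex.star_def, ← integral_conj]
  refine integral_congr_ae (Filter.Eventually.of_forall fun x => ?_)
  simp only [map_mul, Complex.conj_ofReal]
  rw [← Complex.star_def, ← ex_neg]

lemma ex_hasFDerivAt' (k : K) (x : E3) : HasFDerivAt (ex k)
    ((Ph 0 fun j => fj k j * ex k x).comp (ContinuousLinearMap.inr ℝ ℝ E3)) x := by
  have h := (ex_hasFDerivAt k ((0 : ℝ), x)).comp x ((hasFDerivAt_const (0 : ℝ) x).prodMk (hasFDerivAt_id x))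
  refine h.congr_fderiv (ContinuousLinearMap.ext fun q => ?_)
  rw [ContinuousLinearMap.comp_apply, ContinuousLinearMap.comp_apply, Ph_apply, Ph_apply]
  simp

lemma ex_contDiff (k : K) (n : ℕ) : ContDiff ℝ n (ex k) := by
  induction n with
  | zero => rw [Nat.cast_zero, contDiff_zero]; exact ex_cont k
  | succ n ih =>
    rw [Nat.cast_succ, contDiff_succ_iff_fderiv]
    refine ⟨fun x => (ex_hasFDerivAt' k x).differentiableAt, fun h => absurd h (by simp), ?_⟩
    have e : fderiv ℝ (ex k) = fun x => (Ph 0 fun j => fj k j * ex k x).comp (ContinuousLinearMap.inr ℝ ℝ E3) :=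
      funext fun x => (ex_hasFDerivAt' k x).fderiv
    rw [e]
    refine ContDiff.clm_comp ?_ contDiff_const
    unfold Ph
    refine contDiff_const.add (ContDiff.sum fun j _ => ?_)
    exact (contDiff_const.mul ih).smul contDiff_const

lemma ex_periodic' (k : K) (x : E3) (j : Fin 3) : ex k (x + Pi.single j 1) = ex k x := by
  unfold ex
  have : (2 * Real.pi * Complex.I * ∑ i, (k i : ℂ) * ((x + Pi.single j 1 : E3) i : ℂ))
      = (2 * Real.pi * Complex.I * ∑ i, (k i : ℂ) * (x i : ℂ)) + (k j : ℂ) * (2 * Real.pi * Complex.I) := by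
    have h : ∑ i, (k i : ℂ) * ((x + Pi.single j 1 : E3) i : ℂ) = ∑ i, (k i : ℂ) * (x i : ℂ) + (k j : ℂ) := by
      simp only [Pi.add_apply, Complex.ofReal_add, mul_add, Finset.sum_add_distrib]
      congr 1
      rw [Finset.sum_eq_single j]
      · simp
      · intro b _ hb; simp [hb]
      · simp
    rw [h]; ring
  rw [this, Complex.exp_add, Complex.exp_int_mul_two_pi_mul_I, mul_one]

section
variable {v : R3 → R3} (hv : ContDiff ℝ 1 v) (hp : ∀ x j, v (x + Pi.single j 1) = v x)
include hv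

lemma comp_contDiff (i : Fin 3) : ContDiff ℝ 1 fun x => (v x i : ℂ) :=
  Complex.ofRealCLM.contDiff.comp ((contDiff_apply ℝ ℝ i).comp hv)

lemma comp_fderiv (i j : Fin 3) (x : E3) : fderiv ℝ (fun x => (v x i : ℂ)) x (Pi.single j 1)
    = ((pd j (fun y => v y i) x : ℝ) : ℂ) := by
  have h1 : HasFDerivAt (fun y => v y i) (fderiv ℝ (fun y => v y i) x) x :=
    ((((contDiff_apply ℝ ℝ i).comp hv).differentiable (by norm_num)) x).hasFDerivAt
  have h2 : HasFDerivAt (fun y => ((v y i : ℝ) : ℂ)) (Complex.ofRealCLM.comp (fderiv ℝ (fun y => v y i) x)) x :=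
    Complex.ofRealCLM.hasFDerivAt.comp x h1
  rw [h2.fderiv]
  rfl

lemma pd_cont (i j : Fin 3) : Continuous fun x => pd j (fun y => v y i) x := by
  unfold pd
  exact (((contDiff_apply ℝ ℝ i).comp hv).continuous_fderiv (by norm_num)).clm_apply continuous_const

include hp

lemma fc_deriv (k : K) (i j : Fin 3) :
    ∫ x in Q3, ((pd j (fun y => v y i) x : ℝ) : ℂ) * ex (-k) x = fj k j * fc v k i := by
  have hg : ContDiff ℝ 1 fun x => (v x i : ℂ) * ex (-k) x :=
    (comp_contDiff hv i).mul (by exact_mod_cast ex_contDiff (-k) 1)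
  have hgp : ∀ (x : E3) (j : Fin 3), (fun x => (v x i : ℂ) * ex (-k) x) (x + Pi.single j 1)
      = (fun x => (v x i : ℂ) * ex (-k) x) x := by
    intro x j
    simp only [hp, ex_periodic']
  have h0 := int_deriv_zero hg hgp j
  have e : ∀ x, fderiv ℝ (fun x => (v x i : ℂ) * ex (-k) x) x (Pi.single j 1)
      = ((pd j (fun y => v y i) x : ℝ) : ℂ) * ex (-k) x - fj k j * ((v x i : ℂ) * ex (-k) x) := by
    intro x
    have h1 := ((comp_contDiff hv i).differentiable (by norm_num) x).hasFDerivAt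
    rw [(h1.fun_mul (ex_hasFDerivAt' (-k) x)).fderiv, _root_.add_apply, _root_.smul_apply, _root_.smul_apply,
      comp_fderiv hv, ContinuousLinearMap.comp_apply, Ph_apply]
    have h3 : ∑ l, fj (-k) l * ex (-k) x * (((ContinuousLinearMap.inr ℝ ℝ E3) (Pi.single j 1)).2 l : ℂ)
        = fj (-k) j * ex (-k) x := by
      rw [Finset.sum_eq_single j]
      · simp
      · intro b _ hb; simp [hb]
      · simp
    rw [h3]
    unfold fj
    simp only [zero_mul, zero_add, smul_eq_mul, Pi.neg_apply, Int.cast_neg]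
    ring
  simp only [e] at h0
  have i1 : Integrable (fun x => ((pd j (fun y => v y i) x : ℝ) : ℂ) * ex (-k) x) (volume.restrict Q3) := by
    have : Continuous fun x => ((pd j (fun y => v y i) x : ℝ) : ℂ) * ex (-k) x :=
      (Complex.continuous_ofReal.comp (pd_cont hv i j)).mul (ex_cont _)
    exact this.continuousOn.integrableOn_compact isCompact_Icc
  have i2 : Integrable (fun x => fj k j * ((v x i : ℂ) * ex (-k) x)) (volume.restrict Q3) := by
    have : Continuous fun x => fj k j * ((v x i : ℂ) * ex (-k) x) :=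
      continuous_const.mul (((comp_contDiff hv i).continuous).mul (ex_cont _))
    exact this.continuousOn.integrableOn_compact isCompact_Icc
  rw [integral_sub i1 i2, integral_const_mul, ← fc_eq, sub_eq_zero] at h0
  exact h0

lemma fc_div (hd : ∀ x, ∑ i, pd i (fun y => v y i) x = 0) (k : K) : dt k (fc v k) = 0 := by
  have h1 : ∑ i, fj k i * fc v k i = 0 := by
    simp only [← fc_deriv hv hp]
    rw [← integral_finsetSum]
    · have : ∀ x, ∑ i, ((pd i (fun y => v y i) x : ℝ) : ℂ) * ex (-k) x = 0 := by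
        intro x
        rw [← Finset.sum_mul, ← Complex.ofReal_sum, hd, Complex.ofReal_zero, zero_mul]
      simp [this]
    · intro i _
      have : Continuous fun x => ((pd i (fun y => v y i) x : ℝ) : ℂ) * ex (-k) x :=
        (Complex.continuous_ofReal.comp (pd_cont hv i i)).mul (ex_cont _)
      exact this.continuousOn.integrableOn_compact isCompact_Icc
  have h2 : ∑ i, fj k i * fc v k i = 2 * Real.pi * Complex.I * dt k (fc v k) := by
    unfold fj dt
    rw [Finset.mul_sum]
    exact Finset.sum_congr rfl fun i _ => by ring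
  rw [h2] at h1
  have h3 : (2 * Real.pi * Complex.I : ℂ) ≠ 0 := by
    have : (Real.pi : ℂ) ≠ 0 := by exact_mod_cast Real.pi_ne_zero
    simp [this, Complex.I_ne_zero]
  exact (mul_eq_zero.1 h1).resolve_left h3

lemma fc_summ (i j : Fin 3) : Summable fun k => ‖fj k j * fc v k i‖ ^ 2 := by
  have hm : MemLp (fun x => ((pd j (fun y => v y i) x : ℝ) : ℂ)) 2 (volume.restrict Q3) := by
    have hc : Continuous fun x => ((pd j (fun y => v y i) x : ℝ) : ℂ) :=
      Complex.continuous_ofReal.comp (pd_cont hv i j)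
    obtain ⟨C, hC⟩ := (isCompact_Icc (a := (0 : E3)) (b := 1)).exists_bound_of_continuousOn hc.continuousOn
    refine MemLp.of_bound hc.aestronglyMeasurable C ?_
    exact (ae_restrict_iff' measurableSet_Icc).2 (Filter.Eventually.of_forall fun x hx => hC x hx)
  obtain ⟨C, hC⟩ := bessel hm
  refine summable_of_sum_le (fun k => by positivity) (c := C) fun S => ?_
  refine le_trans (le_of_eq (Finset.sum_congr rfl fun k _ => ?_)) (hC S)
  rw [fc_deriv hv hp]

end

lemma summ_g : Summable fun n : ℤ => (1 + |(n : ℝ)|) ^ (-(4 / 3 : ℝ)) := by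
  have h1 := Real.summable_abs_int_rpow (b := 4 / 3) (by norm_num)
  have h2 : Summable fun n : ℤ => if n = 0 then (1 : ℝ) else 0 :=
    summable_of_ne_finset_zero (s := {0}) fun n hn => by rw [if_neg (by simpa using hn)]
  refine (h1.add h2).of_nonneg_of_le (fun n => by positivity) fun n => ?_
  by_cases h : n = 0
  · subst h; simp
  · rw [if_neg h, add_zero]
    have : 0 < |(n : ℝ)| := abs_pos.2 (by exact_mod_cast h)
    exact Real.rpow_le_rpow_of_nonpos this (by linarith) (by norm_num)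

lemma summ_nk4 : Summable fun k : K => (1 / nk k) ^ 4 := by
  have h := summ_g
  have hn : (0 : ℤ → ℝ) ≤ fun n : ℤ => (1 + |(n : ℝ)|) ^ (-(4 / 3 : ℝ)) := fun n => by
    simp only [Pi.zero_apply]; positivity
  have h2 := h.mul_of_nonneg h hn hn
  have h3 := h.mul_of_nonneg h2 hn (fun p => by
    simp only [Pi.zero_apply]; positivity)
  rw [← eqv.symm.summable_iff]
  refine (h3.mul_left 16).of_nonneg_of_le (fun p => by
    have := nk_nonneg (eqv.symm p)
    simp only [Function.comp_apply]; positivity) fun p => ?_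
  obtain ⟨a, b, c⟩ := p
  set k : K := eqv.symm (a, b, c)
  have e : k = ![a, b, c] := rfl
  rw [Function.comp_apply]
  show (1 / nk k) ^ 4 ≤ _
  by_cases hk : k = 0
  · rw [hk, nk_zero, div_zero, zero_pow (by norm_num)]; positivity
  · have hnk := one_le_nk hk
    have ha : 1 + |(a : ℝ)| ≤ 2 * nk k := by
      have := abs_le_nk k 0
      have e0 : k 0 = a := by rw [e]; rfl
      rw [e0] at this; linarith
    have hb : 1 + |(b : ℝ)| ≤ 2 * nk k := by
      have := abs_le_nk k 1
      have e0 : k 1 = b := by rw [e]; rfl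
      rw [e0] at this; linarith
    have hc : 1 + |(c : ℝ)| ≤ 2 * nk k := by
      have := abs_le_nk k 2
      have e0 : k 2 = c := by rw [e]; rfl
      rw [e0] at this; linarith
    have hm : ∀ {x : ℝ}, 0 < x → x ≤ 2 * nk k → (2 * nk k) ^ (-(4 / 3 : ℝ)) ≤ x ^ (-(4 / 3 : ℝ)) :=
      fun hx h => Real.rpow_le_rpow_of_nonpos hx h (by norm_num)
    have pa : 0 < 1 + |(a : ℝ)| := by positivity
    have pb : 0 < 1 + |(b : ℝ)| := by positivity
    have pc : 0 < 1 + |(c : ℝ)| := by positivity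
    have p2 : 0 < 2 * nk k := by linarith
    have h4 : ((2 * nk k) ^ (-(4 / 3 : ℝ))) * (((2 * nk k) ^ (-(4 / 3 : ℝ))) * ((2 * nk k) ^ (-(4 / 3 : ℝ))))
        = 1 / (2 * nk k) ^ 4 := by
      rw [← Real.rpow_add p2, ← Real.rpow_add p2]
      have : -(4 / 3 : ℝ) + (-(4 / 3) + -(4 / 3)) = -((4 : ℕ) : ℝ) := by norm_num
      rw [this, Real.rpow_neg p2.le, Real.rpow_natCast, one_div]
    calc (1 / nk k) ^ 4 = 16 * (1 / (2 * nk k) ^ 4) := by field_simp; norm_num
      _ = 16 * (((2 * nk k) ^ (-(4 / 3 : ℝ))) * (((2 * nk k) ^ (-(4 / 3 : ℝ))) * ((2 * nk k) ^ (-(4 / 3 : ℝ))))) := by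
          rw [h4]
      _ ≤ _ := by
          have q := Real.rpow_nonneg p2.le (-(4 / 3 : ℝ))
          have qb := Real.rpow_nonneg pb.le (-(4 / 3 : ℝ))
          have qc := Real.rpow_nonneg pc.le (-(4 / 3 : ℝ))
          exact mul_le_mul_of_nonneg_left (mul_le_mul (hm pa ha) (mul_le_mul (hm pb hb) (hm pc hc) q qb)
            (mul_nonneg q q) (Real.rpow_nonneg pa.le _)) (by norm_num)

lemma fc_lei_lin {v : R3 → R3} (hv : ContDiff ℝ 1 v) (hp : ∀ x j, v (x + Pi.single j 1) = v x) :
    ∑' k, ENNReal.ofReal (1 / nk k) * ‖fc v k‖ₑ ≠ ⊤ := by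
  have hS : Summable fun k => (1 / nk k) ^ 4 + ∑ i, ∑ j, ‖fj k j * fc v k i‖ ^ 2 :=
    summ_nk4.add (summable_sum fun i _ => summable_sum fun j _ => fc_summ hv hp i j)
  have hle : ∀ k, 1 / nk k * ‖fc v k‖ ≤ (1 / nk k) ^ 4 + ∑ i, ∑ j, ‖fj k j * fc v k i‖ ^ 2 := by
    intro k
    by_cases hk : k = 0
    · subst hk
      rw [nk_zero]
      simp only [div_zero, zero_mul]
      positivity
    · have hn := one_le_nk hk
      have hn0 : 0 < nk k := by linarith
      have h1 : nk k ^ 2 * ‖fc v k‖ ^ 2 ≤ ∑ i, ∑ j, ‖fj k j * fc v k i‖ ^ 2 := by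
        have h2 : ∀ i, nk k ^ 2 * ‖fc v k i‖ ^ 2 ≤ ∑ j, ‖fj k j * fc v k i‖ ^ 2 := by
          intro i
          rw [nk_sq]
          unfold sq
          rw [Finset.sum_mul]
          refine Finset.sum_le_sum fun j _ => ?_
          rw [norm_mul, mul_pow]
          apply mul_le_mul_of_nonneg_right _ (by positivity)
          unfold fj
          rw [norm_mul, norm_mul, norm_mul, Complex.norm_I, Complex.norm_intCast, Complex.norm_real]
          simp only [Complex.norm_ofNat, Real.norm_eq_abs, abs_of_pos Real.pi_pos, mul_one]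
          rw [mul_pow, sq_abs]
          have h3 := Real.pi_gt_three
          exact le_mul_of_one_le_left (by positivity) (one_le_pow₀ (by linarith))
        have h9 : ‖fc v k‖ ^ 2 ≤ ∑ i, ‖fc v k i‖ ^ 2 := by
          have h10 : ‖fc v k‖ ≤ Real.sqrt (∑ i, ‖fc v k i‖ ^ 2) := by
            rw [pi_norm_le_iff_of_nonneg (Real.sqrt_nonneg _)]
            intro i
            apply Real.le_sqrt_of_sq_le
            exact Finset.single_le_sum (f := fun i => ‖fc v k i‖ ^ 2) (fun i _ => by positivity)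
              (Finset.mem_univ i)
          calc ‖fc v k‖ ^ 2 ≤ (Real.sqrt (∑ i, ‖fc v k i‖ ^ 2)) ^ 2 := by gcongr
            _ = _ := Real.sq_sqrt (by positivity)
        calc nk k ^ 2 * ‖fc v k‖ ^ 2 ≤ nk k ^ 2 * ∑ i, ‖fc v k i‖ ^ 2 := by gcongr
          _ = ∑ i, nk k ^ 2 * ‖fc v k i‖ ^ 2 := by rw [Finset.mul_sum]
          _ ≤ _ := Finset.sum_le_sum fun i _ => h2 i
      have h5 : 1 / nk k * ‖fc v k‖ = (1 / nk k) ^ 2 * (nk k * ‖fc v k‖) := by field_simp
      rw [h5]
      have h6 : 0 ≤ (1 / nk k) ^ 4 := by positivity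
      have h7 : ((1 / nk k) ^ 2) ^ 2 = (1 / nk k) ^ 4 := by ring
      have h8 : (nk k * ‖fc v k‖) ^ 2 = nk k ^ 2 * ‖fc v k‖ ^ 2 := by ring
      nlinarith [sq_nonneg ((1 / nk k) ^ 2 - nk k * ‖fc v k‖), sq_nonneg ((1 / nk k) ^ 2 + nk k * ‖fc v k‖)]
  have hS2 : Summable fun k => 1 / nk k * ‖fc v k‖ :=
    hS.of_nonneg_of_le (fun k => mul_nonneg (one_div_nonneg.2 (nk_nonneg k)) (norm_nonneg _)) hle
  have e : ∀ k, ENNReal.ofReal (1 / nk k) * ‖fc v k‖ₑ = ENNReal.ofReal (1 / nk k * ‖fc v k‖) := by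
    intro k
    rw [ENNReal.ofReal_mul (one_div_nonneg.2 (nk_nonneg k)), ofReal_norm]
  simp only [e]
  rw [← ENNReal.ofReal_tsum_of_nonneg (fun k => mul_nonneg (one_div_nonneg.2 (nk_nonneg k)) (norm_nonneg _)) hS2]
  exact ENNReal.ofReal_ne_top

lemma fc_crit {v : R3 → R3} (hv : ContDiff ℝ 1 v) (hp : ∀ x j, v (x + Pi.single j 1) = v x)
    {r : ℝ} (hr : 1 ≤ r) : crit r (fc v) ≠ ⊤ := by
  refine ne_top_of_le_ne_top ?_ (crit_le hr _)
  exact ENNReal.rpow_ne_top_of_nonneg (by linarith)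
    (ENNReal.mul_ne_top (by simp) (fc_lei_lin hv hp))

end Pool.Agent.H356R3.NS
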