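import Pool.Agent.H356R3.NS.Core
import Pool.Agent.H356R3.NS.Four2

open MeasureTheory Set Filter Topology
open scoped ENNReal NNReal ContDiff ComplexConjugate

namespace Pool.Agent.H356R3.NS

lemma shellSum_eq (a : K → C3) (j : ℕ) : shellSum a j = shell j fun k => ‖a k‖ₑ := by
  unfold shellSum shell
  refine tsum_congr fun k => ?_
  have e : sq k = ((∑ i, k i ^ 2 : ℤ) : ℝ) := by unfold sq; push_cast; rfl
  have h1 : ((4 : ℤ) ^ j ≤ ∑ i, k i ^ 2) ↔ ((4 : ℝ) ^ j ≤ sq k) := by rw [e]; exact_mod_cast Iff.rfl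
  have h2 : (∑ i, k i ^ 2 < (4 : ℤ) ^ (j + 1)) ↔ (sq k < (4 : ℝ) ^ (j + 1)) := by
    rw [e]; exact_mod_cast Iff.rfl
  simp only [h1, h2]

lemma critNorm_eq (r : ℝ) (a : K → C3) : critNorm r a = crit r a ^ (1 / r) := by
  unfold critNorm crit
  simp only [shellSum_eq]

lemma trig_eq {b : K → C3} (hb : (Function.support b).Finite) (x : E3) (i : Fin 3) :
    (∑' k, b k i * ex k x).re = trig b hb.toFinset x i := by
  unfold trig
  congr 1
  refine (tsum_eq_sum (s := hb.toFinset) fun k hk => ?_)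
  have : b k = 0 := by
    by_contra h
    exact hk (by rw [Set.Finite.mem_toFinset]; exact h)
  rw [this]; simp

lemma trig_real {b : K → C3} (hb : (Function.support b).Finite) (hs : Sym b) (x : E3) (i : Fin 3) :
    ((trig b hb.toFinset x i : ℝ) : ℂ) = ∑ k ∈ hb.toFinset, b k i * ex k x := by
  have e : ∑' k, b k i * ex k x = ∑ k ∈ hb.toFinset, b k i * ex k x := by
    refine (tsum_eq_sum (s := hb.toFinset) fun k hk => ?_)
    have : b k = 0 := by
      by_contra h
      exact hk (by rw [Set.Finite.mem_toFinset]; exact h)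
    rw [this]; simp
  have h1 : (SF (fun k _ => b k i) ((0 : ℝ), x)).im = 0 := SF_real (fun k _ => hs k i) _
  have h2 : SF (fun k _ => b k i) ((0 : ℝ), x) = ∑ k ∈ hb.toFinset, b k i * ex k x := e
  rw [h2] at h1
  rw [← trig_eq hb, e]
  exact Complex.ext (by simp) (by simp [h1])

lemma fc_trig {b : K → C3} (hb : (Function.support b).Finite) (hs : Sym b) : fc (trig b hb.toFinset) = b := by
  classical
  funext k i
  rw [fc_eq]
  simp only [trig_real hb hs]
  have e : ∀ x : E3, (∑ l ∈ hb.toFinset, b l i * ex l x) * ex (-k) x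
      = ∑ l ∈ hb.toFinset, b l i * ex (l - k) x := by
    intro x
    rw [Finset.sum_mul]
    refine Finset.sum_congr rfl fun l _ => ?_
    rw [mul_assoc, ← ex_add, ← sub_eq_add_neg]
  simp only [e]
  rw [integral_finsetSum]
  · simp only [integral_const_mul, ex_int, sub_eq_zero, mul_ite, mul_one, mul_zero]
    rw [Finset.sum_ite_eq']
    split_ifs with h
    · rfl
    · have : b k = 0 := by
        by_contra h'
        exact h (by rw [Set.Finite.mem_toFinset]; exact h')
      rw [this]; rfl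
  · intro l _
    have : Continuous fun x => b l i * ex (l - k) x := continuous_const.mul (ex_cont _)
    exact this.continuousOn.integrableOn_compact isCompact_Icc

theorem final {ν : ℝ} (hν : 0 < ν) {r : ℝ} (hr : 2 < r) {u0 : R3 → R3} (hu : ContDiff ℝ 1 u0)
    (hp : ∀ x j, u0 (x + Pi.single j 1) = u0 x) (hd : ∀ x, ∑ i, pd i (fun y => u0 y i) x = 0)
    (K0 : ℕ) {ε : ℝ} (hε : 0 < ε) :
    ∃ (b : (Fin 3 → ℤ) → Fin 3 → ℂ) (F : Finset (Fin 3 → ℤ)),
      (∀ k : Fin 3 → ℤ, (∀ i, |k i| ≤ K0) → fc (trig b F) k = fc u0 k) ∧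
      critNorm r (fun k => fc (trig b F) k - fc u0 k) ≤ ENNReal.ofReal ε ∧
      ∃ u p, AdmissiblePeriodic ν (trig b F) u p ∧
        ∀ t, ε ≤ t → ∀ x i, |u t x i - ∫ y in Icc (0 : R3) 1, u0 y i| ≤ ε := by
  obtain ⟨b, hb, hs, -, hK, hcrit, u, p, hup, hlt⟩ := core hν hr (fc_sym u0) (fc_div hu hp hd)
    (fc_crit hu hp (by linarith)) K0 (ε := ε ^ r) (by positivity) hε
  refine ⟨b, hb.toFinset, ?_, ?_, u, p, ?_, ?_⟩
  · intro k hk
    rw [fc_trig hb hs]; exact hK k hk
  · rw [critNorm_eq]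
    simp only [fc_trig hb hs]
    calc _ ≤ (ENNReal.ofReal (ε ^ r)) ^ (1 / r) := ENNReal.rpow_le_rpow hcrit (by positivity)
      _ = ENNReal.ofReal ε := by
          rw [ENNReal.ofReal_rpow_of_nonneg (by positivity) (by positivity), ← Real.rpow_mul hε.le,
            mul_one_div_cancel (by linarith), Real.rpow_one]
  · have : trig b hb.toFinset = fun x i => (∑' k, b k i * ex k x).re := by
      funext x i; exact (trig_eq hb x i).symm
    rw [this]; exact hup
  · intro t ht x i
    have h0 : (fc u0 0 i).re = ∫ y in Icc (0 : R3) 1, u0 y i := by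
      unfold fc
      have e : ∀ x : R3, ((u0 x i : ℝ) : ℂ) * Complex.exp (-(2 * Real.pi * Complex.I *
          ∑ j, (((0 : Fin 3 → ℤ) j : ℤ) : ℂ) * (x j : ℂ))) = ((u0 x i : ℝ) : ℂ) := by
        intro x; simp
      simp only [e]
      rw [integral_complex_ofReal, Complex.ofReal_re]
    rw [← h0]
    exact hlt t ht x i

end Pool.Agent.H356R3.NS
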