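import Pool.Agent.H356R3.NS.Defs2
import Pool.Agent.H356R3.NS.Core2
import Pool.Agent.H356R3.NS.Final

open MeasureTheory Set Filter Topology
open scoped ENNReal NNReal ContDiff ComplexConjugate

namespace Pool.Agent.H356R3.NS

lemma leiLin_eq (a : K → C3) : leiLin a = ∑' k, ENNReal.ofReal (1 / nk k) * ‖a k‖ₑ := by
  unfold leiLin
  refine tsum_congr fun k => ?_
  by_cases hk : k = 0
  · subst hk; rw [if_pos rfl, nk_zero]; simp
  · rw [if_neg hk]
    have e : Real.sqrt (∑ i, (k i : ℝ) ^ 2) = nk k := rfl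
    have hn := nk_pos' hk
    rw [e, one_div, ENNReal.ofReal_inv_of_pos hn, ENNReal.div_eq_inv_mul]

theorem final2 {ν : ℝ} (hν : 0 < ν) {r : ℝ} (hr : 2 < r) {u0 : R3 → R3} (hu : ContDiff ℝ 1 u0)
    (hp : ∀ x j, u0 (x + Pi.single j 1) = u0 x) (hd : ∀ x, ∑ i, pd i (fun y => u0 y i) x = 0)
    (K0 : ℕ) {ε : ℝ} (hε : 0 < ε) :
    ∃ (b : (Fin 3 → ℤ) → Fin 3 → ℂ) (F : Finset (Fin 3 → ℤ)),
      (∀ k : Fin 3 → ℤ, (∀ i, |k i| ≤ K0) → fc (trig b F) k = fc u0 k) ∧
      critNorm r (fun k => fc (trig b F) k - fc u0 k) ≤ ENNReal.ofReal ε ∧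
      critNorm 2 (fun k => fc (trig b F) k - fc u0 k) ^ 2
        ≤ ENNReal.ofReal (1024 * Real.pi * ν * (leiLin (fc u0)).toReal + ε) ∧
      ∃ u p, AdmissiblePeriodic ν (trig b F) u p ∧
        ∀ t, ε ≤ t → ∀ x i, |u t x i - ∫ y in Icc (0 : R3) 1, u0 y i| ≤ ε := by
  have hεr : 0 < min (ε ^ r) ε := lt_min (by positivity) hε
  obtain ⟨b, hb, hs, -, hK, hcrit, hcrit2, u, p, hup, hlt⟩ := core2 hν hr (fc_sym u0) (fc_div hu hp hd)
    (fc_crit hu hp (by linarith)) (fc_crit hu hp (by norm_num)) K0 (ε := min (ε ^ r) ε) hεr hε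
  refine ⟨b, hb.toFinset, ?_, ?_, ?_, u, p, ?_, ?_⟩
  · intro k hk
    rw [fc_trig hb hs]; exact hK k hk
  · rw [critNorm_eq]
    simp only [fc_trig hb hs]
    calc _ ≤ (ENNReal.ofReal (ε ^ r)) ^ (1 / r) := ENNReal.rpow_le_rpow
            (hcrit.trans (ENNReal.ofReal_le_ofReal (min_le_left _ _))) (by positivity)
      _ = ENNReal.ofReal ε := by
          rw [ENNReal.ofReal_rpow_of_nonneg (by positivity) (by positivity), ← Real.rpow_mul hε.le,
            mul_one_div_cancel (by linarith), Real.rpow_one]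
  · rw [critNorm_eq]
    simp only [fc_trig hb hs]
    rw [leiLin_eq, ← ENNReal.rpow_natCast, ← ENNReal.rpow_mul]
    norm_num only
    rw [ENNReal.rpow_one]
    have hpi := Real.pi_pos
    rw [ENNReal.ofReal_add (by positivity) hε.le, ENNReal.ofReal_mul (by positivity),
      ENNReal.ofReal_toReal (fc_lei_lin hu hp)]
    exact hcrit2.trans (add_le_add le_rfl (ENNReal.ofReal_le_ofReal (min_le_right _ _)))
  · have : trig b hb.toFinset = fun x i => (∑' k, b k i * ex k x).re := by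
      funext x i; exact (trig_eq hb x i).symm
    rw [this]; exact hup
  · intro t ht x i
    have h0 : (fc u0 0 i).re = ∫ y in Icc (0 : R3) 1, u0 y i := by
      unfold fc
      have e : ∀ x : R3, ((u0 x i : ℝ) : ℂ) * Complex.exp (-(2 * Real.pi * Complex.I *
          ∑ j, (((0 : Fin 3 → ℤ) j : ℤ) : ℂ) * (x j : ℂ))) = ((u0 x i : ℝ) : ℂ) := by
        intro x; simp
      simp only [e]
      rw [integral_complex_ofReal, Complex.ofReal_re]
    rw [← h0]
    exact hlt t ht x i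

end Pool.Agent.H356R3.NS
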