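import Pool.Agent.H356R3.NS.Duh

open MeasureTheory Set Filter Topology
open scoped ENNReal NNReal

namespace Pool.Agent.H356R3.NS

lemma summ_int {b : ℝ} (hb : 0 < b) : Summable fun n : ℤ => Real.exp (-(b * |(n : ℝ)|)) := by
  have h1 : Summable fun n : ℕ => Real.exp (-(b * n)) := by
    have : ∀ n : ℕ, Real.exp (-(b * n)) = (Real.exp (-b)) ^ n := by
      intro n; rw [← Real.exp_nat_mul]; congr 1; ring
    simp only [this]
    exact summable_geometric_of_lt_one (Real.exp_pos _).le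
      (by simpa using Real.exp_lt_exp.2 (show -b < 0 by linarith))
  apply Summable.of_nat_of_neg
  · simpa using h1
  · simpa using h1

def eqv : K ≃ ℤ × ℤ × ℤ where
  toFun k := (k 0, k 1, k 2)
  invFun p := ![p.1, p.2.1, p.2.2]
  left_inv k := by funext i; fin_cases i <;> rfl
  right_inv p := rfl

lemma summ_exp {b : ℝ} (hb : 0 < b) : Summable fun k : K => Real.exp (-(b * l1 k)) := by
  have h := summ_int hb
  have hn : (0 : ℤ → ℝ) ≤ fun n : ℤ => Real.exp (-(b * |(n : ℝ)|)) := fun n => (Real.exp_pos _).le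
  have h2 := h.mul_of_nonneg h hn hn
  have h3 := h.mul_of_nonneg h2 hn (fun p => by
    simp only [Pi.zero_apply]; positivity)
  rw [← eqv.symm.summable_iff]
  refine h3.congr fun p => ?_
  have e : eqv.symm p = ![p.1, p.2.1, p.2.2] := rfl
  rw [Function.comp_apply, e]
  simp only [l1, Fin.sum_univ_three]
  rw [← Real.exp_add, ← Real.exp_add]
  congr 1
  simp only [Matrix.cons_val_zero, Matrix.cons_val_one, Matrix.cons_val]
  ring

lemma summ_nk {b : ℝ} (hb : 0 < b) : Summable fun k : K => nk k * Real.exp (-(b * l1 k)) := by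
  have h := (summ_exp (half_pos hb)).mul_left (2 / b)
  refine h.of_nonneg_of_le (fun k => mul_nonneg (nk_nonneg k) (Real.exp_pos _).le) fun k => ?_
  have h1 : nk k ≤ 2 / b * Real.exp (b / 2 * l1 k) := by
    have h2 : b / 2 * l1 k + 1 ≤ Real.exp (b / 2 * l1 k) := Real.add_one_le_exp _
    have h3 := nk_le_l1 k
    rw [div_mul_eq_mul_div, le_div_iff₀ hb]
    nlinarith
  calc nk k * Real.exp (-(b * l1 k)) ≤ 2 / b * Real.exp (b / 2 * l1 k) * Real.exp (-(b * l1 k)) :=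
        mul_le_mul_of_nonneg_right h1 (Real.exp_pos _).le
    _ = 2 / b * Real.exp (-(b / 2 * l1 k)) := by
        rw [mul_assoc, ← Real.exp_add]; congr 2; ring

/-- Dominated families. -/
def Dom (u : Fam) : Prop := ∃ b : K → ℝ, Summable b ∧ ∀ k t, ‖u k t‖ ≤ b k

lemma Dom.sn {u : Fam} (h : Dom u) (t : ℝ) : SN (at' u t) := by
  obtain ⟨b, hb, h⟩ := h
  exact hb.of_nonneg_of_le (fun _ => norm_nonneg _) fun k => h k t

lemma Dom.add {u v : Fam} (hu : Dom u) (hv : Dom v) : Dom (u + v) := by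
  obtain ⟨b, hb, h⟩ := hu
  obtain ⟨b', hb', h'⟩ := hv
  exact ⟨fun k => b k + b' k, hb.add hb', fun k t => (norm_add_le _ _).trans (add_le_add (h k t) (h' k t))⟩

/-- The nonlinear term of a family. -/
noncomputable def Bt (u : Fam) : Fam := fun k t => Bf (at' u t) (at' u t) k

lemma cv_cont {u v : Fam} (hu : CF u) (hv : CF v) (hu' : Dom u) (hv' : Dom v) (k : K) (i j : Fin 3) :
    Continuous fun t => cv (at' u t) (at' v t) k i j := by
  obtain ⟨b, hb, h⟩ := hu'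
  obtain ⟨b', hb', h'⟩ := hv'
  have hb0 : ∀ k, 0 ≤ b k := fun k => (norm_nonneg _).trans (h k 0)
  have hb0' : ∀ k, 0 ≤ b' k := fun k => (norm_nonneg _).trans (h' k 0)
  unfold cv at'
  refine continuous_tsum (u := fun l => b l * ∑' l', b' l') (fun l => ?_) (hb.mul_right _) fun l t => ?_
  · exact ((continuous_apply i).comp (hu l)).mul ((continuous_apply j).comp (hv (k - l)))
  · rw [norm_mul]
    apply mul_le_mul ((norm_le_pi_norm _ i).trans (h l t)) _ (norm_nonneg _) (hb0 l)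
    exact ((norm_le_pi_norm _ j).trans (h' (k - l) t)).trans (hb'.le_tsum (k - l) fun _ _ => hb0' _)

lemma BB_cont {u v : Fam} (hu : CF u) (hv : CF v) (hu' : Dom u) (hv' : Dom v) :
    CF (fun k t => Bf (at' u t) (at' v t) k) := by
  intro k
  refine continuous_pi fun i => ?_
  unfold Bf
  refine continuous_finsetSum _ fun j _ => continuous_finsetSum _ fun m _ => ?_
  exact continuous_const.mul (cv_cont hu hv hu' hv' k j m)

lemma Bt_cont {u : Fam} (hu : CF u) (hu' : Dom u) : CF (Bt u) := BB_cont hu hu hu' hu'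

lemma NW_one_le {x : K → C3} {b : K → ℝ} (hb : Summable b) (h : ∀ k, ‖x k‖ ≤ b k) :
    ∑' k, ‖x k‖ₑ ≤ ENNReal.ofReal (∑' k, b k) := by
  have hb0 : ∀ k, 0 ≤ b k := fun k => (norm_nonneg _).trans (h k)
  rw [ENNReal.ofReal_tsum_of_nonneg hb0 hb]
  refine ENNReal.tsum_le_tsum fun k => ?_
  rw [← ofReal_norm]
  exact ENNReal.ofReal_le_ofReal (h k)

lemma norm_Bf_le {x : K → C3} {b : K → ℝ} (hb : Summable b) (h : ∀ k, ‖x k‖ ≤ b k) (k : K) :
    ‖Bf x x k‖ ≤ C0 * nk k * ((∑' k, b k) * ∑' k, b k) := by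
  have hb0 : ∀ k, 0 ≤ b k := fun k => (norm_nonneg _).trans (h k)
  have hC := C0_pos
  have hn := nk_nonneg k
  have ht : 0 ≤ ∑' k, b k := tsum_nonneg hb0
  have h1 := enorm_Bf_le x x k
  have h2 : ∑' l, ‖x l‖ₑ * ‖x (k - l)‖ₑ ≤ ENNReal.ofReal ((∑' k, b k) * ∑' k, b k) := by
    rw [ENNReal.ofReal_mul ht]
    calc ∑' l, ‖x l‖ₑ * ‖x (k - l)‖ₑ ≤ ∑' l, ‖x l‖ₑ * ∑' l', ‖x l'‖ₑ :=
          ENNReal.tsum_le_tsum fun l => mul_le_mul' le_rfl (ENNReal.le_tsum (k - l))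
      _ = (∑' l, ‖x l‖ₑ) * ∑' l', ‖x l'‖ₑ := ENNReal.tsum_mul_right
      _ ≤ _ := mul_le_mul' (NW_one_le hb h) (NW_one_le hb h)
  have h3 : ‖Bf x x k‖ₑ ≤ ENNReal.ofReal (C0 * nk k * ((∑' k, b k) * ∑' k, b k)) := by
    rw [ENNReal.ofReal_mul (by positivity)]
    exact h1.trans (mul_le_mul' le_rfl h2)
  rw [← ofReal_norm] at h3
  exact (ENNReal.ofReal_le_ofReal_iff (by positivity)).1 h3

/-- Pointwise bound from the weighted norm. -/
lemma norm_le_of_NWm {a M : ℝ} (hM : 0 ≤ M) {x : K → C3} (h0 : x 0 = 0)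
    (h : NW (Wm a) x ≤ ENNReal.ofReal M) (k : K) : ‖x k‖ ≤ M * (nk k * Real.exp (-(a * l1 k))) := by
  by_cases hk : k = 0
  · subst hk; simp [h0, nk_zero]
  have hn := nk_pos hk
  have h1 : Wm a k * ‖x k‖ₑ ≤ ENNReal.ofReal M := (ENNReal.le_tsum k).trans h
  unfold Wm at h1
  rw [← ofReal_norm, ← ENNReal.ofReal_mul (div_nonneg (om_pos a k).le hn.le)] at h1
  have h2 := (ENNReal.ofReal_le_ofReal_iff hM).1 h1
  rw [Real.exp_neg]
  have h3 : om a k = Real.exp (a * l1 k) := rfl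
  rw [← h3]
  have h4 := om_pos a k
  rw [div_mul_eq_mul_div, div_le_iff₀ hn] at h2
  rw [← mul_assoc, ← div_eq_mul_inv, le_div_iff₀ h4]
  linarith

lemma dom_of_NWm {a M : ℝ} (ha : 0 < a) (hM : 0 ≤ M) {u : Fam} (h0 : ∀ t, u 0 t = 0)
    (h : ∀ t, NW (Wm a) (at' u t) ≤ ENNReal.ofReal M) : Dom u :=
  ⟨_, (summ_nk ha).mul_left M, fun k t => norm_le_of_NWm hM (h0 t) (h t) k⟩

/-- Lower semicontinuity. -/
lemma NW_le_liminf {W : K → ℝ≥0∞} (hW : ∀ k, W k ≠ ⊤) {x : ℕ → K → C3} {y : K → C3}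
    (h : ∀ k, Tendsto (fun n => x n k) atTop (𝓝 (y k))) :
    NW W y ≤ liminf (fun n => NW W (x n)) atTop := by
  refine le_of_forall_lt fun c hc => ?_
  unfold NW at hc
  rw [ENNReal.tsum_eq_iSup_sum, lt_iSup_iff] at hc
  obtain ⟨s, hs⟩ := hc
  have h1 : Tendsto (fun n => ∑ k ∈ s, W k * ‖x n k‖ₑ) atTop (𝓝 (∑ k ∈ s, W k * ‖y k‖ₑ)) := by
    refine tendsto_finsetSum _ fun k _ => ?_
    exact ENNReal.Tendsto.const_mul ((continuous_enorm.tendsto _).comp (h k)) (Or.inr (hW k))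
  calc c < ∑ k ∈ s, W k * ‖y k‖ₑ := hs
    _ = liminf (fun n => ∑ k ∈ s, W k * ‖x n k‖ₑ) atTop := h1.liminf_eq.symm
    _ ≤ _ := liminf_le_liminf (Filter.Eventually.of_forall fun n => ENNReal.sum_le_tsum s)

lemma NW_le_of_tendsto {W : K → ℝ≥0∞} (hW : ∀ k, W k ≠ ⊤) {x : ℕ → K → C3} {y : K → C3}
    (h : ∀ k, Tendsto (fun n => x n k) atTop (𝓝 (y k))) {C : ℝ≥0∞} (hC : ∀ n, NW W (x n) ≤ C) :
    NW W y ≤ C := by
  refine (NW_le_liminf hW h).trans ?_
  calc liminf (fun n => NW W (x n)) atTop ≤ liminf (fun _ : ℕ => C) atTop :=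
        liminf_le_liminf (Filter.Eventually.of_forall hC)
    _ = C := liminf_const C

lemma Wm_ne_top (a : ℝ) (k : K) : Wm a k ≠ ⊤ := ENNReal.ofReal_ne_top
lemma Wa_ne_top (a : ℝ) (k : K) : Wa a k ≠ ⊤ := ENNReal.ofReal_ne_top

end Pool.Agent.H356R3.NS
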