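import Pool.Agent.H356R3.NS.Fix

open MeasureTheory Set Filter Topology
open scoped ENNReal NNReal

namespace Pool.Agent.H356R3.NS

lemma cv_tendsto {x : ℕ → K → C3} {y : K → C3} {b : K → ℝ} (hb : Summable b)
    (h : ∀ n k, ‖x n k‖ ≤ b k) (ht : ∀ k, Tendsto (fun n => x n k) atTop (𝓝 (y k)))
    (k : K) (i j : Fin 3) : Tendsto (fun n => cv (x n) (x n) k i j) atTop (𝓝 (cv y y k i j)) := by
  have hb0 : ∀ k, 0 ≤ b k := fun k => (norm_nonneg _).trans (h 0 k)
  unfold cv
  refine tendsto_tsum_of_dominated_convergence (bound := fun l => b l * ∑' l', b l')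
    (hb.mul_right _) (fun l => ?_) (Filter.Eventually.of_forall fun n l => ?_)
  · have h1 : Tendsto (fun n => x n l i) atTop (𝓝 (y l i)) :=
      ((continuous_apply i).tendsto _).comp (ht l)
    have h2 : Tendsto (fun n => x n (k - l) j) atTop (𝓝 (y (k - l) j)) :=
      ((continuous_apply j).tendsto _).comp (ht (k - l))
    exact h1.mul h2
  · rw [norm_mul]
    apply mul_le_mul ((norm_le_pi_norm _ i).trans (h n l)) _ (norm_nonneg _) (hb0 l)
    exact ((norm_le_pi_norm _ j).trans (h n (k - l))).trans (hb.le_tsum (k - l) fun _ _ => hb0 _)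

lemma Bf_tendsto {x : ℕ → K → C3} {y : K → C3} {b : K → ℝ} (hb : Summable b)
    (h : ∀ n k, ‖x n k‖ ≤ b k) (ht : ∀ k, Tendsto (fun n => x n k) atTop (𝓝 (y k)))
    (k : K) : Tendsto (fun n => Bf (x n) (x n) k) atTop (𝓝 (Bf y y k)) := by
  refine tendsto_pi_nhds.2 fun i => ?_
  unfold Bf
  exact tendsto_finsetSum _ fun j _ => tendsto_finsetSum _ fun m _ =>
    (cv_tendsto hb h ht k j m).const_mul _

variable {c D Lam ρ : ℝ}

theorem exist (hp : Par c D Lam ρ) {a : ℝ} (ha : 0 < a) {A : ℝ → ℝ} (hA : Continuous A)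
    (hA0 : ∀ t, 0 ≤ A t) (hAi : LN (fun t => ENNReal.ofReal (A t)) ≤ ENNReal.ofReal D)
    {U FE : Fam} (hU : CF U) (hUd : Dom U) (hUs : SymF U)
    (hUA : ∀ t, 0 < t → NW (Wa a) (at' U t) ≤ ENNReal.ofReal (A t))
    (hFE : CF FE) (hFEs : SymF FE) (hFE0 : ∀ t, FE 0 t = 0) {η : ℝ} (hη : 0 ≤ η)
    (hη2 : η ^ 2 ≤ c * (ρ / 2) ^ 2)
    (hFEi : ∫⁻ s in Ioi 0, NW (Wm a) (at' FE s) ≤ ENNReal.ofReal η) :
    ∃ (r : Fam) (M : ℝ), 0 ≤ M ∧ CF r ∧ (∀ t, r 0 t = 0) ∧
      (∀ t, NW (Wm a) (at' r t) ≤ ENNReal.ofReal M) ∧ LF (gw Lam A) a r ≤ ENNReal.ofReal ρ ∧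
      r = Duh c (FE + (Bt (U + r) - Bt U)) ∧ SymF r := by
  have hc := hp.hc
  have hρ := hp.hρ
  have hD := hp.hD
  have hL := hp.hL
  have hC := C0_pos
  have hinv := inv_all hp ha hA hA0 hAi hU hUd hUA hFE hFE0 hη hη2 hFEi
  set g := gw Lam A
  have hg : Monotone g := gw_mono hL.le hA
  set M := η + Real.exp (Lam * D ^ 2) * (3 * C0 * D) * ρ
  have hM : 0 < M := by positivity
  set R := It c U FE
  have hR0 : R 0 = 0 := rfl
  set w : K → ℝ := fun k => nk k * Real.exp (-(a * l1 k))
  have hw : Summable w := summ_nk ha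
  have hw0 : ∀ k, 0 ≤ w k := fun k => mul_nonneg (nk_nonneg k) (Real.exp_pos _).le
  have hd : ∀ n k t, ‖R (n + 1) k t - R n k t‖ ≤ M * (1 / 2) ^ n * w k := by
    intro n k t
    have := norm_le_of_NWm (M := M * (1 / 2) ^ n) (by positivity)
      (x := at' (R (n + 1) - R n) t) (by
        simp only [at', Pi.sub_apply, (hinv (n + 1)).z, (hinv n).z, sub_self]) ((hinv n).nmd t) k
    exact this
  have hRb : ∀ n k t, ‖R n k t‖ ≤ 2 * M * w k := by
    intro n k t
    have h1 : NW (Wm a) (at' (R n) t) ≤ ENNReal.ofReal (2 * M) := by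
      refine ((hinv n).nm t).trans (ENNReal.ofReal_le_ofReal ?_)
      have : (0 : ℝ) ≤ (1 / 2) ^ n := by positivity
      nlinarith
    exact norm_le_of_NWm (by positivity) ((hinv n).z t) h1 k
  have hgeo : ∀ k, Summable fun n : ℕ => M * (1 / 2) ^ n * w k := fun k =>
    ((summable_geometric_of_lt_one (by norm_num) (by norm_num : (1 / 2 : ℝ) < 1)).mul_left M).mul_right _
  set r : Fam := fun k t => ∑' n, (R (n + 1) k t - R n k t)
  have hsm : ∀ k t, Summable fun n => R (n + 1) k t - R n k t := fun k t =>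
    Summable.of_norm_bounded (hgeo k) fun n => hd n k t
  have htend : ∀ k t, Tendsto (fun n => R n k t) atTop (𝓝 (r k t)) := by
    intro k t
    have h1 := (hsm k t).hasSum.tendsto_sum_nat
    have h2 : ∀ n, ∑ j ∈ Finset.range n, (R (j + 1) k t - R j k t) = R n k t := by
      intro n
      rw [Finset.sum_range_sub (fun j => R j k t), hR0]
      simp
    simpa only [h2] using h1
  have hrc : CF r := by
    intro k
    refine continuous_tsum (u := fun n : ℕ => M * (1 / 2) ^ n * w k) (fun n => ?_) (hgeo k)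
      fun n t => hd n k t
    exact ((hinv (n + 1)).cf k).sub ((hinv n).cf k)
  have hr0 : ∀ t, r 0 t = 0 := by
    intro t
    simp only [r, (hinv _).z, sub_self, tsum_zero]
  have hrb : ∀ k t, ‖r k t‖ ≤ 2 * M * w k := fun k t =>
    le_of_tendsto ((htend k t).norm) (Filter.Eventually.of_forall fun n => hRb n k t)
  have hrd : Dom r := ⟨_, hw.mul_left (2 * M), hrb⟩
  have hRd : ∀ n, Dom (R n) := fun n => ⟨_, hw.mul_left (2 * M), hRb n⟩
  have hRn : ∀ t, NW (Wm a) (at' r t) ≤ ENNReal.ofReal (2 * M) := by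
    intro t
    refine NW_le_of_tendsto (Wm_ne_top a) (x := fun n => at' (R n) t) (fun k => htend k t) fun n => ?_
    refine ((hinv n).nm t).trans (ENNReal.ofReal_le_ofReal ?_)
    have : (0 : ℝ) ≤ (1 / 2) ^ n := by positivity
    nlinarith
  have hgm : Measurable fun t => ENNReal.ofReal (Real.exp (-g t)) :=
    ENNReal.measurable_ofReal.comp (Real.measurable_exp.comp hg.measurable.neg)
  have hLF : LF g a r ≤ ENNReal.ofReal ρ := by
    have h1 : ∀ n, LF g a (R n) ≤ ENNReal.ofReal ρ := by
      intro n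
      refine ((hinv n).lf).trans (ENNReal.ofReal_le_ofReal ?_)
      have : (0 : ℝ) ≤ (1 / 2) ^ n := by positivity
      nlinarith
    unfold LF LN at h1 ⊢
    have h2 : ∀ n, ∫⁻ t in Ioi 0, (ENNReal.ofReal (Real.exp (-g t)) * NW (Wa a) (at' (R n) t)) ^ (2 : ℝ)
        ≤ ENNReal.ofReal ρ ^ (2 : ℝ) := by
      intro n
      have := ENNReal.rpow_le_rpow (h1 n) (by norm_num : (0 : ℝ) ≤ 2)
      rw [← ENNReal.rpow_mul] at this
      norm_num at this
      simpa using this
    have h3 : ∫⁻ t in Ioi 0, (ENNReal.ofReal (Real.exp (-g t)) * NW (Wa a) (at' r t)) ^ (2 : ℝ)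
        ≤ ENNReal.ofReal ρ ^ (2 : ℝ) := by
      calc ∫⁻ t in Ioi 0, (ENNReal.ofReal (Real.exp (-g t)) * NW (Wa a) (at' r t)) ^ (2 : ℝ)
          ≤ ∫⁻ t in Ioi 0, liminf (fun n => (ENNReal.ofReal (Real.exp (-g t)) *
            NW (Wa a) (at' (R n) t)) ^ (2 : ℝ)) atTop := by
            refine lintegral_mono fun t => ?_
            set e := ENNReal.ofReal (Real.exp (-g t))
            have hmono : Monotone fun x : ℝ≥0∞ => (e * x) ^ (2 : ℝ) := fun x y h =>
              ENNReal.rpow_le_rpow (mul_le_mul' le_rfl h) (by norm_num)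
            have hcont : Continuous fun x : ℝ≥0∞ => (e * x) ^ (2 : ℝ) :=
              (ENNReal.continuous_rpow_const).comp
                (ENNReal.continuous_const_mul ENNReal.ofReal_ne_top)
            have h5 := hmono.map_liminf_of_continuousAt (F := atTop)
              (fun n => NW (Wa a) (at' (R n) t)) hcont.continuousAt
            have h6 : NW (Wa a) (at' r t) ≤ liminf (fun n => NW (Wa a) (at' (R n) t)) atTop :=
              NW_le_liminf (Wa_ne_top a) (x := fun n => at' (R n) t) (fun k => htend k t)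
            refine (hmono h6).trans ?_
            exact le_of_eq h5
        _ ≤ liminf (fun n => ∫⁻ t in Ioi 0, (ENNReal.ofReal (Real.exp (-g t)) *
            NW (Wa a) (at' (R n) t)) ^ (2 : ℝ)) atTop := by
            refine lintegral_liminf_le fun n => ?_
            exact (hgm.mul (NW_meas _ (hinv n).cf)).pow_const _
        _ ≤ liminf (fun _ : ℕ => ENNReal.ofReal ρ ^ (2 : ℝ)) atTop :=
            liminf_le_liminf (Filter.Eventually.of_forall h2)
        _ = _ := liminf_const _
    calc _ ≤ (ENNReal.ofReal ρ ^ (2 : ℝ)) ^ (1 / 2 : ℝ) := ENNReal.rpow_le_rpow h3 (by norm_num)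
      _ = _ := by rw [← ENNReal.rpow_mul]; norm_num
  obtain ⟨bU, hbU, hbU'⟩ := id hUd
  have hbU0 : ∀ k, 0 ≤ bU k := fun k => (norm_nonneg _).trans (hbU' k 0)
  set b : K → ℝ := fun k => bU k + 2 * M * w k
  have hb : Summable b := hbU.add (hw.mul_left _)
  have hURb : ∀ n k t, ‖U k t + R n k t‖ ≤ b k := fun n k t =>
    (norm_add_le _ _).trans (add_le_add (hbU' k t) (hRb n k t))
  have hURn : ∀ n, CF (U + R n) := fun n k => (hU k).add ((hinv n).cf k)
  have hUr : CF (U + r) := fun k => (hU k).add (hrc k)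
  have hfix : r = Duh c (FE + (Bt (U + r) - Bt U)) := by
    funext k t
    have h1 : Tendsto (fun n => R (n + 1) k t) atTop (𝓝 (r k t)) :=
      (htend k t).comp (tendsto_add_atTop_nat 1)
    have h2 : Tendsto (fun n => Duh c (FE + (Bt (U + R n) - Bt U)) k t) atTop
        (𝓝 (Duh c (FE + (Bt (U + r) - Bt U)) k t)) := by
      unfold Duh
      refine intervalIntegral.tendsto_integral_filter_of_dominated_convergence
        (bound := fun s => ‖FE k s‖ + (C0 * nk k * ((∑' k, b k) * ∑' k, b k) + ‖Bt U k s‖)) ?_ ?_ ?_ ?_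
      · refine Filter.Eventually.of_forall fun n => Continuous.aestronglyMeasurable ?_
        have h3 : Continuous ((FE + (Bt (U + R n) - Bt U)) k) :=
          (hFE k).add ((Bt_cont (hURn n) (hUd.add (hRd n)) k).sub (Bt_cont hU hUd k))
        fun_prop
      · refine Filter.Eventually.of_forall fun n => Filter.Eventually.of_forall fun s hs => ?_
        rw [uIoc_of_le (le_max_right t 0)] at hs
        rw [norm_smul, Real.norm_of_nonneg (Real.exp_pos _).le]
        have h4 : Real.exp (-(c * sq k * (max t 0 - s))) ≤ 1 := by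
          rw [Real.exp_le_one_iff]
          have h5 := sq_nonneg' k
          have h6 : 0 ≤ max t 0 - s := sub_nonneg.2 hs.2
          have : 0 ≤ c * sq k * (max t 0 - s) := by positivity
          linarith
        have h7 : ‖(FE + (Bt (U + R n) - Bt U)) k s‖ ≤
            ‖FE k s‖ + (C0 * nk k * ((∑' k, b k) * ∑' k, b k) + ‖Bt U k s‖) := by
          refine (norm_add_le _ _).trans (add_le_add le_rfl ?_)
          refine (norm_sub_le _ _).trans (add_le_add ?_ le_rfl)
          exact norm_Bf_le hb (fun k => hURb n k s) k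
        calc _ ≤ 1 * ‖(FE + (Bt (U + R n) - Bt U)) k s‖ :=
              mul_le_mul_of_nonneg_right h4 (norm_nonneg _)
          _ ≤ _ := by rw [one_mul]; exact h7
      · apply Continuous.intervalIntegrable
        have h8 := hFE k
        have h9 := Bt_cont hU hUd k
        fun_prop
      · refine Filter.Eventually.of_forall fun s _ => ?_
        refine Tendsto.const_smul ?_ _
        refine Tendsto.const_add _ (Tendsto.sub_const ?_ _)
        exact Bf_tendsto hb (fun n k => hURb n k s) (fun k => (htend k s).const_add _) k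
    exact tendsto_nhds_unique h1 h2
  have hRs : ∀ n, SymF (R n) := by
    intro n
    induction n with
    | zero =>
      rw [hR0]; intro t k i; simp [at']
    | succ n ih =>
      have h3 : CF (FE + (Bt (U + R n) - Bt U)) := fun k =>
          (hFE k).add ((Bt_cont (hURn n) (hUd.add (hRd n)) k).sub (Bt_cont hU hUd k))
      refine Duh_sym ?_ h3
      intro t
      have e1 : SymF (U + R n) := fun t => (hUs t).add (ih t)
      exact (hFEs t).add ((Bt_sym e1 t).sub (Bt_sym hUs t))
  refine ⟨r, 2 * M, by positivity, hrc, hr0, hRn, hLF, hfix, ?_⟩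
  intro t k i
  have h1 : Tendsto (fun n => R n (-k) t i) atTop (𝓝 (r (-k) t i)) :=
    ((continuous_apply i).tendsto _).comp (htend (-k) t)
  have h2 : Tendsto (fun n => star (R n k t i)) atTop (𝓝 (star (r k t i))) :=
    ((continuous_star.comp (continuous_apply i)).tendsto _).comp (htend k t)
  have h3 : (fun n => R n (-k) t i) = fun n => star (R n k t i) := by
    funext n
    exact hRs n t k i
  rw [h3] at h1
  exact tendsto_nhds_unique h1 h2

end Pool.Agent.H356R3.NS
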