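import Pool.Agent.H356R3.NS.Reg2

open MeasureTheory Set Filter Topology
open scoped ENNReal NNReal ContDiff ComplexConjugate

namespace Pool.Agent.H356R3.NS

/-- the unit cube -/
def Q3 : Set E3 := Icc 0 1

lemma Q3_eq : Q3 = Set.univ.pi fun _ : Fin 3 => Icc (0 : ℝ) 1 := by
  unfold Q3
  rw [← Set.pi_univ_Icc]; rfl

lemma Q3_vol : (volume : Measure E3) Q3 = 1 := by
  unfold Q3
  rw [Real.volume_Icc_pi]; simp

instance Q3_fin : IsFiniteMeasure (volume.restrict Q3 : Measure E3) := by
  constructor
  rw [Measure.restrict_apply_univ, Q3_vol]; exact ENNReal.one_lt_top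

lemma int1 (n : ℤ) : ∫ t in Icc (0 : ℝ) 1, Complex.exp (2 * Real.pi * Complex.I * ((n : ℂ) * (t : ℂ)))
    = if n = 0 then 1 else 0 := by
  rw [integral_Icc_eq_integral_Ioc, ← intervalIntegral.integral_of_le zero_le_one]
  split_ifs with h
  · subst h; simp
  · have hc : (2 * Real.pi * Complex.I * (n : ℂ)) ≠ 0 := by
      have h1 : (n : ℂ) ≠ 0 := by exact_mod_cast h
      have h2 : (Real.pi : ℂ) ≠ 0 := by exact_mod_cast Real.pi_ne_zero
      simp [h1, h2, Complex.I_ne_zero]
    have e : ∀ t : ℝ, Complex.exp (2 * Real.pi * Complex.I * ((n : ℂ) * (t : ℂ)))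
        = Complex.exp ((2 * Real.pi * Complex.I * (n : ℂ)) * (t : ℂ)) := fun t => by congr 1; ring
    simp only [e]
    rw [integral_exp_mul_complex hc]
    have h3 : Complex.exp (2 * Real.pi * Complex.I * (n : ℂ) * ((1 : ℝ) : ℂ)) = 1 := by
      rw [Complex.ofReal_one, mul_one, mul_comm]
      exact Complex.exp_int_mul_two_pi_mul_I n
    rw [h3]
    simp

lemma ex_prod (k : K) (x : E3) :
    ex k x = ∏ j, Complex.exp (2 * Real.pi * Complex.I * ((k j : ℂ) * (x j : ℂ))) := by
  unfold ex
  rw [← Complex.exp_sum, Finset.mul_sum]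

lemma ex_int (k : K) : ∫ x in Q3, ex k x = if k = 0 then 1 else 0 := by
  have h1 : (volume.restrict Q3 : Measure E3) = Measure.pi fun _ => (volume.restrict (Icc (0 : ℝ) 1)) := by
    rw [Q3_eq, volume_pi, Measure.restrict_pi_pi]
  rw [h1]
  simp only [ex_prod]
  rw [integral_fintype_prod_eq_prod (fun j (t : ℝ) => Complex.exp (2 * Real.pi * Complex.I * ((k j : ℂ) * (t : ℂ))))]
  simp only [int1]
  split_ifs with h
  · subst h; simp
  · obtain ⟨j, hj⟩ := Function.ne_iff.1 h
    exact Finset.prod_eq_zero (Finset.mem_univ j) (if_neg hj)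

lemma ex_memLp (k : K) : MemLp (ex k) 2 (volume.restrict Q3) :=
  MemLp.of_bound (ex_cont k).aestronglyMeasurable 1 (Filter.Eventually.of_forall fun x => (norm_ex k x).le)

lemma inner_toLp {f g : E3 → ℂ} (hf : MemLp f 2 (volume.restrict Q3))
    (hg : MemLp g 2 (volume.restrict Q3)) :
    inner ℂ (hf.toLp f) (hg.toLp g) = ∫ x in Q3, g x * conj (f x) := by
  rw [L2.inner_def]
  refine integral_congr_ae ?_
  filter_upwards [hf.coeFn_toLp, hg.coeFn_toLp] with x h1 h2
  rw [h1, h2]
  rfl

lemma ex_mul_conj (k l : K) (x : E3) : ex l x * conj (ex k x) = ex (l - k) x := by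
  rw [← Complex.star_def, ← ex_neg, ← ex_add]
  rfl

lemma ex_orthonormal : Orthonormal ℂ (fun l => (ex_memLp l).toLp (ex l)) := by
  classical
  rw [orthonormal_iff_ite]
  intro k l
  rw [inner_toLp]
  simp only [ex_mul_conj]
  rw [ex_int]
  by_cases h : k = l
  · subst h; simp
  · rw [if_neg h, if_neg (fun h' => h (sub_eq_zero.1 h').symm)]

/-- Bessel's inequality. -/
theorem bessel {g : E3 → ℂ} (hg : MemLp g 2 (volume.restrict Q3)) :
    ∃ C : ℝ, ∀ S : Finset K, ∑ l ∈ S, ‖∫ x in Q3, g x * ex (-l) x‖ ^ 2 ≤ C := by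
  refine ⟨‖hg.toLp g‖ ^ 2, fun S => ?_⟩
  have h := ex_orthonormal.sum_inner_products_le (s := S) (x := hg.toLp g)
  refine le_trans (le_of_eq (Finset.sum_congr rfl fun l _ => ?_)) h
  rw [inner_toLp]
  congr 3
  funext x
  rw [ex_neg, Complex.star_def]

/-- The integral of a derivative of a periodic function vanishes. -/
lemma int_deriv_zero {g : E3 → ℂ} (hg : ContDiff ℝ 1 g) (hp : ∀ x j, g (x + Pi.single j 1) = g x) (j : Fin 3) :
    ∫ x in Q3, fderiv ℝ g x (Pi.single j 1) = 0 := by
  have h := integral_divergence_of_hasFDerivAt_off_countable' (n := 2) (E := ℂ) (0 : E3) 1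
    (fun i => by simp) (fun i => if i = j then g else 0)
    (fun i x => if i = j then fderiv ℝ g x else 0) ∅ countable_empty
    (fun i => by
      split_ifs
      · exact hg.continuous.continuousOn
      · exact continuousOn_const)
    (fun x _ i => by
      split_ifs
      · exact (hg.differentiable (by norm_num) x).hasFDerivAt
      · exact hasFDerivAt_const _ _)
    (by
      have : ContinuousOn (fun x : E3 => ∑ i : Fin 3, (if i = j then fderiv ℝ g x else 0) (Pi.single i 1)) (Icc 0 1) := by
        refine Continuous.continuousOn ?_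
        refine continuous_finsetSum _ fun i _ => ?_
        split_ifs
        · exact (hg.continuous_fderiv (by norm_num)).clm_apply continuous_const
        · exact continuous_const
      exact this.integrableOn_compact isCompact_Icc)
  have e1 : ∀ x : E3, ∑ i : Fin 3, (if i = j then fderiv ℝ g x else 0) (Pi.single i 1)
      = fderiv ℝ g x (Pi.single j 1) := by
    intro x
    rw [Finset.sum_eq_single j]
    · simp
    · intro b _ hb; simp [hb]
    · simp
  simp only [e1] at h
  show ∫ x in Icc (0 : E3) 1, _ = _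
  rw [h]
  refine Finset.sum_eq_zero fun i _ => ?_
  by_cases hij : i = j
  · subst hij
    simp only [if_true]
    rw [sub_eq_zero]
    refine integral_congr_ae (Filter.Eventually.of_forall fun x => ?_)
    have : (i.insertNth ((1 : E3) i) x : E3) = (i.insertNth ((0 : E3) i) x : E3) + Pi.single i 1 := by
      funext l
      refine Fin.succAboveCases i ?_ (fun l => ?_) l
      · simp
      · simp [Fin.succAbove_ne]
    show g _ = g _
    rw [this, hp]
  · simp [hij]

end Pool.Agent.H356R3.NS
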