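import Pool.Agent.H356R3.NS.Wave

open MeasureTheory Set Filter Topology
open scoped ENNReal NNReal ContDiff

namespace Pool.Agent.H356R3.NS

/-- space -/
abbrev E3 := Fin 3 → ℝ

/-- scalar families -/
abbrev SFam := K → ℝ → ℂ

/-- polynomial weight -/
noncomputable def pw (k : K) : ℝ := 1 + l1 k

lemma pw_pos (k : K) : 0 < pw k := by have := l1_nonneg k; unfold pw; linarith

lemma one_le_pw (k : K) : 1 ≤ pw k := by have := l1_nonneg k; unfold pw; linarith

lemma pw_sub (k l : K) : pw k ≤ pw l * pw (k - l) := by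
  have h1 := l1_add l (k - l)
  rw [add_sub_cancel] at h1
  have h2 := l1_nonneg l
  have h3 := l1_nonneg (k - l)
  unfold pw
  nlinarith [mul_nonneg h2 h3]

/-- rapidly decreasing, uniformly in time -/
def RD (c : SFam) : Prop := ∀ m : ℕ, ∃ b : K → ℝ, Summable b ∧ ∀ k t, pw k ^ m * ‖c k t‖ ≤ b k

lemma RD.add {c d : SFam} (hc : RD c) (hd : RD d) : RD (fun k t => c k t + d k t) := by
  intro m
  obtain ⟨b, hb, h⟩ := hc m
  obtain ⟨b', hb', h'⟩ := hd m
  refine ⟨fun k => b k + b' k, hb.add hb', fun k t => ?_⟩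
  calc pw k ^ m * ‖c k t + d k t‖ ≤ pw k ^ m * (‖c k t‖ + ‖d k t‖) :=
        mul_le_mul_of_nonneg_left (norm_add_le _ _) (pow_pos (pw_pos k) m).le
    _ ≤ _ := by rw [mul_add]; exact add_le_add (h k t) (h' k t)

lemma RD.mul {c : SFam} (hc : RD c) {p : K → ℂ} {C : ℝ} {r : ℕ} (hp : ∀ k, ‖p k‖ ≤ C * pw k ^ r) :
    RD (fun k t => p k * c k t) := by
  intro m
  obtain ⟨b, hb, h⟩ := hc (m + r)
  refine ⟨fun k => |C| * b k, hb.mul_left _, fun k t => ?_⟩
  rw [norm_mul]
  have h1 : ‖p k‖ ≤ |C| * pw k ^ r := (hp k).trans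
    (mul_le_mul_of_nonneg_right (le_abs_self C) (pow_pos (pw_pos k) r).le)
  calc pw k ^ m * (‖p k‖ * ‖c k t‖) ≤ pw k ^ m * ((|C| * pw k ^ r) * ‖c k t‖) := by
        have := pow_pos (pw_pos k) m
        gcongr
    _ = |C| * (pw k ^ (m + r) * ‖c k t‖) := by rw [pow_add]; ring
    _ ≤ _ := mul_le_mul_of_nonneg_left (h k t) (abs_nonneg _)

lemma RD.summ {c : SFam} (hc : RD c) : ∃ b : K → ℝ, Summable b ∧ ∀ k t, ‖c k t‖ ≤ b k := by
  obtain ⟨b, hb, h⟩ := hc 0
  exact ⟨b, hb, fun k t => by simpa using h k t⟩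

/-- convolution of families -/
noncomputable def cvv (c d : SFam) : SFam := fun k t => ∑' l, c l t * d (k - l) t

lemma summ_conv {b b' : K → ℝ} (hb : Summable b) (hb' : Summable b') (h0 : ∀ k, 0 ≤ b k)
    (h0' : ∀ k, 0 ≤ b' k) : Summable fun k => ∑' l, b l * b' (k - l) := by
  have h1 := hb.mul_of_nonneg hb' h0 h0'
  let e : K × K ≃ K × K :=
    { toFun := fun p => (p.2, p.1 - p.2)
      invFun := fun p => (p.1 + p.2, p.1)
      left_inv := fun p => by simp
      right_inv := fun p => by simp }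
  have h2 : Summable fun p : K × K => b p.2 * b' (p.1 - p.2) := (e.summable_iff).2 h1
  exact h2.prod

lemma RD.conv {c d : SFam} (hc : RD c) (hd : RD d) : RD (cvv c d) := by
  intro m
  obtain ⟨b, hb, h⟩ := hc m
  obtain ⟨b', hb', h'⟩ := hd m
  have p : ∀ k, 0 < pw k ^ m := fun k => pow_pos (pw_pos k) m
  have hb0 : ∀ k, 0 ≤ b k := fun k => (mul_nonneg (p k).le (norm_nonneg _)).trans (h k 0)
  have hb0' : ∀ k, 0 ≤ b' k := fun k => (mul_nonneg (p k).le (norm_nonneg _)).trans (h' k 0)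
  refine ⟨_, summ_conv hb hb' hb0 hb0', fun k t => ?_⟩
  have hs : Summable fun l => b l * b' (k - l) := by
    refine (hb.mul_right (∑' l, b' l)).of_nonneg_of_le (fun l => mul_nonneg (hb0 _) (hb0' _)) fun l => ?_
    exact mul_le_mul_of_nonneg_left (hb'.le_tsum _ fun _ _ => hb0' _) (hb0 l)
  have ht : ∀ l, pw k ^ m * ‖c l t * d (k - l) t‖ ≤ b l * b' (k - l) := by
    intro l
    rw [norm_mul]
    calc pw k ^ m * (‖c l t‖ * ‖d (k - l) t‖) ≤ (pw l * pw (k - l)) ^ m * (‖c l t‖ * ‖d (k - l) t‖) := by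
          apply mul_le_mul_of_nonneg_right _ (by positivity)
          exact pow_le_pow_left₀ (pw_pos k).le (pw_sub k l) m
      _ = (pw l ^ m * ‖c l t‖) * (pw (k - l) ^ m * ‖d (k - l) t‖) := by rw [mul_pow]; ring
      _ ≤ _ := mul_le_mul (h l t) (h' (k - l) t) (mul_nonneg (p _).le (norm_nonneg _)) (hb0 l)
  have hn : Summable fun l => ‖c l t * d (k - l) t‖ := by
    refine hs.of_nonneg_of_le (fun _ => norm_nonneg _) fun l => ?_
    calc ‖c l t * d (k - l) t‖ = 1 * ‖c l t * d (k - l) t‖ := (one_mul _).symm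
      _ ≤ pw k ^ m * ‖c l t * d (k - l) t‖ :=
          mul_le_mul_of_nonneg_right (one_le_pow₀ (one_le_pw k)) (norm_nonneg _)
      _ ≤ _ := ht l
  unfold cvv
  calc pw k ^ m * ‖∑' l, c l t * d (k - l) t‖ ≤ pw k ^ m * ∑' l, ‖c l t * d (k - l) t‖ :=
        mul_le_mul_of_nonneg_left (norm_tsum_le_tsum_norm hn) (p k).le
    _ = ∑' l, pw k ^ m * ‖c l t * d (k - l) t‖ := by rw [tsum_mul_left]
    _ ≤ _ := (hn.mul_left _).tsum_le_tsum ht hs

lemma cvv_cont {c d : SFam} (hc : RD c) (hd : RD d) (hcc : ∀ k, Continuous (c k))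
    (hdc : ∀ k, Continuous (d k)) (k : K) : Continuous (cvv c d k) := by
  obtain ⟨b, hb, h⟩ := hc.summ
  obtain ⟨b', hb', h'⟩ := hd.summ
  have hb0 : ∀ k, 0 ≤ b k := fun k => (norm_nonneg _).trans (h k 0)
  have hb0' : ∀ k, 0 ≤ b' k := fun k => (norm_nonneg _).trans (h' k 0)
  unfold cvv
  refine continuous_tsum (u := fun l => b l * ∑' l', b' l') (fun l => (hcc l).mul (hdc (k - l)))
    (hb.mul_right _) fun l t => ?_
  rw [norm_mul]
  exact mul_le_mul (h l t) ((h' _ t).trans (hb'.le_tsum _ fun _ _ => hb0' _)) (norm_nonneg _) (hb0 l)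

/-- `n` times differentiable families -/
def TT : ℕ → SFam → Prop
  | 0, c => RD c ∧ ∀ k, Continuous (c k)
  | n + 1, c => RD c ∧ (∀ k, Continuous (c k)) ∧
      ∃ c' : SFam, (∀ k t, 0 < t → HasDerivAt (c k) (c' k t) t) ∧ TT n c'

lemma TT.rd : ∀ {n : ℕ} {c : SFam}, TT n c → RD c
  | 0, _, h => h.1
  | _ + 1, _, h => h.1

lemma TT.ct : ∀ {n : ℕ} {c : SFam}, TT n c → ∀ k, Continuous (c k)
  | 0, _, h => h.2
  | _ + 1, _, h => h.2.1

lemma TT.pred : ∀ {n : ℕ} {c : SFam}, TT (n + 1) c → TT n c := by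
  intro n
  induction n with
  | zero => intro c h; exact ⟨h.1, h.2.1⟩
  | succ n ih =>
    intro c h
    obtain ⟨h1, h2, c', h3, h4⟩ := h
    exact ⟨h1, h2, c', h3, ih h4⟩

lemma TT.add {n : ℕ} : ∀ {c d : SFam}, TT n c → TT n d → TT n (fun k t => c k t + d k t) := by
  induction n with
  | zero => intro c d hc hd; exact ⟨hc.1.add hd.1, fun k => (hc.2 k).add (hd.2 k)⟩
  | succ n ih =>
    intro c d hc hd
    obtain ⟨h1, h2, c', h3, h4⟩ := hc
    obtain ⟨g1, g2, d', g3, g4⟩ := hd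
    exact ⟨h1.add g1, fun k => (h2 k).add (g2 k), _, fun k t ht => (h3 k t ht).fun_add (g3 k t ht), ih h4 g4⟩

lemma TT.mul {n : ℕ} {p : K → ℂ} {C : ℝ} {r : ℕ} (hp : ∀ k, ‖p k‖ ≤ C * pw k ^ r) :
    ∀ {c : SFam}, TT n c → TT n (fun k t => p k * c k t) := by
  induction n with
  | zero => intro c hc; exact ⟨hc.1.mul hp, fun k => continuous_const.mul (hc.2 k)⟩
  | succ n ih =>
    intro c hc
    obtain ⟨h1, h2, c', h3, h4⟩ := hc
    exact ⟨h1.mul hp, fun k => continuous_const.mul (h2 k), _,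
      fun k t ht => (h3 k t ht).const_mul (p k), ih h4⟩

lemma cvv_deriv {c d c' d' : SFam} (hc : RD c) (hd : RD d) (hc' : RD c') (hd' : RD d')
    (h1 : ∀ k t, 0 < t → HasDerivAt (c k) (c' k t) t) (h2 : ∀ k t, 0 < t → HasDerivAt (d k) (d' k t) t)
    (k : K) {t : ℝ} (ht : 0 < t) :
    HasDerivAt (cvv c d k) (cvv c' d k t + cvv c d' k t) t := by
  obtain ⟨b, hb, h⟩ := hc.summ
  obtain ⟨b', hb', h'⟩ := hd.summ
  obtain ⟨b1, hb1, hh1⟩ := hc'.summ
  obtain ⟨b1', hb1', hh1'⟩ := hd'.summ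
  have hb0 : ∀ k, 0 ≤ b k := fun k => (norm_nonneg _).trans (h k 0)
  have hb0' : ∀ k, 0 ≤ b' k := fun k => (norm_nonneg _).trans (h' k 0)
  have hb10 : ∀ k, 0 ≤ b1 k := fun k => (norm_nonneg _).trans (hh1 k 0)
  have hb10' : ∀ k, 0 ≤ b1' k := fun k => (norm_nonneg _).trans (hh1' k 0)
  have bd : ∀ {x y : SFam} {bx by' : K → ℝ}, Summable bx → Summable by' → (∀ k t, ‖x k t‖ ≤ bx k) →
      (∀ k t, ‖y k t‖ ≤ by' k) → ∀ t l, ‖x l t * y (k - l) t‖ ≤ bx l * ∑' l', by' l' := by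
    intro x y bx by' hbx hby hx hy t l
    have p0 : ∀ k, 0 ≤ by' k := fun k => (norm_nonneg _).trans (hy k 0)
    rw [norm_mul]
    exact mul_le_mul (hx l t) ((hy _ t).trans (hby.le_tsum _ fun _ _ => p0 _)) (norm_nonneg _)
      ((norm_nonneg _).trans (hx l t))
  have s1 : ∀ t, Summable fun l => c' l t * d (k - l) t := fun t =>
    Summable.of_norm_bounded (hb1.mul_right _) fun l => bd hb1 hb' hh1 h' t l
  have s2 : ∀ t, Summable fun l => c l t * d' (k - l) t := fun t =>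
    Summable.of_norm_bounded (hb.mul_right _) fun l => bd hb hb1' h hh1' t l
  have s0 : ∀ t, Summable fun l => c l t * d (k - l) t := fun t =>
    Summable.of_norm_bounded (hb.mul_right _) fun l => bd hb hb' h h' t l
  have key := hasDerivAt_tsum_of_isPreconnected (t := Ioi (0 : ℝ))
    (u := fun l => b1 l * (∑' l', b' l') + b l * ∑' l', b1' l')
    (g := fun l t => c l t * d (k - l) t)
    (g' := fun l t => c' l t * d (k - l) t + c l t * d' (k - l) t)
    ((hb1.mul_right _).add (hb.mul_right _)) isOpen_Ioi isPreconnected_Ioi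
    (fun l t ht => (h1 l t ht).mul (h2 (k - l) t ht))
    (fun l t _ => (norm_add_le _ _).trans (add_le_add (bd hb1 hb' hh1 h' t l) (bd hb hb1' h hh1' t l)))
    (y₀ := t) ht (s0 t) ht
  have e : ∑' l, (c' l t * d (k - l) t + c l t * d' (k - l) t) = cvv c' d k t + cvv c d' k t :=
    (s1 t).tsum_add (s2 t)
  rw [← e]
  exact key

lemma TT.conv {n : ℕ} : ∀ {c d : SFam}, TT n c → TT n d → TT n (cvv c d) := by
  induction n with
  | zero => intro c d hc hd; exact ⟨hc.1.conv hd.1, cvv_cont hc.1 hd.1 hc.2 hd.2⟩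
  | succ n ih =>
    intro c d hc hd
    have hc0 := hc.pred
    have hd0 := hd.pred
    obtain ⟨h1, h2, c', h3, h4⟩ := hc
    obtain ⟨g1, g2, d', g3, g4⟩ := hd
    exact ⟨h1.conv g1, cvv_cont h1 g1 h2 g2, _,
      fun k t ht => cvv_deriv h1 g1 h4.rd g4.rd h3 g3 k ht, (ih h4 hd0).add (ih hc0 g4)⟩

lemma TT.sum {n : ℕ} {ι : Type*} (s : Finset ι) {f : ι → SFam} (h : ∀ i ∈ s, TT n (f i)) :
    TT n (fun k t => ∑ i ∈ s, f i k t) := by
  classical
  induction s using Finset.induction_on with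
  | empty =>
    have h0 : ∀ n, TT n (fun _ _ => 0) := by
      intro n
      induction n with
      | zero => exact ⟨fun m => ⟨fun _ => 0, summable_zero, fun k t => by simp⟩, fun k => continuous_const⟩
      | succ n ih => exact ⟨fun m => ⟨fun _ => 0, summable_zero, fun k t => by simp⟩,
          fun k => continuous_const, _, fun k t _ => hasDerivAt_const _ _, ih⟩
    simpa using h0 n
  | insert i s hi ih =>
    simp only [Finset.sum_insert hi]
    exact (h i (Finset.mem_insert_self _ _)).add (ih fun j hj => h j (Finset.mem_insert_of_mem hj))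

/-! ### Fourier side solutions are smooth in time -/

lemma pw_le_om {a : ℝ} (ha : 0 < a) (m : ℕ) : ∃ C : ℝ, 0 ≤ C ∧ ∀ k, pw k ^ m ≤ C * om a k := by
  -- `x^m ≤ m! e^x`, applied to `x = a (1 + l1)`
  refine ⟨(m.factorial : ℝ) / a ^ m * Real.exp a, by positivity, fun k => ?_⟩
  have h1 : (a * pw k) ^ m / m.factorial ≤ Real.exp (a * pw k) :=
    Real.pow_div_factorial_le_exp _ (mul_nonneg ha.le (pw_pos k).le) m
  have h2 : Real.exp (a * pw k) = Real.exp a * om a k := by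
    unfold om pw; rw [← Real.exp_add]; congr 1; ring
  rw [h2, mul_pow, div_le_iff₀ (by positivity)] at h1
  have h3 : 0 < a ^ m := by positivity
  calc pw k ^ m = a ^ m * pw k ^ m / a ^ m := by field_simp
    _ ≤ Real.exp a * om a k * m.factorial / a ^ m := by gcongr
    _ = _ := by ring

lemma sol_rd {c a : ℝ} (ha : 0 < a) {V : K → C3} {u : Fam} (h : Sol c a V u) (i : Fin 3) :
    RD (fun k t => u k t i) := by
  intro m
  obtain ⟨b, hb, hb'⟩ := h.dom
  obtain ⟨C, hC, hpw⟩ := pw_le_om ha m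
  refine ⟨fun k => C * (om a k * b k), hb.mul_left C, fun k t => ?_⟩
  calc pw k ^ m * ‖u k t i‖ ≤ (C * om a k) * b k :=
        mul_le_mul (hpw k) ((norm_le_pi_norm _ i).trans (hb' k t)) (norm_nonneg _)
          (mul_nonneg hC (om_pos _ _).le)
    _ = _ := by ring

/-- The time derivative on the Fourier side. -/
noncomputable def dU (c : ℝ) (u : Fam) (i : Fin 3) : SFam := fun k t =>
  (-((c * sq k : ℝ) : ℂ)) * u k t i + ∑ j, ∑ m, coef k i j m * cvv (fun k t => u k t j) (fun k t => u k t m) k t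

lemma sol_deriv {c a : ℝ} (ha : 0 < a) {V : K → C3} {u : Fam} (h : Sol c a V u) (i : Fin 3) (k : K)
    {t : ℝ} (ht : 0 < t) : HasDerivAt (fun t => u k t i) (dU c u i k t) t := by
  have hud : Dom u := by
    obtain ⟨b, hb, hb'⟩ := h.dom
    have hb0 : ∀ k, 0 ≤ b k := fun k => (norm_nonneg _).trans (hb' k 0)
    refine ⟨b, hb.of_nonneg_of_le hb0 fun k => ?_, hb'⟩
    calc b k = 1 * b k := (one_mul _).symm
      _ ≤ _ := mul_le_mul_of_nonneg_right (one_le_om ha.le k) (hb0 k)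
  have hBc := Bt_cont h.cf hud
  have h1 : HasDerivAt (fun t => Real.exp (-(c * sq k * max t 0)) • V k)
      ((Real.exp (-(c * sq k * t)) * -(c * sq k)) • V k) t := by
    have h2 : HasDerivAt (fun u => Real.exp (-(c * sq k * u))) (Real.exp (-(c * sq k * t)) * -(c * sq k)) t := by
      have : HasDerivAt (fun u : ℝ => -(c * sq k * u)) (-(c * sq k)) t := by
        simpa using ((hasDerivAt_id' t).const_mul (c * sq k)).fun_neg
      exact this.exp
    refine (h2.smul_const (V k)).congr_of_eventuallyEq ?_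
    filter_upwards [lt_mem_nhds ht] with v hv
    rw [max_eq_left hv.le]
  have h3 := h1.fun_add (Duh_hasDeriv hBc c k ht)
  have h4 : HasDerivAt (u k) (-(c * sq k) • u k t + Bt u k t) t := by
    have e1 : u k = fun t => Real.exp (-(c * sq k * max t 0)) • V k + Duh c (Bt u) k t := by
      funext s; exact h.eq k s
    have e2 : -(c * sq k) • u k t + Bt u k t = (Real.exp (-(c * sq k * t)) * -(c * sq k)) • V k
        + (-(c * sq k) • Duh c (Bt u) k t + Bt u k t) := by
      rw [h.eq k t, max_eq_left ht.le, smul_add, smul_smul, mul_comm]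
      abel
    rw [e2]
    rw [e1]
    exact h3
  have h5 := (hasDerivAt_pi.1 h4) i
  refine h5.congr_deriv ?_
  unfold dU Bt Bf cvv cv at'
  simp only [Pi.add_apply, Pi.smul_apply, Complex.real_smul]
  push_cast
  ring

lemma norm_sq_le (c : ℝ) (k : K) : ‖(-((c * sq k : ℝ) : ℂ))‖ ≤ |c| * pw k ^ 2 := by
  rw [norm_neg, Complex.norm_real, Real.norm_eq_abs, abs_mul, abs_of_nonneg (sq_nonneg' k)]
  apply mul_le_mul_of_nonneg_left _ (abs_nonneg _)
  rw [← nk_sq]
  apply pow_le_pow_left₀ (nk_nonneg k)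
  have := nk_le_l1 k
  unfold pw; linarith

lemma nk_le_pw (k : K) : nk k ≤ pw k := by
  have := nk_le_l1 k
  unfold pw; linarith

lemma sol_TT {c a : ℝ} (ha : 0 < a) {V : K → C3} {u : Fam} (h : Sol c a V u) (n : ℕ) :
    ∀ i : Fin 3, TT n (fun k t => u k t i) := by
  have hc : ∀ i k, Continuous fun t => u k t i := fun i k => (continuous_apply i).comp (h.cf k)
  induction n with
  | zero => intro i; exact ⟨sol_rd ha h i, hc i⟩
  | succ n ih =>
    intro i
    refine ⟨sol_rd ha h i, hc i, dU c u i, fun k t ht => sol_deriv ha h i k ht, ?_⟩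
    unfold dU
    refine TT.add (TT.mul (norm_sq_le c) (ih i)) ?_
    refine TT.sum _ fun j _ => TT.sum _ fun m _ => ?_
    refine TT.mul (C := 4 * Real.pi) (r := 1) (fun k => ?_) ((ih j).conv (ih m))
    refine (norm_coef_le k i j m).trans ?_
    rw [pow_one]
    exact mul_le_mul_of_nonneg_left (nk_le_pw k) (by positivity)

end Pool.Agent.H356R3.NS
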