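import Pool.Agent.H356R3.NS.Step2

open MeasureTheory Set Filter Topology
open scoped ENNReal NNReal

namespace Pool.Agent.H356R3.NS

/-! ### Small solutions in `ℓ¹` stay small -/

/-- the kernel -/
noncomputable def kap (c : ℝ) (τ : ℝ) : ℝ := (c * τ) ^ (-(1 / 2 : ℝ)) * Real.exp (-(c / 2 * τ))

lemma kap_nonneg {c : ℝ} (hc : 0 < c) {τ : ℝ} (hτ : 0 ≤ τ) : 0 ≤ kap c τ := by
  unfold kap; positivity

lemma nk_exp_le {c : ℝ} (hc : 0 < c) {k : K} (hk : k ≠ 0) {τ : ℝ} (hτ : 0 < τ) :
    nk k * Real.exp (-(c * sq k * τ)) ≤ kap c τ := by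
  have h1 := one_le_nk hk
  have h0 : 0 < nk k := by linarith
  have hcτ : 0 < c * τ := by positivity
  unfold kap
  rw [Real.rpow_neg hcτ.le, ← Real.sqrt_eq_rpow]
  set s := Real.sqrt (c * τ)
  have hs : 0 < s := Real.sqrt_pos.2 hcτ
  have hs2 : s ^ 2 = c * τ := Real.sq_sqrt hcτ.le
  have h2 : nk k * s ≤ Real.exp (sq k * (c * τ) / 2) := by
    have h3 : sq k * (c * τ) / 2 + 1 ≤ Real.exp (sq k * (c * τ) / 2) := Real.add_one_le_exp _
    rw [← nk_sq, ← hs2] at h3 ⊢
    nlinarith [sq_nonneg (nk k * s - 1)]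
  have h4 : Real.exp (-(c * sq k * τ)) ≤ Real.exp (-(sq k * (c * τ) / 2)) * Real.exp (-(c / 2 * τ)) := by
    rw [← Real.exp_add]
    apply Real.exp_le_exp.2
    have : 1 ≤ sq k := one_le_sq hk
    nlinarith
  calc nk k * Real.exp (-(c * sq k * τ))
      ≤ nk k * (Real.exp (-(sq k * (c * τ) / 2)) * Real.exp (-(c / 2 * τ))) :=
        mul_le_mul_of_nonneg_left h4 h0.le
    _ = s⁻¹ * ((nk k * s) * Real.exp (-(sq k * (c * τ) / 2))) * Real.exp (-(c / 2 * τ)) := by field_simp
    _ ≤ s⁻¹ * (Real.exp (sq k * (c * τ) / 2) * Real.exp (-(sq k * (c * τ) / 2))) * Real.exp (-(c / 2 * τ)) := by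
        gcongr
    _ = _ := by rw [← Real.exp_add]; simp

lemma kap_int {c : ℝ} (hc : 0 < c) : IntegrableOn (kap c) (Ioi 0) := by
  have h2 : IntegrableOn (fun t : ℝ => t ^ (1 / 2 - 1 : ℝ) * Real.exp (-(c / 2 * t))) (Ioi 0) := by
    have := integrableOn_rpow_mul_exp_neg_mul_rpow (s := 1 / 2 - 1) (p := 1) (b := c / 2)
      (by norm_num) (by norm_num) (by positivity)
    simpa using this
  have h3 : IntegrableOn (fun t : ℝ => c ^ (-(1 / 2 : ℝ)) * (t ^ (1 / 2 - 1 : ℝ) * Real.exp (-(c / 2 * t)))) (Ioi 0) :=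
    h2.const_mul _
  refine h3.congr_fun (fun t ht => ?_) measurableSet_Ioi
  unfold kap
  rw [Real.mul_rpow hc.le (le_of_lt ht)]
  have : (1 / 2 - 1 : ℝ) = -(1 / 2) := by norm_num
  rw [this]
  ring

lemma tsum_conv_eq (f : K → ℝ≥0∞) : ∑' k, ∑' l, f l * f (k - l) = (∑' k, f k) * ∑' k, f k := by
  rw [ENNReal.tsum_comm]
  simp_rw [ENNReal.tsum_mul_left]
  have : ∀ l, ∑' k, f (k - l) = ∑' k, f k := fun l => (Equiv.subRight l).tsum_eq f
  simp_rw [this, ENNReal.tsum_mul_right]

section
variable {c a : ℝ} {V : K → C3} {u : Fam}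

lemma sol_shift (hBc : CF (Bt u)) (h : Sol c a V u) (k : K) {t0 t : ℝ} (h0 : 0 ≤ t0) (ht : t0 ≤ t) :
    u k t = Real.exp (-(c * sq k * (t - t0))) • u k t0 +
      ∫ s in t0..t, Real.exp (-(c * sq k * (t - s))) • Bt u k s := by
  have e1 := h.eq k t
  have e0 := h.eq k t0
  rw [Duh_eq, max_eq_left (h0.trans ht)] at e1
  rw [Duh_eq, max_eq_left h0] at e0
  have hc := cont_inner hBc c k
  have hadd : ∫ s in (0 : ℝ)..t, Real.exp (c * sq k * s) • Bt u k s
      = (∫ s in (0 : ℝ)..t0, Real.exp (c * sq k * s) • Bt u k s)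
        + ∫ s in t0..t, Real.exp (c * sq k * s) • Bt u k s :=
    (intervalIntegral.integral_add_adjacent_intervals (hc.intervalIntegrable _ _)
      (hc.intervalIntegrable _ _)).symm
  have e2 : ∫ s in t0..t, Real.exp (-(c * sq k * (t - s))) • Bt u k s
      = Real.exp (-(c * sq k * t)) • ∫ s in t0..t, Real.exp (c * sq k * s) • Bt u k s := by
    rw [← intervalIntegral.integral_smul]
    refine intervalIntegral.integral_congr fun s _ => ?_
    simp only [smul_smul, ← Real.exp_add]
    congr 2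
    ring
  rw [e2, e1, e0, hadd]
  simp only [smul_add, smul_smul, ← Real.exp_add]
  have e3 : -(c * sq k * (t - t0)) + -(c * sq k * t0) = -(c * sq k * t) := by ring
  rw [e3, add_assoc]

/-- `ℓ¹` norm as a real function -/
noncomputable def An (u : Fam) (t : ℝ) : ℝ := ∑' k, ‖u k t‖

lemma An_nonneg (u : Fam) (t : ℝ) : 0 ≤ An u t := tsum_nonneg fun _ => norm_nonneg _

lemma An_cont (hu : CF u) (hd : Dom u) : Continuous (An u) := by
  obtain ⟨b, hb, hb'⟩ := hd
  unfold An
  exact continuous_tsum (fun k => (hu k).norm) hb fun k t => by rw [norm_norm]; exact hb' k t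

lemma An_eq (hd : Dom u) (t : ℝ) : ∑' k, ‖u k t‖ₑ = ENNReal.ofReal (An u t) := by
  unfold An
  have hs : Summable fun k => ‖u k t‖ := hd.sn t
  rw [ENNReal.ofReal_tsum_of_nonneg (fun _ => norm_nonneg _) hs]
  exact tsum_congr fun k => (ofReal_norm _).symm

lemma An_le (hc : 0 < c) (hu : CF u) (hd : Dom u) (h : Sol c a V u) {t0 t : ℝ} (h0 : 0 ≤ t0) (ht : t0 ≤ t)
    {β : ℝ} (hβ : ∀ s ∈ Ioo t0 t, An u s ≤ β) :
    An u t ≤ An u t0 + C0 * β ^ 2 * ∫ τ in Ioi 0, kap c τ := by
  have hBc := Bt_cont hu hd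
  have hC := C0_pos
  have hK0 : 0 ≤ ∫ τ in Ioi 0, kap c τ := setIntegral_nonneg measurableSet_Ioi fun τ hτ => kap_nonneg hc (le_of_lt hτ)
  have key : ENNReal.ofReal (An u t) ≤ ENNReal.ofReal (An u t0 + C0 * β ^ 2 * ∫ τ in Ioi 0, kap c τ) := by
    rw [← An_eq hd t]
    have h1 : ∀ k, ‖u k t‖ₑ ≤ ‖u k t0‖ₑ + ∫⁻ s in Ioc t0 t,
        ENNReal.ofReal (Real.exp (-(c * sq k * (t - s)))) * ‖Bt u k s‖ₑ := by
      intro k
      rw [sol_shift hBc h k h0 ht]
      refine (enorm_add_le _ _).trans (add_le_add ?_ ?_)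
      · rw [enorm_smul]
        calc _ ≤ 1 * ‖u k t0‖ₑ := by
              apply mul_le_mul' _ le_rfl
              rw [← ofReal_norm, Real.norm_of_nonneg (Real.exp_pos _).le, ENNReal.ofReal_le_one,
                Real.exp_le_one_iff]
              have : 0 ≤ c * sq k * (t - t0) := mul_nonneg (mul_nonneg hc.le (sq_nonneg' k)) (by linarith)
              linarith
          _ = _ := one_mul _
      · rw [intervalIntegral.integral_of_le ht]
        refine (enorm_integral_le_lintegral_enorm _).trans (le_of_eq ?_)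
        refine lintegral_congr fun s => ?_
        rw [enorm_smul, ← ofReal_norm (Real.exp _), Real.norm_of_nonneg (Real.exp_pos _).le]
    have hm : ∀ k, Measurable fun s => ENNReal.ofReal (Real.exp (-(c * sq k * (t - s)))) * ‖Bt u k s‖ₑ := by
      intro k
      exact (by fun_prop : Measurable fun s => ENNReal.ofReal (Real.exp (-(c * sq k * (t - s))))).mul
        (hBc k).enorm.measurable
    calc ∑' k, ‖u k t‖ₑ ≤ ∑' k, (‖u k t0‖ₑ + ∫⁻ s in Ioc t0 t,
          ENNReal.ofReal (Real.exp (-(c * sq k * (t - s)))) * ‖Bt u k s‖ₑ) := ENNReal.tsum_le_tsum h1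
      _ = ENNReal.ofReal (An u t0) + ∫⁻ s in Ioc t0 t,
          ∑' k, ENNReal.ofReal (Real.exp (-(c * sq k * (t - s)))) * ‖Bt u k s‖ₑ := by
          rw [ENNReal.tsum_add, An_eq hd, lintegral_tsum fun k => (hm k).aemeasurable]
      _ ≤ ENNReal.ofReal (An u t0) + ∫⁻ s in Ioo t0 t, ENNReal.ofReal (C0 * β ^ 2) * ENNReal.ofReal (kap c (t - s)) := by
          apply add_le_add le_rfl
          rw [setLIntegral_congr Ioo_ae_eq_Ioc.symm]
          refine setLIntegral_mono' measurableSet_Ioo fun s hs => ?_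
          have hβ0 : 0 ≤ β := (An_nonneg u s).trans (hβ s hs)
          have hts : 0 < t - s := by linarith [hs.2]
          have h2 : ∀ k, ENNReal.ofReal (Real.exp (-(c * sq k * (t - s)))) * ‖Bt u k s‖ₑ
              ≤ ENNReal.ofReal (C0 * kap c (t - s)) * ∑' l, ‖u l s‖ₑ * ‖u (k - l) s‖ₑ := by
            intro k
            have h3 := enorm_Bf_le (at' u s) (at' u s) k
            calc _ ≤ ENNReal.ofReal (Real.exp (-(c * sq k * (t - s)))) *
                  (ENNReal.ofReal (C0 * nk k) * ∑' l, ‖u l s‖ₑ * ‖u (k - l) s‖ₑ) := mul_le_mul' le_rfl h3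
              _ = ENNReal.ofReal (Real.exp (-(c * sq k * (t - s))) * (C0 * nk k)) *
                  ∑' l, ‖u l s‖ₑ * ‖u (k - l) s‖ₑ := by
                  rw [← mul_assoc, ← ENNReal.ofReal_mul (Real.exp_pos _).le]
              _ ≤ _ := by
                  apply mul_le_mul' _ le_rfl
                  apply ENNReal.ofReal_le_ofReal
                  by_cases hk : k = 0
                  · subst hk
                    rw [nk_zero]
                    have := kap_nonneg hc hts.le
                    simp only [mul_zero]; positivity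
                  · have := nk_exp_le hc hk hts
                    nlinarith
          calc ∑' k, ENNReal.ofReal (Real.exp (-(c * sq k * (t - s)))) * ‖Bt u k s‖ₑ
              ≤ ∑' k, ENNReal.ofReal (C0 * kap c (t - s)) * ∑' l, ‖u l s‖ₑ * ‖u (k - l) s‖ₑ :=
                ENNReal.tsum_le_tsum h2
            _ = ENNReal.ofReal (C0 * kap c (t - s)) * (ENNReal.ofReal (An u s) * ENNReal.ofReal (An u s)) := by
                rw [ENNReal.tsum_mul_left, tsum_conv_eq (fun k => ‖u k s‖ₑ), An_eq hd]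
            _ ≤ ENNReal.ofReal (C0 * kap c (t - s)) * (ENNReal.ofReal β * ENNReal.ofReal β) := by
                have := ENNReal.ofReal_le_ofReal (hβ s hs)
                gcongr
            _ = _ := by
                have hk0 := kap_nonneg hc hts.le
                rw [← ENNReal.ofReal_mul hβ0, ← ENNReal.ofReal_mul (by positivity),
                  ← ENNReal.ofReal_mul (by positivity)]
                congr 1; ring
      _ ≤ ENNReal.ofReal (An u t0) + ENNReal.ofReal (C0 * β ^ 2) * ENNReal.ofReal (∫ τ in Ioi 0, kap c τ) := by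
          apply add_le_add le_rfl
          have hmk : Measurable fun s => ENNReal.ofReal (kap c (t - s)) := by
            unfold kap; fun_prop
          rw [lintegral_const_mul _ hmk]
          apply mul_le_mul' le_rfl
          rw [ofReal_integral_eq_lintegral_ofReal (kap_int hc)
            ((ae_restrict_iff' measurableSet_Ioi).2 (Filter.Eventually.of_forall fun τ hτ => kap_nonneg hc (le_of_lt hτ)))]
          have hsub : ∫⁻ s in Ioo t0 t, ENNReal.ofReal (kap c (t - s))
              = ∫⁻ s, (Ioi (0 : ℝ)).indicator (fun τ => (Iio (t - t0)).indicator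
                (fun τ => ENNReal.ofReal (kap c τ)) τ) (t - s) := by
            rw [← lintegral_indicator measurableSet_Ioo]
            refine lintegral_congr fun s => ?_
            by_cases hs : s ∈ Ioo t0 t
            · rw [indicator_of_mem hs, indicator_of_mem (show t - s ∈ Ioi (0 : ℝ) by simp [hs.2]),
                indicator_of_mem (show t - s ∈ Iio (t - t0) by simp [hs.1])]
            · rw [indicator_of_notMem hs]
              by_cases h3 : t - s ∈ Ioi (0 : ℝ)
              · rw [indicator_of_mem h3, indicator_of_notMem]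
                intro h4
                apply hs
                simp only [mem_Ioi, mem_Iio] at h3 h4
                exact ⟨by linarith, by linarith⟩
              · rw [indicator_of_notMem h3]
          rw [hsub, lintegral_sub_left_eq_self (fun τ => (Ioi (0 : ℝ)).indicator (fun τ => (Iio (t - t0)).indicator
                (fun τ => ENNReal.ofReal (kap c τ)) τ) τ) t, lintegral_indicator measurableSet_Ioi]
          refine lintegral_mono fun τ => ?_
          exact indicator_le_self _ _ _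
      _ = _ := by
          rw [← ENNReal.ofReal_mul (by positivity), ← ENNReal.ofReal_add (An_nonneg u t0) (by positivity)]
  exact (ENNReal.ofReal_le_ofReal_iff (by have := An_nonneg u t0; positivity)).1 key

/-- small solutions stay small -/
lemma An_stays (hc : 0 < c) (hu : CF u) (hd : Dom u) (h : Sol c a V u) {t0 α : ℝ} (h0 : 0 ≤ t0) (hα : 0 < α)
    (hA : An u t0 ≤ α) (hs : 4 * (C0 * (∫ τ in Ioi 0, kap c τ)) * α < 1) {t : ℝ} (ht : t0 ≤ t) :
    An u t ≤ 2 * α := by
  by_contra hcon
  push Not at hcon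
  have hcont := An_cont hu hd
  have hcomp : IsCompact (Icc t0 t ∩ An u ⁻¹' Ici (2 * α)) :=
    isCompact_Icc.inter_right (isClosed_Ici.preimage hcont)
  obtain ⟨τ, hτ, hmin⟩ := hcomp.exists_isLeast ⟨t, ⟨ht, le_rfl⟩, hcon.le⟩
  have hβ : ∀ s ∈ Ioo t0 τ, An u s ≤ 2 * α := by
    intro s hs'
    by_contra h2
    push Not at h2
    have := hmin ⟨⟨hs'.1.le, hs'.2.le.trans hτ.1.2⟩, h2.le⟩
    linarith [hs'.2]
  have h1 := An_le hc hu hd h h0 hτ.1.1 hβ
  have h2 : 2 * α ≤ An u τ := hτ.2
  set Kc := ∫ τ in Ioi 0, kap c τ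
  nlinarith

end

end Pool.Agent.H356R3.NS
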