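import Pool.Agent.H356R3.NS.Wave

open MeasureTheory Set Filter Topology
open scoped ENNReal NNReal

namespace Pool.Agent.H356R3.NS

lemma sym_pair (κ : K) (μ : ℝ) (s : ℂ) (l : K) :
    SymF (Mo κ μ (s • cK l) + Mo (-κ) μ (star s • cK l)) := by
  intro t k i
  have e : at' (Mo κ μ (s • cK l) + Mo (-κ) μ (star s • cK l)) t
      = Sg κ (Real.exp (-(μ * max t 0)) • (s • cK l)) + Sg (-κ) (Real.exp (-(μ * max t 0)) • (star s • cK l)) := by
    rw [← at'_Mo, ← at'_Mo]; rfl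
  rw [e]
  generalize Real.exp (-(μ * max t 0)) = E
  simp only [Pi.add_apply, Sg]
  have h1 : (-k = κ) ↔ (k = -κ) := by constructor <;> rintro h <;> rw [← neg_neg k, h] <;> simp
  have h2 : (-k = -κ) ↔ (k = κ) := neg_inj
  by_cases ha : k = κ
  · by_cases hb : k = -κ
    · rw [if_pos (h1.2 hb), if_pos (h2.2 ha), if_pos ha, if_pos hb]
      simp [cK, add_comm]
    · rw [if_neg (fun h => hb (h1.1 h)), if_pos (h2.2 ha), if_pos ha, if_neg hb]
      simp [cK]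
  · by_cases hb : k = -κ
    · rw [if_pos (h1.2 hb), if_neg (fun h => ha (h2.1 h)), if_neg ha, if_pos hb]
      simp [cK]
    · rw [if_neg (fun h => hb (h1.1 h)), if_neg (fun h => ha (h2.1 h)), if_neg ha, if_neg hb]
      simp

lemma lint_e {σ : ℝ} (hσ : 0 < σ) :
    ∫⁻ t in Ioi 0, ENNReal.ofReal (Real.exp (-(σ * max t 0))) = ENNReal.ofReal (1 / σ) := by
  rw [← lint_exp hσ 0, setLIntegral_congr (Ioi_ae_eq_Ici (a := (0 : ℝ)))]
  refine setLIntegral_congr_fun measurableSet_Ici fun t ht => ?_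
  rw [mem_Ici] at ht
  simp only [max_eq_left ht, sub_zero]

lemma LN_e {σ : ℝ} (hσ : 0 < σ) :
    LN (fun t => ENNReal.ofReal (Real.exp (-(σ * max t 0)))) = ENNReal.ofReal (Real.sqrt (1 / (2 * σ))) := by
  unfold LN
  have e : ∀ t : ℝ, ENNReal.ofReal (Real.exp (-(σ * max t 0))) ^ (2 : ℝ)
      = ENNReal.ofReal (Real.exp (-((2 * σ) * max t 0))) := by
    intro t
    rw [ENNReal.rpow_two, ← ENNReal.ofReal_pow (Real.exp_pos _).le, ← Real.exp_nat_mul]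
    congr 2; push_cast; ring
  simp only [e]
  rw [lint_e (by positivity), ENNReal.ofReal_rpow_of_nonneg (by positivity) (by norm_num),
    ← Real.sqrt_eq_rpow]

lemma LN_ne_top_add {φ ψ : ℝ → ℝ≥0∞} (hφ : Measurable φ) (hψ : Measurable ψ) (h1 : LN φ ≠ ⊤)
    (h2 : LN ψ ≠ ⊤) : LN (fun t => φ t + ψ t) ≠ ⊤ :=
  ne_top_of_le_ne_top (ENNReal.add_ne_top.2 ⟨h1, h2⟩) (LN_add_le hφ hψ)

/-- The low mode to be added. -/
noncomputable def E0 (q cc : K) (γ : ℂ) : K → C3 := Sg q (γ • cK cc) + Sg (-q) (star γ • cK cc)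

/-- amplitude of the first wave -/
noncomputable def am (lm : ℝ) (N : ℕ) : ℂ := ((lm * N : ℝ) : ℂ)

/-- amplitude of the second wave -/
noncomputable def be (c : ℝ) (q η : K) (γ : ℂ) (lm : ℝ) (N : ℕ) : ℂ :=
  ((2 * c * N ^ 2 * sq η : ℝ) : ℂ) * γ / (2 * Real.pi * Complex.I * (ip q q : ℂ) * am lm N)

/-- The high frequency wave. -/
noncomputable def W0 (c : ℝ) (q cc η : K) (γ : ℂ) (lm : ℝ) (N : ℕ) : K → C3 :=
  Sg ((N : ℤ) • η) (am lm N • cK q) + Sg (-((N : ℤ) • η)) (am lm N • cK q)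
    + Sg ((N : ℤ) • η + q) (be c q η γ lm N • cK cc) + Sg (-((N : ℤ) • η + q)) (star (be c q η γ lm N) • cK cc)

lemma star_am (lm : ℝ) (N : ℕ) : star (am lm N) = am lm N := by
  unfold am; rw [Complex.star_def, Complex.conj_ofReal]

lemma norm_am {lm : ℝ} (hlm : 0 < lm) (N : ℕ) : ‖am lm N‖ = N * lm := by
  unfold am; rw [Complex.norm_real, Real.norm_of_nonneg (by positivity), mul_comm]

lemma ip_smul (n : ℤ) (k l : K) : ip (n • k) l = n * ip k l := by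
  unfold ip
  rw [Finset.mul_sum]
  exact Finset.sum_congr rfl fun i _ => by simp; ring

lemma ip_add_right (k l l' : K) : ip k (l + l') = ip k l + ip k l' := by
  rw [ip_comm, ip_add, ip_comm l, ip_comm l']

lemma ip_smul_right (n : ℤ) (k l : K) : ip k (n • l) = n * ip k l := by
  rw [ip_comm, ip_smul, ip_comm l]

structure Geo (q cc η : K) : Prop where
  hq : q ≠ 0
  hc : cc ≠ 0
  hη : η ≠ 0
  qc : ip q cc = 0
  ηq : ip η q = 0
  ηc : ip η cc = 0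

variable {q cc η : K}

lemma sq_k1 (N : ℕ) : sq ((N : ℤ) • η) = N ^ 2 * sq η := by
  rw [sq_eq_ip, sq_eq_ip, ip_smul, ip_comm, ip_smul]; push_cast; ring

lemma sq_k2 (hG : Geo q cc η) (N : ℕ) : sq ((N : ℤ) • η + q) = N ^ 2 * sq η + sq q := by
  rw [sq_eq_ip, sq_eq_ip, sq_eq_ip, ip_add, ip_add_right, ip_add_right, ip_smul, ip_smul_right,
    ip_smul, ip_smul_right, ip_comm q η, hG.ηq]
  push_cast; ring

lemma sq_k12 (hG : Geo q cc η) (N : ℕ) :
    sq ((N : ℤ) • η + ((N : ℤ) • η + q)) = 4 * (N ^ 2 * sq η) + sq q := by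
  have e : (N : ℤ) • η + ((N : ℤ) • η + q) = ((2 * N : ℕ) : ℤ) • η + q := by
    push_cast; rw [← add_assoc, ← two_smul ℤ, smul_smul]
  rw [e, sq_k2 hG]; push_cast; ring

lemma ne_zero_of_sq {k : K} (h : 0 < sq k) : k ≠ 0 := by
  rintro rfl; rw [sq_zero] at h; exact lt_irrefl _ h

/-- The data of the wave. -/
noncomputable def wF (c : ℝ) (q cc η : K) (γ : ℂ) (lm : ℝ) (N : ℕ) : Fam :=
  (Mo ((N : ℤ) • η) (c * sq ((N : ℤ) • η)) (am lm N • cK q)
    + Mo (-((N : ℤ) • η)) (c * sq ((N : ℤ) • η)) (am lm N • cK q))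
    + (Mo ((N : ℤ) • η + q) (c * sq ((N : ℤ) • η + q)) (be c q η γ lm N • cK cc)
    + Mo (-((N : ℤ) • η + q)) (c * sq ((N : ℤ) • η + q)) (star (be c q η γ lm N) • cK cc))

noncomputable def muF (c : ℝ) (q η : K) (N : ℕ) : ℝ :=
  c * sq ((N : ℤ) • η) + c * sq ((N : ℤ) • η + q)

noncomputable def IF (c : ℝ) (q cc η : K) (γ : ℂ) (N : ℕ) : Fam :=
  Mo q (muF c q η N) (γ • cK cc) + Mo (-q) (muF c q η N) (star γ • cK cc)

/-- pair of modes with coefficient `- m γ` -/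
noncomputable def pF (c : ℝ) (q cc η : K) (γ : ℂ) (N : ℕ) (κ : K) : Fam :=
  Mo κ (muF c q η N) ((-((2 * c * N ^ 2 * sq η : ℝ) : ℂ) * γ) • cK cc)
    + Mo (-κ) (muF c q η N) (star (-((2 * c * N ^ 2 * sq η : ℝ) : ℂ) * γ) • cK cc)

lemma smul_conv (e : ℝ) (s : ℂ) (l : K) : e • (s • cK l) = (((e : ℝ) : ℂ) * s) • cK l := by
  rw [← smul_smul]; rfl

lemma be_eq {c lm : ℝ} (hlm : 0 < lm) (hG : Geo q cc η) (γ : ℂ) {N : ℕ} (hN : 1 ≤ N) :
    2 * Real.pi * Complex.I * (am lm N * (ip q q : ℂ)) * be c q η γ lm N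
      = ((2 * c * N ^ 2 * sq η : ℝ) : ℂ) * γ := by
  unfold be
  have h1 : ((ip q q : ℤ) : ℂ) ≠ 0 := by
    have : ((ip q q : ℤ) : ℝ) ≠ 0 := by rw [← sq_eq_ip]; exact (sq_pos hG.hq).ne'
    exact_mod_cast this
  have h2 : am lm N ≠ 0 := by
    have : (0 : ℝ) < N := by exact_mod_cast hN
    unfold am; exact_mod_cast (by positivity : lm * (N : ℝ) ≠ 0)
  have h3 : (Real.pi : ℂ) ≠ 0 := by exact_mod_cast Real.pi_ne_zero
  have h4 := Complex.I_ne_zero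
  field_simp

lemma BwF {c lm : ℝ} (hlm : 0 < lm) (hG : Geo q cc η) (γ : ℂ) {N : ℕ} (hN : 1 ≤ N) (t : ℝ) :
    Bf (at' (wF c q cc η γ lm N) t) (at' (wF c q cc η γ lm N) t)
      = at' (pF c q cc η γ N q) t + at' (pF c q cc η γ N ((N : ℤ) • η + ((N : ℤ) • η + q))) t := by
  set k1 := (N : ℤ) • η with hk1
  set τ := max t 0
  set e1 := Real.exp (-(c * sq k1 * τ))
  set e2 := Real.exp (-(c * sq (k1 + q) * τ))
  set b := be c q η γ lm N
  have hw : at' (wF c q cc η γ lm N) t = Sg k1 (((e1 : ℂ) * am lm N) • cK q) + Sg (-k1) (((e1 : ℂ) * am lm N) • cK q)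
      + Sg (k1 + q) (((e2 : ℂ) * b) • cK cc) + Sg (-(k1 + q)) (((e2 : ℂ) * star b) • cK cc) := by
    have : at' (wF c q cc η γ lm N) t = (at' (Mo k1 (c * sq k1) (am lm N • cK q)) t
        + at' (Mo (-k1) (c * sq k1) (am lm N • cK q)) t)
        + (at' (Mo (k1 + q) (c * sq (k1 + q)) (b • cK cc)) t
        + at' (Mo (-(k1 + q)) (c * sq (k1 + q)) (star b • cK cc)) t) := rfl
    rw [this]
    simp only [at'_Mo, smul_conv]
    rw [add_assoc (Sg k1 _ + Sg (-k1) _)]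
  have h1q : ip k1 q = 0 := by rw [hk1, ip_smul, hG.ηq, mul_zero]
  have h1c : ip k1 cc = 0 := by rw [hk1, ip_smul, hG.ηc, mul_zero]
  rw [BW (k2 := k1 + q) rfl h1q h1c hG.qc _ _ _ _ _ hw]
  have hμ : Real.exp (-(muF c q η N * τ)) = e1 * e2 := by
    simp only [e1, e2, muF, ← hk1]
    rw [← Real.exp_add]; congr 1; ring
  have hb := be_eq (c := c) hlm hG γ hN
  have hb' : 2 * Real.pi * Complex.I * (am lm N * (ip q q : ℂ)) * star b
      = star (-((2 * c * N ^ 2 * sq η : ℝ) : ℂ) * γ) := by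
    have := congrArg star hb
    simp only [star_mul', Complex.star_def, map_ofNat, Complex.conj_ofReal, Complex.conj_I] at this ⊢
    rw [map_neg, neg_mul, Complex.conj_ofReal, ← this]
    have e3 : (starRingEnd ℂ) (am lm N) = am lm N := star_am lm N
    have e4 : (starRingEnd ℂ) ((ip q q : ℤ) : ℂ) = ((ip q q : ℤ) : ℂ) := by simp
    rw [e3, e4]
    ring
  have hp : ∀ κ, at' (pF c q cc η γ N κ) t =
      Sg κ ((((e1 * e2 : ℝ) : ℂ) * (-((2 * c * N ^ 2 * sq η : ℝ) : ℂ) * γ)) • cK cc)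
      + Sg (-κ) ((((e1 * e2 : ℝ) : ℂ) * star (-((2 * c * N ^ 2 * sq η : ℝ) : ℂ) * γ)) • cK cc) := by
    intro κ
    have : at' (pF c q cc η γ N κ) t = at' (Mo κ (muF c q η N) ((-((2 * c * N ^ 2 * sq η : ℝ) : ℂ) * γ) • cK cc)) t
      + at' (Mo (-κ) (muF c q η N) (star (-((2 * c * N ^ 2 * sq η : ℝ) : ℂ) * γ) • cK cc)) t := rfl
    rw [this, at'_Mo, at'_Mo, hμ, smul_conv, smul_conv]
  rw [hp, hp]
  have x1 : -(2 * Real.pi * Complex.I) * ((e1 : ℂ) * am lm N * (ip q q : ℂ)) * ((e2 : ℂ) * b)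
      = ((e1 * e2 : ℝ) : ℂ) * (-((2 * c * N ^ 2 * sq η : ℝ) : ℂ) * γ) := by
    rw [neg_mul (((2 * c * N ^ 2 * sq η : ℝ) : ℂ)), ← hb]
    push_cast; ring
  have x2 : 2 * Real.pi * Complex.I * ((e1 : ℂ) * am lm N * (ip q q : ℂ)) * ((e2 : ℂ) * star b)
      = ((e1 * e2 : ℝ) : ℂ) * star (-((2 * c * N ^ 2 * sq η : ℝ) : ℂ) * γ) := by
    rw [← hb']
    push_cast; ring
  rw [x1, x2]
  abel

end Pool.Agent.H356R3.NS
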