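import Pool.Agent.H356R3.NS.Step

open MeasureTheory Set Filter Topology
open scoped ENNReal NNReal

namespace Pool.Agent.H356R3.NS

/-- weighted domination -/
def WDom (a : ℝ) (u : Fam) : Prop :=
  ∃ b : K → ℝ, Summable (fun k => om a k * b k) ∧ ∀ k t, ‖u k t‖ ≤ b k

lemma WDom.add {a : ℝ} {u v : Fam} (hu : WDom a u) (hv : WDom a v) : WDom a (u + v) := by
  obtain ⟨b, hb, h⟩ := hu
  obtain ⟨b', hb', h'⟩ := hv
  refine ⟨fun k => b k + b' k, ?_, fun k t => (norm_add_le _ _).trans (add_le_add (h k t) (h' k t))⟩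
  simp only [mul_add]
  exact hb.add hb'

lemma WDom.mono {a a' : ℝ} (haa : a' ≤ a) {u : Fam} (hu : WDom a u) : WDom a' u := by
  obtain ⟨b, hb, h⟩ := hu
  have hb0 : ∀ k, 0 ≤ b k := fun k => (norm_nonneg _).trans (h k 0)
  exact ⟨b, hb.of_nonneg_of_le (fun k => mul_nonneg (om_pos _ _).le (hb0 k))
    fun k => mul_le_mul_of_nonneg_right (om_mono haa k) (hb0 k), h⟩

lemma WDom.dom {a : ℝ} (ha : 0 ≤ a) {u : Fam} (hu : WDom a u) : Dom u := by
  obtain ⟨b, hb, h⟩ := hu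
  have hb0 : ∀ k, 0 ≤ b k := fun k => (norm_nonneg _).trans (h k 0)
  refine ⟨b, hb.of_nonneg_of_le hb0 fun k => ?_, h⟩
  calc b k = 1 * b k := (one_mul _).symm
    _ ≤ _ := mul_le_mul_of_nonneg_right (one_le_om ha k) (hb0 k)

variable {q cc η : K}

lemma w_init (c : ℝ) (γ : ℂ) (lm : ℝ) (N : ℕ) (k : K) (t : ℝ) :
    wF c q cc η γ lm N k t = Real.exp (-(c * sq k * max t 0)) • W0 c q cc η γ lm N k := by
  have h : ∀ (κ : K) (v : C3) (s : ℝ), s = sq κ → Mo κ (c * s) v k t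
      = Real.exp (-(c * sq k * max t 0)) • Sg κ v k := by
    rintro κ v s rfl
    unfold Mo Sg
    by_cases hk : k = κ
    · subst hk; simp
    · simp [hk]
  have e : wF c q cc η γ lm N k t = (Mo ((N : ℤ) • η) (c * sq ((N : ℤ) • η)) (am lm N • cK q) k t
    + Mo (-((N : ℤ) • η)) (c * sq ((N : ℤ) • η)) (am lm N • cK q) k t)
    + (Mo ((N : ℤ) • η + q) (c * sq ((N : ℤ) • η + q)) (be c q η γ lm N • cK cc) k t
    + Mo (-((N : ℤ) • η + q)) (c * sq ((N : ℤ) • η + q)) (star (be c q η γ lm N) • cK cc) k t) := rfl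
  rw [e, h _ _ _ rfl, h _ _ _ (sq_neg _).symm, h _ _ _ rfl, h _ _ _ (sq_neg _).symm, ← smul_add,
    ← smul_add, ← smul_add]
  unfold W0
  simp only [Pi.add_apply]
  congr 1
  abel

lemma mu_sub (c : ℝ) (hG : Geo q cc η) (N : ℕ) : muF c q η N - c * sq q = 2 * c * N ^ 2 * sq η := by
  unfold muF
  rw [sq_k1, sq_k2 hG]; ring

lemma I_mode {c μ m : ℝ} {κ : K} (hm : m ≠ 0) (h : μ - c * sq κ = m) (s s' : ℂ) (hs : s' = -(m : ℂ) * s)
    (l : K) (k : K) (t : ℝ) :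
    Mo κ μ (s • cK l) k t - Duh c (Mo κ μ (s' • cK l)) k t
      = Real.exp (-(c * sq k * max t 0)) • Sg κ (s • cK l) k := by
  rw [Duh_Mo _ hm h]
  unfold Mo Sg
  by_cases hk : k = κ
  · subst hk
    simp only [if_true]
    rw [hs]
    generalize Real.exp (-(μ * max t 0)) = E1
    generalize Real.exp (-(c * sq k * max t 0)) = E2
    funext i
    simp only [Pi.sub_apply, Pi.smul_apply, smul_eq_mul, Complex.real_smul]
    have hm' : (m : ℂ) ≠ 0 := by exact_mod_cast hm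
    push_cast
    field_simp
    ring
  · simp [hk]

lemma I_init {c : ℝ} (hc : 0 < c) (hG : Geo q cc η) (γ : ℂ) {N : ℕ} (hN : 1 ≤ N) (k : K) (t : ℝ) :
    IF c q cc η γ N k t - Duh c (pF c q cc η γ N q) k t
      = Real.exp (-(c * sq k * max t 0)) • E0 q cc γ k := by
  have hsη := sq_pos hG.hη
  have hN' : (0 : ℝ) < N := by exact_mod_cast hN
  have hm : (2 * c * N ^ 2 * sq η : ℝ) ≠ 0 := by positivity
  unfold pF IF
  rw [Duh_add (Mo_cf _ _ _) (Mo_cf _ _ _)]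
  unfold E0
  simp only [Pi.add_apply, smul_add]
  rw [← I_mode hm (mu_sub c hG N) γ _ rfl cc k t,
    ← I_mode (κ := -q) hm (by rw [sq_neg]; exact mu_sub c hG N) (star γ) _ (by
      simp only [star_mul', star_neg, Complex.star_def, Complex.conj_ofReal]; rfl) cc k t]
  simp only [star_mul', star_neg, Complex.star_def, Complex.conj_ofReal]
  abel

lemma norm_be {c lm : ℝ} (hc : 0 < c) (hlm : 0 < lm) (hG : Geo q cc η) (γ : ℂ) {N : ℕ} (hN : 1 ≤ N) :
    ‖be c q η γ lm N‖ = N * (c * sq η * ‖γ‖ / (Real.pi * sq q * lm)) := by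
  have hN' : (0 : ℝ) < N := by exact_mod_cast hN
  have hpi := Real.pi_pos
  have hq := sq_pos hG.hq
  have hη := sq_pos hG.hη
  unfold be
  have e1 : ‖((ip q q : ℤ) : ℂ)‖ = sq q := by
    rw [Complex.norm_intCast, ← sq_eq_ip, abs_of_pos hq]
  rw [norm_div, norm_mul, norm_mul, norm_mul, norm_mul, norm_mul, e1, Complex.norm_real,
    Complex.norm_real, Complex.norm_I, norm_am hlm, Real.norm_of_nonneg (by positivity),
    Real.norm_of_nonneg hpi.le]
  simp only [Complex.norm_ofNat]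
  field_simp

lemma NW_pair_le (W : K → ℝ≥0∞) {κ : K} {μ σ X wm : ℝ} (h : σ ≤ μ) (v v' : C3) (t : ℝ)
    (hv : ‖v‖ ≤ X) (hv' : ‖v'‖ ≤ X) (hw : 0 ≤ wm) (hW : W κ ≤ ENNReal.ofReal wm)
    (hW' : W (-κ) ≤ ENNReal.ofReal wm) :
    NW W (at' (Mo κ μ v + Mo (-κ) μ v') t)
      ≤ ENNReal.ofReal (2 * wm * X * Real.exp (-(σ * max t 0))) := by
  have hX : 0 ≤ X := (norm_nonneg _).trans hv
  have e : at' (Mo κ μ v + Mo (-κ) μ v') t = at' (Mo κ μ v) t + at' (Mo (-κ) μ v') t := rfl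
  rw [e]
  refine (NW_add_le _ _ _).trans ?_
  have h1 : ∀ (κ' : K) (v : C3), ‖v‖ ≤ X → W κ' ≤ ENNReal.ofReal wm → NW W (at' (Mo κ' μ v) t) ≤
      ENNReal.ofReal (wm * X * Real.exp (-(σ * max t 0))) := by
    intro κ' v hv hW
    refine (NW_Mo_le W κ' h v t).trans ((mul_le_mul' hW le_rfl).trans ?_)
    rw [← ENNReal.ofReal_mul hw]
    apply ENNReal.ofReal_le_ofReal
    rw [mul_assoc]
    apply mul_le_mul_of_nonneg_left _ hw
    exact mul_le_mul_of_nonneg_right hv (Real.exp_pos _).le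
  refine (add_le_add (h1 _ _ hv hW) (h1 _ _ hv' hW')).trans ?_
  rw [← ENNReal.ofReal_add (by positivity) (by positivity)]
  apply ENNReal.ofReal_le_ofReal
  apply le_of_eq; ring

lemma Wa_le_two {a T : ℝ} (hT : 0 < T) (ha0 : 0 ≤ a) (ha : a ≤ Real.log 2 / T) {κ : K} (hκ : l1 κ ≤ T) :
    om a κ ≤ 2 := by
  unfold om
  calc Real.exp (a * l1 κ) ≤ Real.exp (Real.log 2) := by
        apply Real.exp_le_exp.2
        calc a * l1 κ ≤ a * T := mul_le_mul_of_nonneg_left hκ ha0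
          _ ≤ Real.log 2 / T * T := mul_le_mul_of_nonneg_right ha hT.le
          _ = Real.log 2 := div_mul_cancel₀ _ hT.ne'
    _ = 2 := Real.exp_log (by norm_num)

/-- the norm in `L²((δ, ∞); ℓ¹)` -/
noncomputable def LNd (δ : ℝ) (x : Fam) : ℝ≥0∞ :=
  LN (fun t => (Ioi δ).indicator (fun t => NW (Wa 0) (at' x t)) t)

lemma LNd_add {δ : ℝ} {x y : Fam} (hx : CF x) (hy : CF y) : LNd δ (x + y) ≤ LNd δ x + LNd δ y := by
  unfold LNd
  have mi : ∀ {x : Fam}, CF x → Measurable fun t => (Ioi δ).indicator (fun t => NW (Wa 0) (at' x t)) t :=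
    fun hx => (NW_meas _ hx).indicator measurableSet_Ioi
  refine (LN_mono fun t _ => ?_).trans (LN_add_le (mi hx) (mi hy))
  by_cases htd : t ∈ Ioi δ
  · rw [indicator_of_mem htd, indicator_of_mem htd, indicator_of_mem htd]
    exact NW_add_le _ _ _
  · rw [indicator_of_notMem htd]; exact zero_le

lemma LNd_le_LN (δ : ℝ) (x : Fam) : LNd δ x ≤ LN (fun t => NW (Wa 0) (at' x t)) :=
  LN_mono fun t _ => indicator_le_self _ _ t

lemma LNd_exp {x : Fam} {B σ δ : ℝ} (hB : 0 ≤ B) (hσ : 0 < σ)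
    (h : ∀ t, NW (Wa 0) (at' x t) ≤ ENNReal.ofReal (B * Real.exp (-(σ * max t 0)))) :
    LNd δ x ≤ ENNReal.ofReal (B * Real.exp (-(σ / 2 * δ)) * Real.sqrt (1 / σ)) := by
  unfold LNd
  have h1 : ∀ t, 0 < t → (Ioi δ).indicator (fun t => NW (Wa 0) (at' x t)) t ≤
      ENNReal.ofReal (B * Real.exp (-(σ / 2 * δ))) * ENNReal.ofReal (Real.exp (-(σ / 2 * max t 0))) := by
    intro t _
    by_cases htd : t ∈ Ioi δ
    · rw [indicator_of_mem htd, ← ENNReal.ofReal_mul (by positivity)]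
      refine (h t).trans (ENNReal.ofReal_le_ofReal ?_)
      rw [mul_assoc, ← Real.exp_add]
      apply mul_le_mul_of_nonneg_left _ hB
      apply Real.exp_le_exp.2
      have : δ ≤ max t 0 := (le_of_lt htd).trans (le_max_left _ _)
      nlinarith
    · rw [indicator_of_notMem htd]; exact zero_le
  refine (LN_mono h1).trans ?_
  rw [LN_const_mul _ (by fun_prop), LN_e (half_pos hσ), ← ENNReal.ofReal_mul (by positivity)]
  apply ENNReal.ofReal_le_ofReal
  have : 2 * (σ / 2) = σ := by ring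
  rw [this]

lemma num_small {c δ ee Cx N : ℝ} (hc : 0 < c) (hδ : 0 < δ) (hC : 0 ≤ Cx) (hN : 1 ≤ N) (hee : 0 < ee)
    (h : Cx / Real.sqrt c * (2 / (c * δ)) / (ee / 2) ≤ N) :
    Cx * N * Real.exp (-(c * N ^ 2 / 2 * δ)) * Real.sqrt (1 / (c * N ^ 2)) ≤ ee / 2 := by
  have hsc := Real.sqrt_pos.2 hc
  have hNp : 0 < N := by linarith
  have h2 : Real.sqrt (1 / (c * N ^ 2)) = 1 / (Real.sqrt c * N) := by
    have : 1 / (c * N ^ 2) = (1 / (Real.sqrt c * N)) ^ 2 := by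
      rw [div_pow, mul_pow, Real.sq_sqrt hc.le]
      field_simp
    rw [this, Real.sqrt_sq (by positivity)]
  have h3 : Real.exp (-(c * N ^ 2 / 2 * δ)) ≤ 2 / (c * δ) / N := by
    have h4 : c * N ^ 2 / 2 * δ ≤ Real.exp (c * N ^ 2 / 2 * δ) := by
      have := Real.add_one_le_exp (c * N ^ 2 / 2 * δ); linarith
    rw [Real.exp_neg, inv_le_comm₀ (Real.exp_pos _) (by positivity)]
    refine le_trans ?_ h4
    rw [inv_div, div_div_eq_mul_div]
    have : N ≤ N ^ 2 := by nlinarith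
    have hcd : 0 < c * δ := by positivity
    nlinarith [mul_le_mul_of_nonneg_left this hcd.le]
  rw [h2]
  have h5 : Cx / Real.sqrt c * (2 / (c * δ)) ≤ N * (ee / 2) := by
    rwa [div_le_iff₀ (by positivity)] at h
  calc Cx * N * Real.exp (-(c * N ^ 2 / 2 * δ)) * (1 / (Real.sqrt c * N))
      ≤ Cx * N * (2 / (c * δ) / N) * (1 / (Real.sqrt c * N)) := by gcongr
    _ = Cx / Real.sqrt c * (2 / (c * δ)) / N := by field_simp
    _ ≤ ee / 2 := by
        rw [div_le_iff₀ hNp]; linarith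

lemma LN_le_LF {D Lam a b : ℝ} (hL : 0 ≤ Lam) (hD : 0 ≤ D) {A : ℝ → ℝ} (hA : Continuous A)
    (hA0 : ∀ t, 0 ≤ A t) (hAi : LN (fun t => ENNReal.ofReal (A t)) ≤ ENNReal.ofReal D) (hb : b ≤ a)
    {r : Fam} (hr : CF r) : LN (fun t => NW (Wa b) (at' r t)) ≤
      ENNReal.ofReal (Real.exp (Lam * D ^ 2)) * LF (gw Lam A) a r := by
  have hg : Monotone (gw Lam A) := gw_mono hL hA
  unfold LF
  have hgm : Measurable fun t => ENNReal.ofReal (Real.exp (-gw Lam A t)) :=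
    ENNReal.measurable_ofReal.comp (Real.measurable_exp.comp hg.measurable.neg)
  have mm : Measurable fun t => ENNReal.ofReal (Real.exp (-gw Lam A t)) * NW (Wa a) (at' r t) :=
    hgm.mul (NW_meas _ hr)
  rw [← LN_const_mul _ mm]
  refine LN_mono fun t ht => ?_
  rw [← mul_assoc, ← ENNReal.ofReal_mul (Real.exp_pos _).le, ← Real.exp_add]
  calc NW (Wa b) (at' r t) ≤ 1 * NW (Wa a) (at' r t) := by
        rw [one_mul]; exact NW_mono (fun k => Wa_mono hb k) _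
    _ ≤ _ := by
        apply mul_le_mul' _ le_rfl
        rw [ENNReal.one_le_ofReal]
        apply Real.one_le_exp
        have := gw_le hL hA hA0 hD hAi ht.le
        linarith

lemma Par.mono {c D Lam ρ ρ' : ℝ} (h : Par c D Lam ρ) (h0 : 0 < ρ') (hle : ρ' ≤ ρ) : Par c D Lam ρ' :=
  ⟨h.hc, h.hD, h.hL, h0, h.h1,
    (mul_le_mul_of_nonneg_left (by linarith) (Real.exp_pos _).le).trans h.h2,
    (mul_le_mul_of_nonneg_left (by linarith) (Real.exp_pos _).le).trans h.h3⟩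

end Pool.Agent.H356R3.NS
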