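import Pool.Agent.H356R3.NS.Step2

open MeasureTheory Set Filter Topology
open scoped ENNReal NNReal

namespace Pool.Agent.H356R3.NS

variable {q cc η : K}

lemma ofR {x y : ℝ} (z : ℝ) (hx : 0 ≤ x) (hy : 0 ≤ y) :
    ENNReal.ofReal x * (ENNReal.ofReal y * ENNReal.ofReal z) = ENNReal.ofReal (x * (y * z)) := by
  rw [← ENNReal.ofReal_mul hy, ← ENNReal.ofReal_mul hx]

theorem step {c a0 lm δ ee : ℝ} (hc : 0 < c) (ha0 : 0 < a0) (hlm : 0 < lm) (hδ : 0 < δ) (hee : 0 < ee)
    (hG : Geo q cc η) (γ : ℂ) {V : K → C3} {u : Fam}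
    (hS : Sol c a0 V u) : ∃ N0 : ℕ, ∀ N : ℕ, N0 ≤ N → ∃ a : ℝ, 0 < a ∧ ∃ u' : Fam,
      Sol c a (V + (E0 q cc γ + W0 c q cc η γ lm N)) u' ∧ LNd δ u' ≤ LNd δ u + ENNReal.ofReal ee := by
  obtain ⟨bu, hbu, hbu'⟩ := hS.dom
  have hbu0 : ∀ k, 0 ≤ bu k := fun k => (norm_nonneg _).trans (hbu' k 0)
  have huW : WDom a0 u := ⟨bu, hbu, hbu'⟩
  have hud : Dom u := huW.dom ha0.le
  -- the norm of `u`
  set Au : ℝ → ℝ := fun t => ∑' k, om a0 k * ‖u k t‖
  have hsm : ∀ t, Summable fun k => om a0 k * ‖u k t‖ := fun t =>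
    hbu.of_nonneg_of_le (fun k => mul_nonneg (om_pos _ _).le (norm_nonneg _))
      fun k => mul_le_mul_of_nonneg_left (hbu' k t) (om_pos _ _).le
  have hAuc : Continuous Au := by
    refine continuous_tsum (fun k => ?_) hbu fun k t => ?_
    · have := hS.cf k; fun_prop
    · rw [Real.norm_of_nonneg (mul_nonneg (om_pos _ _).le (norm_nonneg _))]
      exact mul_le_mul_of_nonneg_left (hbu' k t) (om_pos _ _).le
  have hAu0 : ∀ t, 0 ≤ Au t := fun t => tsum_nonneg fun k => mul_nonneg (om_pos _ _).le (norm_nonneg _)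
  have hNA : ∀ t, NW (Wa a0) (at' u t) = ENNReal.ofReal (Au t) := by
    intro t
    simp only [Au]
    rw [ENNReal.ofReal_tsum_of_nonneg (fun k => mul_nonneg (om_pos _ _).le (norm_nonneg _)) (hsm t)]
    unfold NW Wa at'
    refine tsum_congr fun k => ?_
    rw [ENNReal.ofReal_mul (om_pos _ _).le, ofReal_norm]
  set Mu : ℝ := ∑' k, om a0 k * bu k
  have hMu : 0 ≤ Mu := tsum_nonneg fun k => mul_nonneg (om_pos _ _).le (hbu0 k)
  have hAuM : ∀ t, Au t ≤ Mu := fun t => (hsm t).tsum_le_tsum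
    (fun k => mul_le_mul_of_nonneg_left (hbu' k t) (om_pos _ _).le) hbu
  have hl2 := hS.l2
  set L : ℝ := (LN fun t => NW (Wa a0) (at' u t)).toReal
  have hL0 : 0 ≤ L := ENNReal.toReal_nonneg
  have hLN : LN (fun t => ENNReal.ofReal (Au t)) = ENNReal.ofReal L := by
    simp only [← hNA]
    rw [ENNReal.ofReal_toReal hl2]
  -- constants
  set nq := ‖cK q‖
  set nc := ‖cK cc‖
  have hnq : 0 ≤ nq := norm_nonneg _
  have hnc : 0 ≤ nc := norm_nonneg _
  have hQ := sq_pos hG.hq
  have hsη := sq_pos hG.hη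
  have hsη1 := one_le_sq hG.hη
  have hpi := Real.pi_pos
  have hC := C0_pos
  set B0 := c * sq η * ‖γ‖ / (Real.pi * sq q * lm)
  have hB0 : 0 ≤ B0 := by positivity
  set Cw := 4 * (lm * nq) + 4 * (B0 * nc)
  set CI := 4 * (‖γ‖ * nc)
  have hCw : 0 ≤ Cw := by positivity
  have hCI : 0 ≤ CI := by positivity
  set CH := 8 * (c * sq η * (‖γ‖ * nc))
  have hCH : 0 ≤ CH := by positivity
  set D := L + (Cw + CI) * Real.sqrt (1 / (2 * c)) + 1
  have hD : 0 < D := by positivity
  set Ct := C0 * (2 * (Mu * (Cw + CI)) + (2 * (Cw * CI) + CI * CI)) + CH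
  have hCt : 0 ≤ Ct := by positivity
  obtain ⟨Lam, ρ0, hp0⟩ := exists_par hc hD
  have hρ0 := hp0.hρ
  set ρ := min ρ0 (ee / (2 * Real.exp (Lam * D ^ 2)))
  have hρ : 0 < ρ := lt_min hρ0 (by positivity)
  have hp : Par c D Lam ρ := hp0.mono hρ (min_le_left _ _)
  have hρe : Real.exp (Lam * D ^ 2) * ρ ≤ ee / 2 := by
    have h1 : ρ ≤ ee / (2 * Real.exp (Lam * D ^ 2)) := min_le_right _ _
    have h2 := Real.exp_pos (Lam * D ^ 2)
    rw [le_div_iff₀ (by positivity)] at h1
    linarith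
  obtain ⟨N0, hN0⟩ := exists_nat_ge (Ct / (c * (Real.sqrt c * (ρ / 2))))
  obtain ⟨N2, hN2'⟩ := exists_nat_ge ((Cw + CI) / Real.sqrt c * (2 / (c * δ)) / (ee / 2))
  refine ⟨max 1 (max N0 N2), fun N hN => ?_⟩
  have hN1 : 1 ≤ N := (le_max_left _ _).trans hN
  have hNr : (1 : ℝ) ≤ N := by exact_mod_cast hN1
  have hNp : (0 : ℝ) < N := by linarith
  have hNC : Ct / (c * (Real.sqrt c * (ρ / 2))) ≤ N :=
    hN0.trans (by exact_mod_cast (le_max_left _ _).trans ((le_max_right _ _).trans hN))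
  have hN2r : (Cw + CI) / Real.sqrt c * (2 / (c * δ)) / (ee / 2) ≤ N :=
    hN2'.trans (by exact_mod_cast (le_max_right N0 N2).trans ((le_max_right _ _).trans hN))
  set k1 : K := (N : ℤ) • η with hk1
  set σ := c * N ^ 2
  have hσ : 0 < σ := by positivity
  set T := l1 k1 + l1 (k1 + q) + l1 q + l1 (k1 + (k1 + q)) + 1
  have t1 := l1_nonneg k1
  have t2 := l1_nonneg (k1 + q)
  have t3 := l1_nonneg q
  have t4 := l1_nonneg (k1 + (k1 + q))
  have hT : 0 < T := by positivity
  set a := min a0 (Real.log 2 / T)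
  have hlog : 0 < Real.log 2 := Real.log_pos (by norm_num)
  have ha : 0 < a := lt_min ha0 (by positivity)
  have haa : a ≤ a0 := min_le_left _ _
  have haT : a ≤ Real.log 2 / T := min_le_right _ _
  have om2 : ∀ κ : K, l1 κ ≤ T → Wa a κ ≤ ENNReal.ofReal 2 ∧ Wa a (-κ) ≤ ENNReal.ofReal 2 := by
    intro κ hκ
    refine ⟨ENNReal.ofReal_le_ofReal (Wa_le_two hT ha.le haT hκ), ENNReal.ofReal_le_ofReal ?_⟩
    exact Wa_le_two hT ha.le haT (by rw [l1_neg]; exact hκ)
  -- rates
  have s1 : sq k1 = N ^ 2 * sq η := sq_k1 N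
  have s2 : sq (k1 + q) = N ^ 2 * sq η + sq q := sq_k2 hG N
  have s12 : sq (k1 + (k1 + q)) = 4 * (N ^ 2 * sq η) + sq q := sq_k12 hG N
  have hN2 : (0 : ℝ) < (N : ℝ) ^ 2 := by positivity
  have r1 : σ ≤ c * sq k1 := by
    rw [s1]; exact mul_le_mul_of_nonneg_left (le_mul_of_one_le_right hN2.le hsη1) hc.le
  have r2 : σ ≤ c * sq (k1 + q) := by
    rw [s2]
    exact mul_le_mul_of_nonneg_left ((le_mul_of_one_le_right hN2.le hsη1).trans
      (le_add_of_nonneg_right hQ.le)) hc.le
  have rμ : σ ≤ muF c q η N := by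
    have h0 : 0 ≤ c * sq (k1 + q) := mul_nonneg hc.le (sq_nonneg' _)
    unfold muF; rw [← hk1]; linarith
  have hbe : ‖be c q η γ lm N‖ = N * B0 := norm_be hc hlm hG γ hN1
  set e : ℝ → ℝ := fun t => Real.exp (-(σ * max t 0))
  have he0 : ∀ t, 0 ≤ e t := fun t => (Real.exp_pos _).le
  have he1 : ∀ t, e t ≤ 1 := by
    intro t
    simp only [e]; rw [Real.exp_le_one_iff]
    have : 0 ≤ σ * max t 0 := mul_nonneg hσ.le (le_max_right _ _)
    linarith
  -- bounds for the wave and the low mode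
  have hw : ∀ t, NW (Wa a) (at' (wF c q cc η γ lm N) t) ≤ ENNReal.ofReal (Cw * N * e t) := by
    intro t
    have e1 : at' (wF c q cc η γ lm N) t =
      at' (Mo k1 (c * sq k1) (am lm N • cK q) + Mo (-k1) (c * sq k1) (am lm N • cK q)) t
      + at' (Mo (k1 + q) (c * sq (k1 + q)) (be c q η γ lm N • cK cc)
        + Mo (-(k1 + q)) (c * sq (k1 + q)) (star (be c q η γ lm N) • cK cc)) t := rfl
    rw [e1]
    refine (NW_add_le _ _ _).trans ?_
    have nv : ‖am lm N • cK q‖ ≤ N * (lm * nq) := by rw [norm_smul, norm_am hlm, mul_assoc]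
    have nb : ‖be c q η γ lm N • cK cc‖ ≤ N * B0 * nc := by rw [norm_smul, hbe]
    have nb' : ‖star (be c q η γ lm N) • cK cc‖ ≤ N * B0 * nc := by rw [norm_smul, norm_star, hbe]
    have h1 := NW_pair_le (Wa a) (κ := k1) r1 _ _ t nv nv (by norm_num)
      (om2 k1 (by simp only [T]; linarith)).1 (om2 k1 (by simp only [T]; linarith)).2
    have h2 := NW_pair_le (Wa a) (κ := k1 + q) r2 _ _ t nb nb' (by norm_num)
      (om2 (k1 + q) (by simp only [T]; linarith)).1 (om2 (k1 + q) (by simp only [T]; linarith)).2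
    refine (add_le_add h1 h2).trans ?_
    rw [← ENNReal.ofReal_add (by positivity) (by positivity)]
    apply ENNReal.ofReal_le_ofReal
    simp only [Cw, e]
    apply le_of_eq; ring
  have hI : ∀ t, NW (Wa a) (at' (IF c q cc η γ N) t) ≤ ENNReal.ofReal (CI * e t) := by
    intro t
    have nv : ‖γ • cK cc‖ ≤ ‖γ‖ * nc := by rw [norm_smul]
    have nv' : ‖star γ • cK cc‖ ≤ ‖γ‖ * nc := by rw [norm_smul, norm_star]
    have h1 := NW_pair_le (Wa a) (κ := q) rμ _ _ t nv nv' (by norm_num)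
      (om2 q (by simp only [T]; linarith)).1 (om2 q (by simp only [T]; linarith)).2
    refine h1.trans (ENNReal.ofReal_le_ofReal ?_)
    simp only [CI, e]
    apply le_of_eq; ring
  have hHF : ∀ t, NW (Wm a) (at' (pF c q cc η γ N (k1 + (k1 + q))) t) ≤ ENNReal.ofReal (CH * N * e t) := by
    intro t
    have hnk : (N : ℝ) ≤ nk (k1 + (k1 + q)) := by
      unfold nk
      apply Real.le_sqrt_of_sq_le
      rw [s12]
      have h1 := le_mul_of_one_le_right hN2.le hsη1
      have h2 : (0 : ℝ) ≤ N ^ 2 * sq η := hN2.le.trans h1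
      calc (N : ℝ) ^ 2 ≤ N ^ 2 * sq η := h1
        _ ≤ 4 * (N ^ 2 * sq η) := le_mul_of_one_le_left h2 (by norm_num)
        _ ≤ _ := le_add_of_nonneg_right hQ.le
    have hm0 : (0 : ℝ) ≤ 2 * c * N ^ 2 * sq η := by positivity
    have nv : ‖(-((2 * c * N ^ 2 * sq η : ℝ) : ℂ) * γ) • cK cc‖ ≤ 2 * c * N ^ 2 * sq η * ‖γ‖ * nc := by
      rw [norm_smul, norm_mul, norm_neg, Complex.norm_real, Real.norm_of_nonneg hm0]
    have nv' : ‖star (-((2 * c * N ^ 2 * sq η : ℝ) : ℂ) * γ) • cK cc‖ ≤ 2 * c * N ^ 2 * sq η * ‖γ‖ * nc := by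
      rw [norm_smul, norm_star, norm_mul, norm_neg, Complex.norm_real, Real.norm_of_nonneg hm0]
    have hW : ∀ κ : K, l1 κ ≤ T → (N : ℝ) ≤ nk κ → Wm a κ ≤ ENNReal.ofReal (2 / N) := by
      intro κ h1 h2
      apply ENNReal.ofReal_le_ofReal
      exact div_le_div₀ (by norm_num) (Wa_le_two hT ha.le haT h1) hNp h2
    have h1 := NW_pair_le (Wm a) (κ := k1 + (k1 + q)) rμ _ _ t nv nv' (wm := 2 / N) (by positivity)
      (hW _ (by simp only [T]; linarith) hnk)
      (hW _ (by rw [l1_neg]; simp only [T]; linarith) (by rw [nk_neg]; exact hnk))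
    refine h1.trans (ENNReal.ofReal_le_ofReal ?_)
    simp only [CH, e]
    apply le_of_eq; field_simp; ring
  -- the approximate solution
  set U : Fam := u + (wF c q cc η γ lm N + IF c q cc η γ N)
  set FE : Fam := Bt U - Bt u - pF c q cc η γ N q
  have hwc : CF (wF c q cc η γ lm N) := fun k =>
    ((Mo_cf _ _ _ k).add (Mo_cf _ _ _ k)).add ((Mo_cf _ _ _ k).add (Mo_cf _ _ _ k))
  have hIc : CF (IF c q cc η γ N) := fun k => (Mo_cf _ _ _ k).add (Mo_cf _ _ _ k)
  have hpc : ∀ κ, CF (pF c q cc η γ N κ) := fun κ k => (Mo_cf _ _ _ k).add (Mo_cf _ _ _ k)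
  have hμ0 : 0 ≤ muF c q η N := hσ.le.trans rμ
  have hwD : WDom a0 (wF c q cc η γ lm N) :=
    WDom.add (WDom.add (Mo_dom _ (hσ.le.trans r1) _ _) (Mo_dom _ (hσ.le.trans r1) _ _))
      (WDom.add (Mo_dom _ (hσ.le.trans r2) _ _) (Mo_dom _ (hσ.le.trans r2) _ _))
  have hID : WDom a0 (IF c q cc η γ N) := WDom.add (Mo_dom _ hμ0 _ _) (Mo_dom _ hμ0 _ _)
  have hUc : CF U := fun k => (hS.cf k).add ((hwc k).add (hIc k))
  have hUW : WDom a0 U := huW.add (hwD.add hID)
  have hUd : Dom U := hUW.dom ha0.le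
  have hws : SymF (wF c q cc η γ lm N) := by
    have h1 := sym_pair k1 (c * sq k1) (am lm N) q
    have h2 := sym_pair (k1 + q) (c * sq (k1 + q)) (be c q η γ lm N) cc
    have e3 : star (am lm N) = am lm N := star_am lm N
    rw [e3] at h1
    exact fun t => (h1 t).add (h2 t)
  have hIs : SymF (IF c q cc η γ N) := sym_pair q _ γ cc
  have hps : ∀ κ, SymF (pF c q cc η γ N κ) := fun κ => sym_pair κ _ _ cc
  have hUs : SymF U := fun t => (hS.sym t).add ((hws t).add (hIs t))
  have hFEc : CF FE := fun k => ((Bt_cont hUc hUd k).sub (Bt_cont hS.cf hud k)).sub (hpc q k)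
  have hFEs : SymF FE := fun t => ((Bt_sym hUs t).sub (Bt_sym hS.sym t)).sub (hps q t)
  have k1ne : k1 ≠ 0 := ne_zero_of_sq (by rw [s1]; positivity)
  have k2ne : k1 + q ≠ 0 := ne_zero_of_sq (by rw [s2]; positivity)
  have Mo0 : ∀ {κ : K} (_ : κ ≠ 0) (μ : ℝ) (v : C3) (t : ℝ), Mo κ μ v 0 t = 0 := by
    intro κ hκ μ v t; unfold Mo; rw [if_neg (Ne.symm hκ)]
  have hp0 : ∀ t, pF c q cc η γ N q 0 t = 0 := by
    intro t
    show Mo q _ _ 0 t + Mo (-q) _ _ 0 t = 0
    rw [Mo0 hG.hq, Mo0 (neg_ne_zero.2 hG.hq), add_zero]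
  have hw0 : ∀ t, wF c q cc η γ lm N 0 t = 0 := by
    intro t
    show (Mo k1 _ _ 0 t + Mo (-k1) _ _ 0 t) + (Mo (k1 + q) _ _ 0 t + Mo (-(k1 + q)) _ _ 0 t) = 0
    rw [Mo0 k1ne, Mo0 (neg_ne_zero.2 k1ne), Mo0 k2ne, Mo0 (neg_ne_zero.2 k2ne)]; simp
  have hI0 : ∀ t, IF c q cc η γ N 0 t = 0 := by
    intro t
    show Mo q _ _ 0 t + Mo (-q) _ _ 0 t = 0
    rw [Mo0 hG.hq, Mo0 (neg_ne_zero.2 hG.hq), add_zero]
  have hFE0 : ∀ t, FE 0 t = 0 := by
    intro t
    simp only [FE, Pi.sub_apply, hp0, Bt, Bf_zero, sub_self]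
  -- the majorant
  set A : ℝ → ℝ := fun t => Au t + (Cw + CI) * N * e t
  have hec : Continuous e := by simp only [e]; fun_prop
  have hAc : Continuous A := by simp only [A]; fun_prop
  have hA0 : ∀ t, 0 ≤ A t := fun t => by
    have := hAu0 t; have := he0 t; simp only [A]; positivity
  have hAi : LN (fun t => ENNReal.ofReal (A t)) ≤ ENNReal.ofReal D := by
    have h1 : ∀ t, ENNReal.ofReal (A t) = ENNReal.ofReal (Au t) +
        ENNReal.ofReal ((Cw + CI) * N) * ENNReal.ofReal (e t) := by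
      intro t
      rw [← ENNReal.ofReal_mul (by positivity), ← ENNReal.ofReal_add (hAu0 t)
        (by have := he0 t; positivity)]
    simp only [h1]
    refine (LN_add_le (by fun_prop) (by fun_prop)).trans ?_
    rw [LN_const_mul _ (by fun_prop), hLN, LN_e hσ, ← ENNReal.ofReal_mul (by positivity),
      ← ENNReal.ofReal_add hL0 (by positivity)]
    apply ENNReal.ofReal_le_ofReal
    have h2 : (N : ℝ) * Real.sqrt (1 / (2 * σ)) = Real.sqrt (1 / (2 * c)) := by
      have h3 : (1 : ℝ) / (2 * σ) = 1 / (2 * c) / N ^ 2 := by simp only [σ]; field_simp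
      rw [h3, Real.sqrt_div (by positivity), Real.sqrt_sq hNp.le]
      field_simp
    rw [mul_assoc, h2]
    simp only [D]; linarith
  have hUA : ∀ t, 0 < t → NW (Wa a) (at' U t) ≤ ENNReal.ofReal (A t) := by
    intro t _
    have e1 : at' U t = at' u t + (at' (wF c q cc η γ lm N) t + at' (IF c q cc η γ N) t) := rfl
    have hx : NW (Wa a) (at' u t) ≤ ENNReal.ofReal (Au t) := by
      rw [← hNA]; exact NW_mono (fun k => Wa_mono haa k) _
    rw [e1]
    refine (NW_add_le _ _ _).trans ((add_le_add hx ((NW_add_le _ _ _).trans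
      (add_le_add (hw t) (hI t)))).trans ?_)
    · have h0 := he0 t
      rw [← ENNReal.ofReal_add (by positivity) (by positivity), ← ENNReal.ofReal_add (hAu0 t) (by positivity)]
      apply ENNReal.ofReal_le_ofReal
      simp only [A]
      have h3 : CI * e t ≤ CI * N * e t := by
        calc CI * e t ≤ N * (CI * e t) := le_mul_of_one_le_left (mul_nonneg hCI (he0 t)) hNr
          _ = _ := by ring
      linarith
  -- the error
  set η' := Ct / (c * N)
  have hη' : 0 ≤ η' := by positivity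
  have hη2 : η' ^ 2 ≤ c * (ρ / 2) ^ 2 := by
    have h1 : η' ≤ Real.sqrt c * (ρ / 2) := by
      have hsc := Real.sqrt_pos.2 hc
      simp only [η']
      rw [div_le_iff₀ (by positivity)]
      rw [div_le_iff₀ (by positivity)] at hNC
      linarith
    calc η' ^ 2 ≤ (Real.sqrt c * (ρ / 2)) ^ 2 := by gcongr
      _ = _ := by rw [mul_pow, Real.sq_sqrt hc.le]
  have hFEb : ∀ t, NW (Wm a) (at' FE t) ≤ ENNReal.ofReal (Ct * N * e t) := by
    intro t
    set x := at' u t
    set w := at' (wF c q cc η γ lm N) t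
    set I := at' (IF c q cc η γ N) t
    have nx : SN x := hud.sn t
    have nw : SN w := (hwD.dom ha0.le).sn t
    have nI : SN I := (hID.dom ha0.le).sn t
    have eF : at' FE t = (Bf x (w + I) + Bf (w + I) x) + ((Bf w I + Bf I w) + Bf I I)
        + at' (pF c q cc η γ N (k1 + (k1 + q))) t := by
      have e1 : at' FE t = Bf (x + (w + I)) (x + (w + I)) - Bf x x - at' (pF c q cc η γ N q) t := rfl
      have e2 := BwF (c := c) hlm hG γ hN1 t
      rw [e1, Bf_add_left nx (nw.add nI) (nx.add (nw.add nI)), Bf_add_right nx nx (nw.add nI),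
        Bf_add_right (nw.add nI) nx (nw.add nI), Bf_add_left nw nI (nw.add nI), Bf_add_right nw nw nI,
        Bf_add_right nI nw nI]
      rw [show Bf w w = _ from e2]
      abel
    rw [eF]
    have hx : NW (Wa a) x ≤ ENNReal.ofReal Mu := by
      refine (NW_mono (fun k => Wa_mono haa k) _).trans ?_
      rw [hNA]; exact ENNReal.ofReal_le_ofReal (hAuM t)
    have h0 := he0 t
    have h1 := he1 t
    have hwI : NW (Wa a) (w + I) ≤ ENNReal.ofReal ((Cw + CI) * N * e t) := by
      refine (NW_add_le _ _ _).trans ((add_le_add (hw t) (hI t)).trans ?_)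
      rw [← ENNReal.ofReal_add (by positivity) (by positivity)]
      apply ENNReal.ofReal_le_ofReal
      have h3 : CI * e t ≤ CI * N * e t := by
        calc CI * e t ≤ N * (CI * e t) := le_mul_of_one_le_left (mul_nonneg hCI (he0 t)) hNr
          _ = _ := by ring
      linarith
    have b1 : NW (Wm a) (Bf x (w + I) + Bf (w + I) x)
        ≤ ENNReal.ofReal (C0 * (2 * (Mu * (Cw + CI))) * N * e t) := by
      refine (NW_add_le _ _ _).trans ((add_le_add (NW_Bf_le ha.le _ _) (NW_Bf_le ha.le _ _)).trans ?_)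
      calc _ ≤ ENNReal.ofReal C0 * (ENNReal.ofReal Mu * ENNReal.ofReal ((Cw + CI) * N * e t))
            + ENNReal.ofReal C0 * (ENNReal.ofReal ((Cw + CI) * N * e t) * ENNReal.ofReal Mu) := by
            gcongr
        _ = _ := by
            rw [ofR _ hC.le hMu, ofR _ hC.le (by positivity),
              ← ENNReal.ofReal_add (by positivity) (by positivity)]
            congr 1; ring
    have b2 : NW (Wm a) ((Bf w I + Bf I w) + Bf I I)
        ≤ ENNReal.ofReal (C0 * (2 * (Cw * CI) + CI * CI) * N * e t) := by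
      refine (NW_add_le _ _ _).trans ((add_le_add ((NW_add_le _ _ _).trans
        (add_le_add (NW_Bf_le ha.le _ _) (NW_Bf_le ha.le _ _))) (NW_Bf_le ha.le _ _)).trans ?_)
      calc _ ≤ ENNReal.ofReal C0 * (ENNReal.ofReal (Cw * N * e t) * ENNReal.ofReal (CI * e t))
            + ENNReal.ofReal C0 * (ENNReal.ofReal (CI * e t) * ENNReal.ofReal (Cw * N * e t))
            + ENNReal.ofReal C0 * (ENNReal.ofReal (CI * e t) * ENNReal.ofReal (CI * e t)) := by
            gcongr
            · exact hw t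
            · exact hI t
            · exact hI t
            · exact hw t
            · exact hI t
            · exact hI t
        _ ≤ _ := by
            rw [ofR _ hC.le (by positivity), ofR _ hC.le (by positivity), ofR _ hC.le (by positivity),
              ← ENNReal.ofReal_add (by positivity) (by positivity),
              ← ENNReal.ofReal_add (by positivity) (by positivity)]
            apply ENNReal.ofReal_le_ofReal
            have e2 : e t * e t ≤ e t := mul_le_of_le_one_left h0 h1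
            have e3 : e t * e t ≤ N * e t := e2.trans (le_mul_of_one_le_left h0 hNr)
            have e4 : N * (e t * e t) ≤ N * e t := mul_le_mul_of_nonneg_left e2 hNp.le
            have p1 : 0 ≤ C0 * (Cw * CI) := mul_nonneg hC.le (mul_nonneg hCw hCI)
            have p2 : 0 ≤ C0 * (CI * CI) := mul_nonneg hC.le (mul_nonneg hCI hCI)
            calc _ = 2 * (C0 * (Cw * CI) * (N * (e t * e t))) + C0 * (CI * CI) * (e t * e t) := by ring
              _ ≤ 2 * (C0 * (Cw * CI) * (N * e t)) + C0 * (CI * CI) * (N * e t) :=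
                  add_le_add (mul_le_mul_of_nonneg_left (mul_le_mul_of_nonneg_left e4 p1) zero_le_two)
                    (mul_le_mul_of_nonneg_left e3 p2)
              _ = _ := by ring
    refine (NW_add_le _ _ _).trans ((add_le_add ((NW_add_le _ _ _).trans (add_le_add b1 b2)) (hHF t)).trans ?_)
    rw [← ENNReal.ofReal_add (by positivity) (by positivity), ← ENNReal.ofReal_add (by positivity) (by positivity)]
    apply ENNReal.ofReal_le_ofReal
    simp only [Ct]
    apply le_of_eq; ring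
  have hFEi : ∫⁻ s in Ioi 0, NW (Wm a) (at' FE s) ≤ ENNReal.ofReal η' := by
    calc _ ≤ ∫⁻ s in Ioi 0, ENNReal.ofReal (Ct * N) * ENNReal.ofReal (e s) := by
          refine lintegral_mono fun s => ?_
          rw [← ENNReal.ofReal_mul (by positivity)]
          exact hFEb s
      _ = ENNReal.ofReal (Ct * N) * ENNReal.ofReal (1 / σ) := by
          rw [lintegral_const_mul _ (by fun_prop), lint_e hσ]
      _ = _ := by
          rw [← ENNReal.ofReal_mul (by positivity)]
          congr 1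
          simp only [η', σ]; field_simp
  obtain ⟨r, M, hM, hrc, hr0, hrM, hrL, hrfix, hrs⟩ := exist hp ha hAc hA0 hAi hUc hUd hUs hUA hFEc
    hFEs hFE0 hη' hη2 hFEi
  -- the new solution
  have hrW : WDom (a / 2) r := by
    refine ⟨fun k => M * (nk k * Real.exp (-(a * l1 k))), ?_, fun k t =>
      norm_le_of_NWm hM (hr0 t) (hrM t) k⟩
    refine ((summ_nk (half_pos ha)).mul_left M).congr fun k => ?_
    unfold om
    have : Real.exp (-(a / 2 * l1 k)) = Real.exp (a / 2 * l1 k) * Real.exp (-(a * l1 k)) := by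
      rw [← Real.exp_add]; congr 1; ring
    rw [this]; ring
  have hrd : Dom r := hrW.dom (half_pos ha).le
  have hUrc : CF (U + r) := fun k => (hUc k).add (hrc k)
  -- smallness of the correction
  have hdelta : LNd δ (U + r) ≤ LNd δ u + ENNReal.ofReal ee := by
    have hwI0 : LNd δ (wF c q cc η γ lm N + IF c q cc η γ N) ≤ ENNReal.ofReal (ee / 2) := by
      refine (LNd_exp (B := (Cw + CI) * N) (σ := σ) (mul_nonneg (add_nonneg hCw hCI) hNp.le) hσ
        fun t => ?_).trans (ENNReal.ofReal_le_ofReal (num_small hc hδ (add_nonneg hCw hCI) hNr hee hN2r))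
      have e2 : NW (Wa 0) (at' (wF c q cc η γ lm N + IF c q cc η γ N) t)
          ≤ NW (Wa a) (at' (wF c q cc η γ lm N + IF c q cc η γ N) t) := NW_mono (fun k => Wa_mono ha.le k) _
      refine e2.trans ((NW_add_le _ _ _).trans ((add_le_add (hw t) (hI t)).trans ?_))
      have h0 := he0 t
      rw [← ENNReal.ofReal_add (mul_nonneg (mul_nonneg hCw hNp.le) h0) (mul_nonneg hCI h0)]
      apply ENNReal.ofReal_le_ofReal
      have h3 : CI * e t ≤ N * (CI * e t) := le_mul_of_one_le_left (mul_nonneg hCI h0) hNr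
      calc Cw * N * e t + CI * e t ≤ Cw * N * e t + N * (CI * e t) := add_le_add le_rfl h3
        _ = (Cw + CI) * N * e t := by ring
    have hLNr : LNd δ r ≤ ENNReal.ofReal (ee / 2) := by
      refine (LNd_le_LN δ r).trans ((LN_le_LF hp.hL.le hD.le hAc hA0 hAi ha.le hrc).trans
        ((mul_le_mul' le_rfl hrL).trans ?_))
      rw [← ENNReal.ofReal_mul (Real.exp_pos _).le]
      exact ENNReal.ofReal_le_ofReal hρe
    refine (LNd_add hUc hrc).trans ?_
    refine (add_le_add ((LNd_add hS.cf fun k => (hwc k).add (hIc k)).trans (add_le_add le_rfl hwI0)) hLNr).trans ?_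
    rw [add_assoc, ← ENNReal.ofReal_add (half_pos hee).le (half_pos hee).le, add_halves]
  refine ⟨a / 2, half_pos ha, U + r, ⟨hUrc, ?_, fun t => (hUs t).add (hrs t),
    (hUW.mono (by linarith)).add hrW, ?_, ?_⟩, hdelta⟩
  · intro t
    show (u 0 t + (wF c q cc η γ lm N 0 t + IF c q cc η γ N 0 t)) + r 0 t = 0
    rw [hS.z, hw0, hI0, hr0]; simp
  · -- finite norm
    have hg : Monotone (gw Lam A) := gw_mono hp.hL.le hAc
    have m1 : Measurable fun t => NW (Wa (a / 2)) (at' U t) := NW_meas _ hUc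
    have m2 : Measurable fun t => NW (Wa (a / 2)) (at' r t) := NW_meas _ hrc
    have h1 : LN (fun t => NW (Wa (a / 2)) (at' U t)) ≠ ⊤ := by
      refine ne_top_of_le_ne_top ENNReal.ofReal_ne_top ((LN_mono fun t ht => ?_).trans hAi)
      exact (NW_mono (fun k => Wa_mono (by linarith) k) _).trans (hUA t ht)
    have h2 : LN (fun t => NW (Wa (a / 2)) (at' r t)) ≠ ⊤ :=
      ne_top_of_le_ne_top (ENNReal.mul_ne_top ENNReal.ofReal_ne_top
        (ne_top_of_le_ne_top ENNReal.ofReal_ne_top hrL))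
        (LN_le_LF hp.hL.le hD.le hAc hA0 hAi (half_le_self ha.le) hrc)
    refine ne_top_of_le_ne_top (ENNReal.add_ne_top.2 ⟨h1, h2⟩) ((LN_mono fun t _ => ?_).trans
      (LN_add_le m1 m2))
    exact NW_add_le _ _ _
  · intro k t
    have hBr : CF (Bt (U + r)) := Bt_cont hUrc (hUd.add hrd)
    have hBu : CF (Bt u) := Bt_cont hS.cf hud
    have e1 : FE + (Bt (U + r) - Bt U) = Bt (U + r) - (Bt u + pF c q cc η γ N q) := by
      simp only [FE]; abel
    have hadd : CF (Bt u + pF c q cc η γ N q) := fun k => (hBu k).add (hpc q k)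
    rw [e1, Duh_sub hBr hadd, Duh_add hBu (hpc q)] at hrfix
    have e2 : r k t = Duh c (Bt (U + r)) k t - (Duh c (Bt u) k t + Duh c (pF c q cc η γ N q) k t) :=
      congrFun (congrFun hrfix k) t
    have e3 := hS.eq k t
    have e4 := w_init (q := q) (cc := cc) (η := η) c γ lm N k t
    have e5 := I_init hc hG γ hN1 k t
    show (u k t + (wF c q cc η γ lm N k t + IF c q cc η γ N k t)) + r k t = _
    have e6 : IF c q cc η γ N k t = Real.exp (-(c * sq k * max t 0)) • E0 q cc γ k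
        + Duh c (pF c q cc η γ N q) k t := by rw [← e5]; abel
    rw [e2, e3, e4, e6]
    simp only [Pi.add_apply, smul_add]
    abel

end Pool.Agent.H356R3.NS
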