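import Pool.Agent.H356R3.NS.Fix2

open MeasureTheory Set Filter Topology
open scoped ENNReal NNReal

namespace Pool.Agent.H356R3.NS

/-- integer vectors as complex vectors -/
noncomputable def cK (l : K) : C3 := fun i => (l i : ℂ)

/-- integer inner product -/
def ip (k l : K) : ℤ := ∑ i, k i * l i

lemma dt_smul (k l : K) (s : ℂ) : dt k (s • cK l) = s * (ip k l : ℂ) := by
  unfold dt ip cK
  push_cast
  rw [Finset.mul_sum]
  exact Finset.sum_congr rfl fun i _ => by simp; ring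

lemma ip_add (k k' l : K) : ip (k + k') l = ip k l + ip k' l := by
  unfold ip
  rw [← Finset.sum_add_distrib]
  exact Finset.sum_congr rfl fun i _ => by simp; ring

lemma ip_neg (k l : K) : ip (-k) l = -ip k l := by
  unfold ip; simp

lemma ip_comm (k l : K) : ip k l = ip l k := by
  unfold ip; exact Finset.sum_congr rfl fun i _ => mul_comm _ _

lemma sq_eq_ip (k : K) : sq k = (ip k k : ℝ) := by
  unfold sq ip; push_cast
  exact Finset.sum_congr rfl fun i _ => by ring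

lemma Bsg_zero {κ κ' l : K} (s : ℂ) (v : C3) (h : ip (κ + κ') l = 0) :
    Bf (Sg κ (s • cK l)) (Sg κ' v) = 0 := by
  rw [Bf_Sg, bt_zero_left, Sg_zero]
  rw [dt_smul, h]; simp

lemma Bsg_zero' {κ κ' : K} (v v' : C3) (h : κ + κ' = 0) : Bf (Sg κ v) (Sg κ' v') = 0 := by
  rw [Bf_Sg, h, bt_freq_zero, Sg_zero]

lemma Bsg {κ κ' l l' : K} (s s' : ℂ) (h : ip (κ + κ') l' = 0) :
    Bf (Sg κ (s • cK l)) (Sg κ' (s' • cK l')) =
      Sg (κ + κ') ((-(2 * Real.pi * Complex.I) * (s * (ip (κ + κ') l : ℂ)) * s') • cK l') := by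
  rw [Bf_Sg, bt_perp, dt_smul, smul_smul]
  rw [dt_smul, h]; simp

/-- The self interaction of the wave. -/
lemma BW {k1 k2 q cc : K} (h2 : k2 = k1 + q) (h1q : ip k1 q = 0) (h1c : ip k1 cc = 0)
    (hqc : ip q cc = 0) (α α' β β' : ℂ) (S : K → C3)
    (hS : S = Sg k1 (α • cK q) + Sg (-k1) (α' • cK q) + Sg k2 (β • cK cc) + Sg (-k2) (β' • cK cc)) :
    Bf S S = Sg (k1 + k2) ((-(2 * Real.pi * Complex.I) * (α * (ip q q : ℂ)) * β) • cK cc)
      + Sg (-q) ((2 * Real.pi * Complex.I * (α * (ip q q : ℂ)) * β') • cK cc)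
      + Sg q ((-(2 * Real.pi * Complex.I) * (α' * (ip q q : ℂ)) * β) • cK cc)
      + Sg (-(k1 + k2)) ((2 * Real.pi * Complex.I * (α' * (ip q q : ℂ)) * β') • cK cc) := by
  set S1 := Sg k1 (α • cK q) with e1
  set S2 := Sg (-k1) (α' • cK q) with e2
  set S3 := Sg k2 (β • cK cc) with e3
  set S4 := Sg (-k2) (β' • cK cc) with e4
  have n1 : SN S1 := SN_Sg _ _
  have n2 : SN S2 := SN_Sg _ _
  have n3 : SN S3 := SN_Sg _ _
  have n4 : SN S4 := SN_Sg _ _
  have nS : SN S := by rw [hS]; exact ((n1.add n2).add n3).add n4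
  have hexp : ∀ T, SN T → Bf T S = Bf T S1 + Bf T S2 + Bf T S3 + Bf T S4 := by
    intro T hT
    rw [hS, Bf_add_right hT ((n1.add n2).add n3) n4, Bf_add_right hT (n1.add n2) n3,
      Bf_add_right hT n1 n2]
  have hleft : Bf S S = Bf S1 S + Bf S2 S + Bf S3 S + Bf S4 S := by
    conv_lhs => rw [show Bf S S = Bf (S1 + S2 + S3 + S4) S from by rw [← hS]]
    rw [Bf_add_left ((n1.add n2).add n3) n4 nS, Bf_add_left (n1.add n2) n3 nS,
      Bf_add_left n1 n2 nS]
  rw [hleft, hexp _ n1, hexp _ n2, hexp _ n3, hexp _ n4]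
  have i2q : ip k2 q = ip q q := by rw [h2, ip_add, h1q, zero_add]
  have i2c : ip k2 cc = 0 := by rw [h2, ip_add, h1c, hqc, zero_add]
  have a11 : Bf S1 S1 = 0 := Bsg_zero _ _ (by rw [ip_add, h1q]; rfl)
  have a12 : Bf S1 S2 = 0 := Bsg_zero' _ _ (by simp)
  have a13 : Bf S1 S3 = Sg (k1 + k2) ((-(2 * Real.pi * Complex.I) * (α * (ip q q : ℂ)) * β) • cK cc) := by
    rw [e1, e3, Bsg _ _ (by rw [ip_add, h1c, i2c]; rfl)]
    rw [ip_add, h1q, i2q, zero_add]
  have a14 : Bf S1 S4 = Sg (-q) ((2 * Real.pi * Complex.I * (α * (ip q q : ℂ)) * β') • cK cc) := by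
    have hf : k1 + -k2 = -q := by rw [h2]; abel
    rw [e1, e4, Bsg _ _ (by rw [hf, ip_neg, hqc]; rfl), hf, ip_neg]
    congr 2
    push_cast; ring
  have a21 : Bf S2 S1 = 0 := Bsg_zero' _ _ (by simp)
  have a22 : Bf S2 S2 = 0 := Bsg_zero _ _ (by rw [ip_add, ip_neg, h1q]; rfl)
  have a23 : Bf S2 S3 = Sg q ((-(2 * Real.pi * Complex.I) * (α' * (ip q q : ℂ)) * β) • cK cc) := by
    have hf : -k1 + k2 = q := by rw [h2]; abel
    rw [e2, e3, Bsg _ _ (by rw [hf, hqc]), hf]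
  have a24 : Bf S2 S4 = Sg (-(k1 + k2)) ((2 * Real.pi * Complex.I * (α' * (ip q q : ℂ)) * β') • cK cc) := by
    have hf : -k1 + -k2 = -(k1 + k2) := by abel
    rw [e2, e4, Bsg _ _ (by rw [hf, ip_neg, ip_add, h1c, i2c]; rfl), hf, ip_neg, ip_add, h1q, i2q]
    congr 2
    push_cast; ring
  have a31 : Bf S3 S1 = 0 := Bsg_zero _ _ (by rw [ip_add, i2c, h1c]; rfl)
  have a32 : Bf S3 S2 = 0 := Bsg_zero _ _ (by rw [ip_add, i2c, ip_neg, h1c]; rfl)
  have a33 : Bf S3 S3 = 0 := Bsg_zero _ _ (by rw [ip_add, i2c]; rfl)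
  have a34 : Bf S3 S4 = 0 := Bsg_zero' _ _ (by simp)
  have a41 : Bf S4 S1 = 0 := Bsg_zero _ _ (by rw [ip_add, ip_neg, i2c, h1c]; rfl)
  have a42 : Bf S4 S2 = 0 := Bsg_zero _ _ (by rw [ip_add, ip_neg, ip_neg, i2c, h1c]; rfl)
  have a43 : Bf S4 S3 = 0 := Bsg_zero' _ _ (by simp)
  have a44 : Bf S4 S4 = 0 := Bsg_zero _ _ (by rw [ip_add, ip_neg, i2c]; rfl)
  rw [a11, a12, a13, a14, a21, a22, a23, a24, a31, a32, a33, a34, a41, a42, a43, a44]
  abel

/-- Exponentially decaying modes. -/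
noncomputable def Mo (κ : K) (μ : ℝ) (v : C3) : Fam :=
  fun k t => if k = κ then Real.exp (-(μ * max t 0)) • v else 0

lemma at'_Mo (κ : K) (μ : ℝ) (v : C3) (t : ℝ) :
    at' (Mo κ μ v) t = Sg κ (Real.exp (-(μ * max t 0)) • v) := by
  funext k; simp [at', Mo, Sg]

lemma Mo_cf (κ : K) (μ : ℝ) (v : C3) : CF (Mo κ μ v) := by
  intro k
  unfold Mo
  split_ifs
  · fun_prop
  · exact continuous_const

lemma Mo_dom (κ : K) {μ : ℝ} (hμ : 0 ≤ μ) (v : C3) (a : ℝ) :
    ∃ b : K → ℝ, Summable (fun k => om a k * b k) ∧ ∀ k t, ‖Mo κ μ v k t‖ ≤ b k := by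
  refine ⟨fun k => if k = κ then ‖v‖ else 0, ?_, ?_⟩
  · refine summable_of_ne_finset_zero (s := {κ}) fun k hk => ?_
    simp only [Finset.mem_singleton] at hk
    simp [hk]
  · intro k t
    by_cases h : k = κ
    · simp only [Mo, h, if_true]
      rw [norm_smul, Real.norm_of_nonneg (Real.exp_pos _).le]
      have : Real.exp (-(μ * max t 0)) ≤ 1 := by
        rw [Real.exp_le_one_iff]
        have : 0 ≤ μ * max t 0 := mul_nonneg hμ (le_max_right _ _)
        linarith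
      calc _ ≤ 1 * ‖v‖ := mul_le_mul_of_nonneg_right this (norm_nonneg _)
        _ = _ := one_mul _
    · simp [Mo, h]

lemma NW_Mo_le (W : K → ℝ≥0∞) (κ : K) {μ σ : ℝ} (h : σ ≤ μ) (v : C3) (t : ℝ) :
    NW W (at' (Mo κ μ v) t) ≤ W κ * ENNReal.ofReal (‖v‖ * Real.exp (-(σ * max t 0))) := by
  rw [at'_Mo, NW_Sg]
  apply mul_le_mul' le_rfl
  rw [← ofReal_norm, norm_smul, Real.norm_of_nonneg (Real.exp_pos _).le, mul_comm]
  apply ENNReal.ofReal_le_ofReal
  apply mul_le_mul_of_nonneg_left _ (norm_nonneg _)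
  apply Real.exp_le_exp.2
  have : 0 ≤ max t 0 := le_max_right _ _
  nlinarith

lemma Duh_Mo {c μ : ℝ} {κ : K} (v : C3) {m : ℝ} (hm : m ≠ 0) (h : μ - c * sq κ = m) (k : K) (t : ℝ) :
    Duh c (Mo κ μ v) k t = if k = κ then
      ((Real.exp (-(c * sq κ * max t 0)) - Real.exp (-(μ * max t 0))) / m) • v else 0 := by
  by_cases hk : k = κ
  · subst hk
    rw [if_pos rfl]
    unfold Duh
    have hτ : 0 ≤ max t 0 := le_max_right _ _
    set τ := max t 0
    have e1 : ∀ s ∈ uIcc 0 τ, Real.exp (-(c * sq k * (τ - s))) • Mo k μ v k s =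
        Real.exp (-(c * sq k * τ)) • (Real.exp (-(m * s)) • v) := by
      intro s hs
      rw [uIcc_of_le hτ] at hs
      unfold Mo
      rw [if_pos rfl, max_eq_left hs.1, smul_smul, smul_smul, ← Real.exp_add, ← Real.exp_add]
      congr 2
      rw [← h]; ring
    rw [intervalIntegral.integral_congr e1, intervalIntegral.integral_smul]
    have e2 : ∫ s in (0 : ℝ)..τ, Real.exp (-(m * s)) • v = ((1 - Real.exp (-(m * τ))) / m) • v := by
      rw [intervalIntegral.integral_smul_const]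
      congr 1
      have hd : ∀ s ∈ uIcc 0 τ, HasDerivAt (fun s => -(Real.exp (-(m * s)) / m)) (Real.exp (-(m * s))) s := by
        intro s _
        have h1 : HasDerivAt (fun s : ℝ => -(m * s)) (-m) s := by
          simpa using ((hasDerivAt_id' s).const_mul m).fun_neg
        refine ((h1.exp).div_const m).fun_neg.congr_deriv ?_
        field_simp
      rw [intervalIntegral.integral_eq_sub_of_hasDerivAt hd
        ((by fun_prop : Continuous fun s => Real.exp (-(m * s))).intervalIntegrable _ _)]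
      simp
      ring
    rw [e2, smul_smul]
    congr 1
    rw [mul_div_assoc', mul_sub, mul_one, ← Real.exp_add]
    congr 3
    rw [← h]; ring
  · rw [if_neg hk]
    unfold Duh Mo
    simp [hk]

/-- Solutions on the Fourier side. -/
structure Sol (c a : ℝ) (V : K → C3) (u : Fam) : Prop where
  cf : CF u
  z : ∀ t, u 0 t = 0
  sym : SymF u
  dom : ∃ b : K → ℝ, Summable (fun k => om a k * b k) ∧ ∀ k t, ‖u k t‖ ≤ b k
  l2 : LN (fun t => NW (Wa a) (at' u t)) ≠ ⊤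
  eq : ∀ k t, u k t = Real.exp (-(c * sq k * max t 0)) • V k + Duh c (Bt u) k t

end Pool.Agent.H356R3.NS
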